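import Pool.Agent.CPU.StmtsE
import Pool.Agent.CPT.BND

/-!
# BND: the bound for the poles of an `X` which is not a `p`-th power
-/

set_option autoImplicit false

noncomputable section

namespace Pool.Agent.CPU

open Pool.Agent Pool.Agent.CPT

namespace BND_

variable {κ F : Type} [Field κ] [Field F] [Algebra κ F] {x y : F}

theorem ord_neg (O : SRF.PP κ x y) {f : F} (hf : f ≠ 0) :
    SRF.ord O.1 (-f) = SRF.ord O.1 f := by
  have hone : SRF.ord O.1 (1 : F) = 0 := O.isOrd.one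
  have hm1 : (-1 : F) ≠ 0 := neg_ne_zero.2 one_ne_zero
  have h2 : SRF.ord O.1 ((-1 : F) * (-1)) = SRF.ord O.1 (-1 : F) + SRF.ord O.1 (-1 : F) :=
    O.isOrd.mul _ _ hm1 hm1
  have h3 : ((-1 : F) * (-1)) = 1 := by ring
  rw [h3, hone] at h2
  have h4 : SRF.ord O.1 (-1 : F) = 0 := by omega
  have h5 : -f = (-1) * f := by ring
  rw [h5, O.isOrd.mul _ _ hm1 hf, h4, zero_add]

/-- the local estimate -/
theorem local_est (O : SRF.PP κ x y) (p : ℕ) (hp : 0 < p) (C : ℤ) (Δ : F) (φ : F → F)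
    (hΔ : Δ ≠ 0)
    (hφ : ∀ f g, φ (f ^ p * g) = f ^ p * φ g)
    (hO : ∀ f ∈ O.1, φ f ≠ 0 → - C ≤ SRF.ord O.1 (Δ * φ f))
    (X : F) (hX0 : X ≠ 0) (hX : φ X ≠ 0) :
    SRF.ord O.1 X - (p - 1) - C ≤ SRF.ord O.1 (Δ * φ X) ∧
      (SRF.ord O.1 X = 0 → - C ≤ SRF.ord O.1 (Δ * φ X)) := by
  constructor
  · obtain ⟨π, hπ0, hπ⟩ := CPT.BND_.exists_uniformiser O
    set m : ℤ := SRF.ord O.1 X / p with hm
    set Y : F := (π ^ (-m)) ^ p * X with hY
    have hp' : (0 : ℤ) < p := by exact_mod_cast hp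
    have hπm : (π ^ (-m)) ≠ 0 := zpow_ne_zero _ hπ0
    have hvY : SRF.ord O.1 Y = SRF.ord O.1 X - p * m := by
      rw [hY, O.isOrd.mul _ _ (pow_ne_zero _ hπm) hX0, O.isOrd.pow hπm,
        CPT.BND_.ord_zpow O hπ0, hπ]
      ring
    have hdiv := Int.emod_add_mul_ediv (SRF.ord O.1 X) p
    have hmod0 := Int.emod_nonneg (SRF.ord O.1 X) hp'.ne'
    have hmod1 := Int.emod_lt_of_pos (SRF.ord O.1 X) hp'
    rw [← hm] at hdiv
    have hY0 : Y ≠ 0 := mul_ne_zero (pow_ne_zero _ hπm) hX0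
    have hYO : Y ∈ O.1 := by
      rw [O.isOrd.mem _ hY0, hvY]; linarith
    have hφY : φ Y = (π ^ (-m)) ^ p * φ X := hφ _ _
    have hφY0 : φ Y ≠ 0 := by
      rw [hφY]; exact mul_ne_zero (pow_ne_zero _ hπm) hX
    have h1 := hO Y hYO hφY0
    have h2 : SRF.ord O.1 (Δ * φ Y) = SRF.ord O.1 (Δ * φ X) - p * m := by
      rw [hφY, show Δ * ((π ^ (-m)) ^ p * φ X) = (π ^ (-m)) ^ p * (Δ * φ X) by ring,
        O.isOrd.mul _ _ (pow_ne_zero _ hπm) (mul_ne_zero hΔ hX), O.isOrd.pow hπm,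
        CPT.BND_.ord_zpow O hπ0, hπ]
      ring
    generalize hpm : (p : ℤ) * m = pm at hdiv h2
    omega
  · intro h0
    exact hO X ((O.isOrd.mem _ hX0).2 (by omega)) hX

end BND_

open BND_ in
theorem bnd_proof (hPHI : Stmt_PHI) (hBEZ : CPT.Stmt_BEZ) : Stmt_BND := by
  intro p hpF κ F _ _ _ _ _ x y hS c c₁ w h hw hgen hh0 hh X hXp hbd O
  obtain ⟨Δ, φ, hΔ, hadd, hmul, h1, hφX, hpole⟩ := hPHI p κ F x y hS c w hw hgen X hXp
  have hp : 0 < p := hpF.out.pos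
  set d := Module.finrank (KK κ x y) F with hd
  have hX0 : X ≠ 0 := by
    rintro rfl; exact hXp ⟨0, by simp [hp.ne']⟩
  have hX1 : 1 - X ≠ 0 := by
    intro h0
    have : X = 1 := (sub_eq_zero.1 h0).symm
    exact hXp ⟨1, by rw [this]; simp⟩
  have hφ0 : φ 0 = 0 := by
    have := hadd 0 0
    rw [add_zero] at this
    exact left_eq_add.1 this
  have hφn : φ (-X) = - φ X := by
    have := hadd X (-X)
    rw [add_neg_cancel, hφ0] at this
    exact (neg_eq_of_add_eq_zero_right this.symm).symm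
  have hφ1X : φ (1 - X) = - φ X := by
    rw [sub_eq_add_neg, hadd, h1, zero_add, hφn]
  -- the function Q
  set Q : F := h ^ p * (Δ * φ X) * (X * (1 - X))⁻¹ with hQ
  have hΔφ : Δ * φ X ≠ 0 := mul_ne_zero hΔ hφX
  have hXX : X * (1 - X) ≠ 0 := mul_ne_zero hX0 hX1
  have hhp : h ^ p ≠ 0 := pow_ne_zero _ hh0
  have hQ0 : Q ≠ 0 := mul_ne_zero (mul_ne_zero hhp hΔφ) (inv_ne_zero hXX)
  have hvQ : ∀ O : SRF.PP κ x y, SRF.ord O.1 Q =
      p * SRF.ord O.1 h + SRF.ord O.1 (Δ * φ X) - SRF.ord O.1 X - SRF.ord O.1 (1 - X) := by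
    intro O
    rw [hQ, O.isOrd.mul _ _ (mul_ne_zero hhp hΔφ) (inv_ne_zero hXX), O.isOrd.mul _ _ hhp hΔφ,
      O.isOrd.inv hXX, O.isOrd.mul _ _ hX0 hX1, O.isOrd.pow hh0]
    ring
  have hHnn : ∀ O : SRF.PP κ x y, 0 ≤ SRF.H κ x y O := fun O => le_max_left _ _
  have key : ∀ O : SRF.PP κ x y,
      max 0 (- SRF.ord O.1 X) ≤ SRF.ord O.1 Q + (p * c₁ + p * c * d) * SRF.H κ x y O := by
    intro O
    have hhO : - (c₁ * SRF.H κ x y O) ≤ SRF.ord O.1 h := hh.resolve_left hh0 O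
    have hest := local_est O p hp (p * c * d * SRF.H κ x y O) Δ φ hΔ hmul (hpole O) X hX0 hφX
    have hest1 := local_est O p hp (p * c * d * SRF.H κ x y O) Δ φ hΔ hmul (hpole O) (1 - X) hX1
      (by rw [hφ1X]; exact neg_ne_zero.2 hφX)
    rw [hφ1X, mul_neg, ord_neg O hΔφ] at hest1
    have hb := hbd O
    rw [hvQ O]
    have hone : SRF.ord O.1 (1 : F) = 0 := O.isOrd.one
    have hnX : SRF.ord O.1 (-X) = SRF.ord O.1 X := ord_neg O hX0
    have e1 : min 0 (SRF.ord O.1 X) ≤ SRF.ord O.1 (1 - X) := by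
      have := O.isOrd.add (f := 1) (g := -X) one_ne_zero (neg_ne_zero.2 hX0)
        (by rwa [← sub_eq_add_neg])
      rwa [hone, hnX, ← sub_eq_add_neg] at this
    have e2 : min (SRF.ord O.1 (1 - X)) (SRF.ord O.1 X) ≤ 0 := by
      have := O.isOrd.add (f := 1 - X) (g := X) hX1 hX0 (by simp)
      rwa [sub_add_cancel, hone] at this
    have e3 : min 0 (SRF.ord O.1 (1 - X)) ≤ SRF.ord O.1 X := by
      have h5 : (1 : F) + -(1 - X) = X := by ring
      have := O.isOrd.add (f := 1) (g := -(1 - X)) one_ne_zero (neg_ne_zero.2 hX1)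
        (by rw [h5]; exact hX0)
      rwa [hone, ord_neg O hX1, h5] at this
    have hp1 : (1 : ℤ) ≤ p := by exact_mod_cast hp
    -- `p * (ord h + c₁ H) ≥ 0`, and `≥ p` at the special points
    have hg0 : 0 ≤ (p : ℤ) * SRF.ord O.1 h + p * c₁ * SRF.H κ x y O := by
      have h6 : 0 ≤ SRF.ord O.1 h + c₁ * SRF.H κ x y O := by linarith
      have h7 := mul_nonneg (by linarith : (0 : ℤ) ≤ p) h6
      nlinarith
    have hg1 : (SRF.ord O.1 X ≠ 0 ∨ SRF.ord O.1 (1 - X) ≠ 0) →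
        (p : ℤ) ≤ (p : ℤ) * SRF.ord O.1 h + p * c₁ * SRF.H κ x y O := by
      intro h8
      have h9 := hb h8
      have h10 := mul_le_mul_of_nonneg_left h9 (by linarith : (0 : ℤ) ≤ p)
      nlinarith
    have expand : (p * c₁ + p * c * d : ℤ) * SRF.H κ x y O =
        p * c₁ * SRF.H κ x y O + p * c * d * SRF.H κ x y O := by ring
    rw [expand]
    obtain ⟨a1, a2⟩ := hest
    obtain ⟨b1, b2⟩ := hest1
    generalize (p : ℤ) * c * d * SRF.H κ x y O = C at *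
    generalize (p : ℤ) * c₁ * SRF.H κ x y O = C₁ at *
    generalize (p : ℤ) * SRF.ord O.1 h = ph at *
    clear hhO hb expand
    rcases lt_trichotomy (SRF.ord O.1 X) 0 with hlt | heq | hgt
    · have hb1 := hg1 (Or.inl (by omega))
      omega
    · rcases eq_or_ne (SRF.ord O.1 (1 - X)) 0 with hz | hz
      · have := a2 heq
        omega
      · have hb1 := hg1 (Or.inr hz)
        omega
    · have hb1 := hg1 (Or.inl (by omega))
      omega
  have hQL : Q ∈ SRF.L κ x y (fun O => ((p * c₁ + p * c * d : ℕ) : ℤ) * SRF.H κ x y O) := by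
    right
    intro O
    have := (le_max_left _ _).trans (key O)
    push_cast
    linarith
  have hfin := hBEZ κ F x y hS (p * c₁ + p * c * d) Q hQ0 hQL O
  have := (le_max_right _ _).trans (key O)
  push_cast at hfin
  rw [← hd] at hfin
  linarith

end Pool.Agent.CPU
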