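import Pool.Agent.CPU.StmtsF

set_option autoImplicit false

noncomputable section

namespace Pool.Agent.CPU

open Pool.Agent Pool.Agent.CPT

namespace CPF_

theorem e1 : cr 0 1 2 3 - cr 0 1 2 4 = cr 1 4 3 2 := by
  funext a b
  revert a b
  decide

theorem e2 : cr 0 3 2 1 - cr 0 4 2 1 = cr 0 3 4 1 := by
  funext a b
  revert a b
  decide

theorem sg_ne {K : Type} [Field K] {s : K} (h : Sg s) : s ≠ 0 := by
  rcases h with rfl | rfl
  · exact one_ne_zero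
  · exact neg_ne_zero.2 one_ne_zero

theorem sg_div {K : Type} [Field K] {s t : K} (hs : Sg s) (ht : Sg t) : Sg (s / t) := by
  rcases hs with rfl | rfl <;> rcases ht with rfl | rfl <;> simp [Sg]

theorem sg_const {κ F : Type} [Field κ] [Field F] [Algebra κ F] {s : F} (hs : Sg s) :
    ∃ c : κ, c ≠ 0 ∧ algebraMap κ F c = s := by
  rcases hs with rfl | rfl
  · exact ⟨1, one_ne_zero, map_one _⟩
  · exact ⟨-1, neg_ne_zero.2 one_ne_zero, by rw [map_neg, map_one]⟩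

theorem ord_sg {κ F : Type} [Field κ] [Field F] [Algebra κ F] {x y : F} (O : SRF.PP κ x y)
    {s f : F} (hs : Sg s) (hf : f ≠ 0) : SRF.ord O.1 (s * f) = SRF.ord O.1 f := by
  obtain ⟨c, hc, rfl⟩ := sg_const (κ := κ) hs
  rw [O.isOrd.mul _ _ (by rw [Ne, map_eq_zero]; exact hc) hf, SRF.ord_const κ x y O c hc, zero_add]

end CPF_

open CPF_ in
theorem cpf_proof (hCPL : Stmt_CPL) : Stmt_CPF := by
  intro p _ ι _ lab r b d c c₁ hlab hr
  obtain ⟨K, hK⟩ := hCPL p ι lab r b d c c₁ hlab hr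
  refine ⟨K, ?_⟩
  intro κ F _ _ _ _ _ x y hs hd w h hw hgen hh0 hh es hcp hvan
  obtain ⟨X, hX, hnc, hord⟩ := hK κ F x y hs hd w h hw hgen hh0 hh es hcp hvan
  have hne := hX.ne
  have hm : IsMul X := hX.isMul
  obtain ⟨s, t, hs1, ht1, hst⟩ := hX.plu 0 1 2 3 (by decide)
  obtain ⟨s', t', hs2, ht2, hst'⟩ := hX.plu 0 1 2 4 (by decide)
  have q1 : s * X (cr 0 1 2 3) / (s' * X (cr 0 1 2 4)) = (s / s') * X (cr 1 4 3 2) := by
    rw [mul_div_mul_comm, ← hm.sub (Lam_cr _ _ _ _ (by decide)) (Lam_cr _ _ _ _ (by decide)), e1]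
  have p1 : 1 - s * X (cr 0 1 2 3) = t * X (cr 0 3 2 1) := by
    rw [← hst]; ring
  have p2 : 1 - s' * X (cr 0 1 2 4) = t' * X (cr 0 4 2 1) := by
    rw [← hst']; ring
  have q2 : (1 - s * X (cr 0 1 2 3)) / (1 - s' * X (cr 0 1 2 4)) = (t / t') * X (cr 0 3 4 1) := by
    rw [p1, p2, mul_div_mul_comm,
      ← hm.sub (Lam_cr _ _ _ _ (by decide)) (Lam_cr _ _ _ _ (by decide)), e2]
  have ncs : ∀ (u : F), Sg u → ∀ i j k l, Dist i j k l → ∀ c : κ,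
      u * X (cr i j k l) ≠ algebraMap κ F c := by
    intro u hu i j k l hd c h1
    obtain ⟨e, he, rfl⟩ := sg_const (κ := κ) hu
    refine hnc i j k l hd (e⁻¹ * c) ?_
    rw [map_mul, map_inv₀, ← h1, inv_mul_cancel_left₀ (by rw [Ne, map_eq_zero]; exact he)]
  have key : ∀ (u : F), Sg u → ∀ i j k l, Dist i j k l → ∀ O : SRF.PP κ x y,
      (SRF.ord O.1 (u * X (cr i j k l)) < 0 →
        ∃ i', es i' O ≠ 0 ∧ (SameP (lab i') (i, k) ∨ SameP (lab i') (j, l))) ∧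
      - (K : ℤ) ≤ SRF.ord O.1 (u * X (cr i j k l)) := by
    intro u hu i j k l hd O
    rw [ord_sg O hu (hne _ (Lam_cr _ _ _ _ hd))]
    exact hord i j k l hd O
  refine ⟨s * X (cr 0 1 2 3), s' * X (cr 0 1 2 4), ncs s hs1 0 1 2 3 (by decide),
    mul_ne_zero (sg_ne hs2) (hne _ (Lam_cr _ _ _ _ (by decide))), ?_, ?_⟩
  · intro h1
    exact ncs s' hs2 0 1 2 4 (by decide) 1 (by rw [h1, map_one])
  · intro fu P hfu O
    rw [q1, q2] at hfu
    rcases hfu with ⟨rfl, rfl⟩ | ⟨rfl, rfl⟩ | ⟨rfl, rfl⟩ | ⟨rfl, rfl⟩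
    · obtain ⟨h1, h2⟩ := key s hs1 0 1 2 3 (by decide) O
      refine ⟨h2, fun hneg => ?_⟩
      obtain ⟨i', h3, h4 | h4⟩ := h1 hneg
      · exact ⟨i', h3, _, by simp, h4⟩
      · exact ⟨i', h3, _, by simp, h4⟩
    · obtain ⟨h1, h2⟩ := key s' hs2 0 1 2 4 (by decide) O
      refine ⟨h2, fun hneg => ?_⟩
      obtain ⟨i', h3, h4 | h4⟩ := h1 hneg
      · exact ⟨i', h3, _, by simp, h4⟩
      · exact ⟨i', h3, _, by simp, h4⟩
    · obtain ⟨h1, h2⟩ := key (s / s') (sg_div hs1 hs2) 1 4 3 2 (by decide) O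
      refine ⟨h2, fun hneg => ?_⟩
      obtain ⟨i', h3, h4 | h4⟩ := h1 hneg
      · exact ⟨i', h3, (1, 3), by simp, h4⟩
      · refine ⟨i', h3, (2, 4), by simp, ?_⟩
        rcases h4 with ⟨h5, h6⟩ | ⟨h5, h6⟩
        · exact Or.inr ⟨h5, h6⟩
        · exact Or.inl ⟨h5, h6⟩
    · obtain ⟨h1, h2⟩ := key (t / t') (sg_div ht1 ht2) 0 3 4 1 (by decide) O
      refine ⟨h2, fun hneg => ?_⟩
      obtain ⟨i', h3, h4 | h4⟩ := h1 hneg
      · exact ⟨i', h3, (0, 4), by simp, h4⟩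
      · refine ⟨i', h3, (1, 3), by simp, ?_⟩
        rcases h4 with ⟨h5, h6⟩ | ⟨h5, h6⟩
        · exact Or.inr ⟨h5, h6⟩
        · exact Or.inl ⟨h5, h6⟩

end Pool.Agent.CPU
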