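import Pool.Agent.CPU.StmtsF
import Pool.Agent.CPT.Basic

/-!
# The closed point theorem with the zeros of the functions, for all primes
-/

set_option autoImplicit false

noncomputable section

namespace Pool.Agent.CPU

open Pool.Agent Pool.Agent.CPT

/-- CPL with the zeros of `X`. -/
def Stmt_CPP : Prop := ∀ (p : ℕ) [Fact p.Prime] (ι : Type) [Fintype ι] (lab : ι → Fin 5 × Fin 5)
  (r : ι → ℝ) (b d c c₁ : ℕ), (∀ i, (lab i).1 ≠ (lab i).2) → (∀ i, 0 < r i) → ∃ K : ℕ,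
  ∀ (κ F : Type) [Field κ] [IsAlgClosed κ] [CharP κ p] [Field F] [Algebra κ F] (x y : F),
  SRF.IsSurf κ x y → Module.finrank (KK κ x y) F ≤ d → ∀ w h : F,
  w ∈ SRF.L κ x y (fun O => c * SRF.H κ x y O) → IntermediateField.adjoin (KK κ x y) {w} = ⊤ →
  h ≠ 0 → h ∈ SRF.L κ x y (fun O => c₁ * SRF.H κ x y O) →
  ∀ (es : ι → SRF.PP κ x y → ℤ), CP x y lab r b es →
  (∀ i O, es i O ≠ 0 → 1 ≤ SRF.ord O.1 h + c₁ * SRF.H κ x y O) →
  ∃ X : (Fin 5 → Fin 5 → ℤ) → F, Out X ∧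
    (∀ i j k l, Dist i j k l → ∀ O : SRF.PP κ x y, ∀ i', es i' O ≠ 0 →
      SameP (lab i') (i, j) → 0 < SRF.ord O.1 (X (cr i j k l))) ∧
    ∀ i j k l, Dist i j k l → ∀ O : SRF.PP κ x y,
      (SRF.ord O.1 (X (cr i j k l)) < 0 →
        ∃ i', es i' O ≠ 0 ∧ (SameP (lab i') (i, k) ∨ SameP (lab i') (j, l))) ∧
      - (K : ℤ) ≤ SRF.ord O.1 (X (cr i j k l))

namespace CPP_

theorem cr_apply {i j k l : Fin 5} (h : Dist i j k l) : cr i j k l i j = 1 := by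
  revert h
  revert i j k l
  decide

end CPP_

theorem cpp_proof (hPTS : CPT.Stmt_PTS) (hEND1 : Stmt_END1) : Stmt_CPP := by
  intro p _ ι _ lab r b d c c₁ hlab hr
  obtain ⟨B, hB⟩ := hPTS ι lab r b hlab hr
  refine ⟨B * (d ^ 2 * (p * c₁ + p * c * d)), ?_⟩
  intro κ F _ _ _ _ _ x y hs hd w h hw hgen hh0 hh es hcp hvan
  obtain ⟨I, hI, hrat⟩ := hB κ F x y hs es hcp
  obtain ⟨X, h1, -, ⟨r', s', hr', hs', hpr⟩, h5⟩ :=
    hEND1 p κ F x y hs I c c₁ B w h hw hgen hh0 hh (by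
    intro p q O hO
    rw [hI] at hO
    obtain ⟨i, hi, -⟩ := hO
    exact hvan i O hi) hrat
  refine ⟨X, h1, ?_, ?_⟩
  · intro i j k l hd' O i' hi' hsame
    have hO : O ∈ I.D i j := by
      rw [hI]
      exact ⟨i', hi', hsame⟩
    have h6 := hpr _ (Lam_cr i j k l hd') O
    rw [I.ord_D _ (Lam_cr i j k l hd') i j O hO, CPP_.cr_apply hd', one_mul] at h6
    have h7 := I.m_pos i j O hO
    have h8 : 0 < (r' : ℤ) * SRF.ord O.1 (X (cr i j k l)) := by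
      rw [h6]
      exact mul_pos (by exact_mod_cast hs') h7
    exact (mul_pos_iff_of_pos_left (by exact_mod_cast hr')).mp h8
  intro i j k l hd' O
  obtain ⟨h6, h7⟩ := h5 i j k l hd' O
  refine ⟨fun hneg => ?_, le_trans ?_ h7⟩
  · rcases h6 hneg with h8 | h8
    · rw [hI] at h8
      obtain ⟨i', h9, h10⟩ := h8
      exact ⟨i', h9, Or.inl h10⟩
    · rw [hI] at h8
      obtain ⟨i', h9, h10⟩ := h8
      exact ⟨i', h9, Or.inr h10⟩
  · rw [neg_le_neg_iff]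
    have hn : B * (Module.finrank (KK κ x y) F ^ 2 *
        (p * c₁ + p * c * Module.finrank (KK κ x y) F)) ≤ B * (d ^ 2 * (p * c₁ + p * c * d)) := by
      gcongr
    exact_mod_cast hn

end Pool.Agent.CPU
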