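import Pool.Agent.CPU.Stmts
import Pool.Agent.CPT.DIV

/-!
Module DIV of squad CPU: p-divisibility passes from one pencil to another.
-/

set_option autoImplicit false

namespace Pool.Agent.CPU

open Pool.Agent Pool.Agent.CPT

open Pool.Agent.CPT.DIV_ in
theorem div_proof (hHRZ : CPT.Stmt_HRZ) (hSWP : CPT.Stmt_SWP) : Stmt_DIV := by
  intro p hp κ K _ _ _ _ _ S d i j ⟨e, he⟩ N n hn ⟨c, hc, hcn⟩
  have hi : ¬ d.Ver i e := hHRZ κ K S d i j e he
  have hj : ¬ d.Ver j e := hHRZ κ K S d j i e (by rwa [d.D_symm])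
  have hLj : ∀ n, LamI i n → LamI j (rel (Equiv.swap i j) n) := by
    intro n hn
    exact LamI_rel _ (by rw [Equiv.swap_apply_right]; exact hn)
  have key : ∀ x, x ∈ d.kf i → (x ∈ d.kf i ∧ ∃ x' ∈ d.kf j, e.M (x - x')) := by
    intro x hx
    unfold Dat.kf at hx
    induction hx using IntermediateField.adjoin_induction with
    | mem x hx =>
      obtain ⟨n, hn, rfl⟩ := hx
      refine ⟨d.a_mem_kf hn, ?_⟩
      obtain ⟨c, _, hc⟩ := hSWP κ K S d i j n hn e he
      exact ⟨_, (d.kf j).mul_mem ((d.kf j).algebraMap_mem c) (d.a_mem_kf (hLj n hn)), hc⟩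
    | algebraMap x =>
      refine ⟨(d.kf i).algebraMap_mem x, algebraMap κ K x, (d.kf j).algebraMap_mem x, ?_⟩
      rw [sub_self]
      exact e.M_zero
    | add x y _ _ hx hy =>
      obtain ⟨hx0, x', hx', hxM⟩ := hx
      obtain ⟨hy0, y', hy', hyM⟩ := hy
      refine ⟨(d.kf i).add_mem hx0 hy0, x' + y', (d.kf j).add_mem hx' hy', ?_⟩
      rw [add_sub_add_comm]
      exact DV.M_add hxM hyM
    | inv x _ hx =>
      obtain ⟨hx0, x', hx', hxM⟩ := hx
      refine ⟨(d.kf i).inv_mem hx0, x'⁻¹, (d.kf j).inv_mem hx', ?_⟩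
      by_cases h0 : x = 0
      · have h1 : x' = 0 := by
          by_contra h1
          rw [h0, zero_sub] at hxM
          have := DV.M_neg hxM
          rw [neg_neg] at this
          exact not_M hj hx' h1 this
        rw [h0, h1, sub_self]
        exact e.M_zero
      · have h1 : x' ≠ 0 := by
          intro h1
          rw [h1, sub_zero] at hxM
          exact not_M hi hx0 h0 hxM
        have h2 : x⁻¹ - x'⁻¹ = (x' - x) * (x⁻¹ * x'⁻¹) := by
          field_simp
        rw [h2]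
        exact DV.M_mul (DV.M_sub_comm hxM)
          (DV.O_mul (O_of hi ((d.kf i).inv_mem hx0)) (O_of hj ((d.kf j).inv_mem hx')))
    | mul x y _ _ hx hy =>
      obtain ⟨hx0, x', hx', hxM⟩ := hx
      obtain ⟨hy0, y', hy', hyM⟩ := hy
      refine ⟨(d.kf i).mul_mem hx0 hy0, x' * y', (d.kf j).mul_mem hx' hy', ?_⟩
      have h2 : x * y - x' * y' = x * (y - y') + (x - x') * y' := by ring
      rw [h2]
      exact DV.M_add (DV.M_mul' (O_of hi hx0) hyM) (DV.M_mul hxM (O_of hj hy'))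
  obtain ⟨_, c', hc', hcM⟩ := key c hc
  obtain ⟨c₀, hc₀, hM₀⟩ := hSWP κ K S d i j n hn e he
  have : CharP K p := charP_of_injective_algebraMap (algebraMap κ K).injective p
  have hp0 : 0 < p := hp.out.pos
  have h1 : e.M (c ^ p ^ N - c' ^ p ^ N) := by
    rw [← sub_pow_char_pow]
    exact M_pow hcM (pow_pos hp0 N)
  rw [hcn] at h1
  have h2 : e.M (c' ^ p ^ N - algebraMap κ K c₀ * d.a (rel (Equiv.swap i j) n)) := by
    have h3 := DV.M_sub hM₀ h1
    have h4 : d.a n - algebraMap κ K c₀ * d.a (rel (Equiv.swap i j) n) - (d.a n - c' ^ p ^ N) =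
        c' ^ p ^ N - algebraMap κ K c₀ * d.a (rel (Equiv.swap i j) n) := by ring
    rwa [h4] at h3
  have h3 : c' ^ p ^ N = algebraMap κ K c₀ * d.a (rel (Equiv.swap i j) n) := by
    by_contra hne
    refine not_M hj ?_ (sub_ne_zero.2 hne) h2
    exact (d.kf j).sub_mem (pow_mem hc' _)
      ((d.kf j).mul_mem ((d.kf j).algebraMap_mem c₀) (d.a_mem_kf (hLj n hn)))
  obtain ⟨γ, hγ⟩ := IsAlgClosed.exists_pow_nat_eq c₀ (pow_pos hp0 N : 0 < p ^ N)
  have hγK : algebraMap κ K γ ^ p ^ N = algebraMap κ K c₀ := by rw [← map_pow, hγ]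
  have hc₀K : algebraMap κ K c₀ ≠ 0 := fun h => hc₀ ((map_eq_zero (algebraMap κ K)).1 h)
  refine ⟨c' * (algebraMap κ K γ)⁻¹, (d.kf j).mul_mem hc' ((d.kf j).inv_mem ((d.kf j).algebraMap_mem γ)), ?_⟩
  rw [mul_pow, inv_pow, hγK, h3, mul_comm (algebraMap κ K c₀), mul_assoc, mul_inv_cancel₀ hc₀K, mul_one]

end Pool.Agent.CPU
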