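import Pool.Agent.CPU.Stmts

/-!
# FIN: the closed point theorem
-/

set_option autoImplicit false

namespace Pool.Agent.CPU

open Pool.Agent Pool.Agent.CPT

namespace FIN_

variable {κ K : Type} [Field κ] [Field K] [Algebra κ K]

/-- the value of a multiplicative function on `Lam` -/
theorem v_basis (e : DV κ K) {X : (Fin 5 → Fin 5 → ℤ) → K} (h : IsMul X)
    {n : Fin 5 → Fin 5 → ℤ} (hn : Lam n) :
    e.v (X n) = n 0 3 * e.v (X (cr 0 3 1 2)) + n 1 3 * e.v (X (cr 0 2 1 3))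
      + (n 0 4 + n 3 4) * e.v (X (cr 0 4 1 2)) + n 1 4 * e.v (X (cr 0 2 1 4))
      + n 3 4 * e.v (X (cr 0 2 4 3)) := by
  have c1 := h.ne _ (Lam_cr 0 3 1 2 (by decide))
  have c2 := h.ne _ (Lam_cr 0 2 1 3 (by decide))
  have c3 := h.ne _ (Lam_cr 0 4 1 2 (by decide))
  have c4 := h.ne _ (Lam_cr 0 2 1 4 (by decide))
  have c5 := h.ne _ (Lam_cr 0 2 4 3 (by decide))
  rw [h.basis hn]
  have d1 := zpow_ne_zero (n 0 3) c1
  have d2 := zpow_ne_zero (n 1 3) c2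
  have d3 := zpow_ne_zero (n 0 4 + n 3 4) c3
  have d4 := zpow_ne_zero (n 1 4) c4
  have d5 := zpow_ne_zero (n 3 4) c5
  rw [e.v_mul (mul_ne_zero (mul_ne_zero (mul_ne_zero d1 d2) d3) d4) d5,
    e.v_mul (mul_ne_zero (mul_ne_zero d1 d2) d3) d4,
    e.v_mul (mul_ne_zero d1 d2) d3, e.v_mul d1 d2,
    e.v_zpow c1, e.v_zpow c2, e.v_zpow c3, e.v_zpow c4, e.v_zpow c5]

end FIN_

theorem fin_proof (hNRM : Stmt_NRM) (hSLP : Stmt_SLP) (hPRO : Stmt_PRO) : Stmt_FIN := by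
  intro p hp κ K _ _ _ _ _ S d hne
  obtain ⟨d', N, hNS, _hD, ha⟩ := hNRM p κ K S d hne
  obtain ⟨X, hX⟩ := hSLP p κ K S d' hne hNS
  obtain ⟨r, s, hr, hs, hcr⟩ := hPRO κ K S d' X hne hX
  have hO : Out X := hX.toOut
  refine ⟨X, hO, fun i j k l h c => hX.ncon i j k l h c,
    r * p ^ N, s, Nat.mul_pos hr (pow_pos (Fact.out : p.Prime).pos N), hs, ?_⟩
  intro n hn e he
  have key : (r : ℤ) * e.v (X n) = (s : ℤ) * e.v (d'.a n) := by
    rw [FIN_.v_basis e hO.isMul hn, FIN_.v_basis e d'.isMul hn]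
    have k1 := hcr 0 3 1 2 (by decide) e he
    have k2 := hcr 0 2 1 3 (by decide) e he
    have k3 := hcr 0 4 1 2 (by decide) e he
    have k4 := hcr 0 2 1 4 (by decide) e he
    have k5 := hcr 0 2 4 3 (by decide) e he
    linear_combination (n 0 3) * k1 + (n 1 3) * k2 + (n 0 4 + n 3 4) * k3 + (n 1 4) * k4
      + (n 3 4) * k5
  have h2 : e.v (d.a n) = (p : ℤ) ^ N * e.v (d'.a n) := by
    rw [← ha n hn, e.v_pow (d'.a_ne n hn)]
    push_cast; ring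
  rw [h2]
  push_cast
  linear_combination ((p : ℤ) ^ N) * key

end Pool.Agent.CPU
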