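import Pool.Agent.CPU.Stmts

set_option autoImplicit false

/-!
# CPU, module GEX: logarithmic derivatives in function fields in one variable
-/

namespace Pool.Agent.CPU

open Pool.Agent.CPT

namespace GEX_

section
variable {K : Type} [Field K] {L : Subfield K} {D : K → K}

theorem der_one (hD : DerOn L D) : D 1 = 0 := by
  have h := hD.mul 1 L.one_mem 1 L.one_mem
  rw [mul_one, one_mul] at h
  have h1 : D 1 + 0 = D 1 + D 1 := by rw [add_zero]; exact h
  exact (add_left_cancel h1).symm

theorem der_zero (hD : DerOn L D) : D 0 = 0 := by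
  have h := hD.add 0 L.zero_mem 0 L.zero_mem
  rw [add_zero] at h
  have h1 : D 0 + 0 = D 0 + D 0 := by rw [add_zero]; exact h
  exact (add_left_cancel h1).symm

theorem der_pow (hD : DerOn L D) {f : K} (hf : f ∈ L) (n : ℕ) :
    D (f ^ n) = n * f ^ (n - 1) * D f := by
  induction n with
  | zero => simp [der_one hD]
  | succ n ih =>
    rw [pow_succ, hD.mul _ (L.pow_mem hf n) _ hf, ih]
    cases n with
    | zero => simp
    | succ n =>
      simp only [Nat.add_sub_cancel]
      push_cast
      ring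

theorem der_sum (hD : DerOn L D) {ι : Type} (s : Finset ι) (f : ι → K) (hf : ∀ i ∈ s, f i ∈ L) :
    D (∑ i ∈ s, f i) = ∑ i ∈ s, D (f i) := by
  classical
  induction s using Finset.induction_on with
  | empty => simpa using der_zero hD
  | insert a s ha ih =>
    rw [Finset.sum_insert ha, Finset.sum_insert ha,
      hD.add _ (hf a (Finset.mem_insert_self a s)) _
        (L.sum_mem fun i hi => hf i (Finset.mem_insert_of_mem hi)),
      ih fun i hi => hf i (Finset.mem_insert_of_mem hi)]

theorem der_p {p : ℕ} [CharP K p] (hD : DerOn L D) {f : K} (hf : f ∈ L) : D (f ^ p) = 0 := by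
  rw [der_pow hD hf, CharP.cast_eq_zero, zero_mul, zero_mul]

end

theorem natCast_pow (p : ℕ) [Fact p.Prime] {K : Type} [Field K] [CharP K p] (n : ℕ) :
    ((n : K)) ^ p = n := by
  have h := map_natCast (frobenius K p) n
  rwa [frobenius_def] at h

end GEX_

open GEX_ in
theorem gex_proof (hPIN : Stmt_PIN) : Stmt_GEX := by
  intro p _ K _ _ F b b' hb hb' hb0 hbn hPB
  obtain ⟨c, hc, hcb⟩ := hPB b' hb'
  have hp : p.Prime := Fact.out
  have hbne : b ≠ 0 := by
    rintro rfl
    exact hbn ⟨0, F.zero_mem, zero_pow hp.ne_zero⟩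
  have hcj : ∃ j < p, c j ≠ 0 := by
    by_contra h
    push Not at h
    apply hb0
    rw [hcb]
    refine Finset.sum_eq_zero fun j hj => ?_
    rw [h j (Finset.mem_range.1 hj), zero_pow hp.ne_zero, zero_mul]
  set s : K := ∑ j ∈ Finset.range p, (j : K) * (c j ^ p * b ^ j) with hs
  have hsF : s ∈ F := F.sum_mem fun j _ =>
    F.mul_mem (natCast_mem F j) (F.mul_mem (F.pow_mem (hc j) p) (F.pow_mem hb j))
  have hsb : s = s / b' * b' := by field_simp
  -- the coefficients of `s - z b'`
  have hco : ∀ z ∈ F, s / b' = z ^ p → ∀ j < p, ((j : K) - z) * c j = 0 := by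
    intro z hz hg
    refine hPIN p K F b hb hbn (fun j => ((j : K) - z) * c j)
      (fun j => F.mul_mem (F.sub_mem (natCast_mem F j) hz) (hc j)) ?_
    have h1 : s - z ^ p * b' = 0 := by rw [← hg, hsb.symm, sub_self]
    rw [← h1, hs, hcb, Finset.mul_sum, ← Finset.sum_sub_distrib]
    refine Finset.sum_congr rfl fun j _ => ?_
    rw [mul_pow, sub_pow_char, natCast_pow]
    ring
  refine ⟨s / b', F.div_mem hsF hb', ?_, ?_, ?_⟩
  · intro L hFL D hD
    have h1 : D b' = ∑ j ∈ Finset.range p, c j ^ p * ((j : K) * b ^ (j - 1) * D b) := by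
      conv_lhs => rw [hcb]
      rw [der_sum hD _ _ fun j _ => L.mul_mem (L.pow_mem (hFL (hc j)) p) (L.pow_mem (hFL hb) j)]
      refine Finset.sum_congr rfl fun j _ => ?_
      rw [hD.mul _ (L.pow_mem (hFL (hc j)) p) _ (L.pow_mem (hFL hb) j), der_p hD (hFL (hc j)),
        der_pow hD (hFL hb), mul_zero, add_zero]
    rw [h1, ← hsb, hs, Finset.mul_sum, Finset.sum_mul]
    refine Finset.sum_congr rfl fun j _ => ?_
    cases j with
    | zero => simp
    | succ j =>
      simp only [Nat.add_sub_cancel]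
      ring
  · intro t ht
    have h1 := hco (t : K) (natCast_mem F t) (by rw [ht, natCast_pow])
    obtain ⟨j, hj, hcj⟩ := hcj
    have h2 : (j : K) = (t : K) := by
      have := (mul_eq_zero.1 (h1 j hj)).resolve_right hcj
      exact sub_eq_zero.1 this
    have h3 : ∀ i ∈ Finset.range p, i ≠ j → c i ^ p * b ^ i = 0 := by
      intro i hi hij
      have hi' := Finset.mem_range.1 hi
      have h4 : c i = 0 := by
        refine (mul_eq_zero.1 (h1 i hi')).resolve_left fun h5 => hij ?_
        have h6 : (i : K) = (j : K) := by rw [h2]; exact sub_eq_zero.1 h5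
        have h7 : i % p = j % p := (CharP.natCast_eq_natCast K p).1 h6
        rwa [Nat.mod_eq_of_lt hi', Nat.mod_eq_of_lt hj] at h7
      rw [h4, zero_pow hp.ne_zero, zero_mul]
    have h4 : b' = c j ^ p * b ^ j := by
      rw [hcb]
      exact Finset.sum_eq_single_of_mem j (Finset.mem_range.2 hj) h3
    have h5 : j = t % p := by
      have h7 : j % p = t % p := (CharP.natCast_eq_natCast K p).1 h2
      rwa [Nat.mod_eq_of_lt hj] at h7
    refine ⟨c j / b ^ (t / p), F.div_mem (hc j) (F.pow_mem hb _), ?_⟩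
    rw [h4, div_pow, ← pow_mul, div_mul_eq_mul_div, eq_div_iff (pow_ne_zero _ hbne), mul_assoc,
      ← pow_add]
    congr 2
    rw [h5]
    have := Nat.mod_add_div t p
    rw [mul_comm (t / p) p]
    exact this
  · intro z hz hg
    obtain ⟨j, hj, hcj⟩ := hcj
    have h1 := (mul_eq_zero.1 (hco z hz hg j hj)).resolve_right hcj
    refine ⟨j, ?_⟩
    rw [hg, ← sub_eq_zero.1 h1, natCast_pow]

end Pool.Agent.CPU
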