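import Pool.Agent.CPU.Stmts
import Pool.Agent.CPT.IND
import Pool.Agent.CPU.GEX

set_option autoImplicit false

/-!
# CPU, module IND: two pencils are independent
-/

noncomputable section

namespace Pool.Agent.CPU

open Pool.Agent.CPT

namespace IND_

section
variable {κ K : Type} [Field κ] [Field K] [Algebra κ K]

/-- The elements of `L` whose differential lies in a subspace. -/
def kerD (L : IntermediateField κ K) {M : Type} [AddCommGroup M] [Module L M] [Module κ M]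
    [IsScalarTower κ L M] (D : Derivation κ L M) (W : Submodule L M) : IntermediateField κ K where
  carrier := {x | ∃ h : x ∈ L, D ⟨x, h⟩ ∈ W}
  mul_mem' := by
    rintro x y ⟨hx, h1⟩ ⟨hy, h2⟩
    refine ⟨mul_mem hx hy, ?_⟩
    have h3 : (⟨x * y, mul_mem hx hy⟩ : L) = ⟨x, hx⟩ * ⟨y, hy⟩ := rfl
    rw [h3, Derivation.leibniz]
    exact W.add_mem (W.smul_mem _ h2) (W.smul_mem _ h1)
  one_mem' := by
    refine ⟨one_mem _, ?_⟩
    have h3 : (⟨1, one_mem _⟩ : L) = 1 := rfl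
    rw [h3, D.map_one_eq_zero]
    exact W.zero_mem
  add_mem' := by
    rintro x y ⟨hx, h1⟩ ⟨hy, h2⟩
    refine ⟨add_mem hx hy, ?_⟩
    have h3 : (⟨x + y, add_mem hx hy⟩ : L) = ⟨x, hx⟩ + ⟨y, hy⟩ := rfl
    rw [h3, map_add]
    exact W.add_mem h1 h2
  zero_mem' := by
    refine ⟨zero_mem _, ?_⟩
    have h3 : (⟨0, zero_mem _⟩ : L) = 0 := rfl
    rw [h3, map_zero]
    exact W.zero_mem
  algebraMap_mem' := by
    intro c
    refine ⟨L.algebraMap_mem c, ?_⟩
    have h3 : (⟨algebraMap κ K c, L.algebraMap_mem c⟩ : L) = algebraMap κ L c := rfl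
    rw [h3, D.map_algebraMap]
    exact W.zero_mem
  inv_mem' := by
    rintro x ⟨hx, h1⟩
    refine ⟨inv_mem hx, ?_⟩
    by_cases h0 : x = 0
    · have h3 : (⟨x⁻¹, inv_mem hx⟩ : L) = 0 := by
        apply Subtype.ext
        show x⁻¹ = 0
        rw [h0, inv_zero]
      rw [h3, map_zero]
      exact W.zero_mem
    · have hne : (⟨x, hx⟩ : L) ≠ 0 := fun h => h0 (congrArg Subtype.val h)
      have h3 : (⟨x⁻¹, inv_mem hx⟩ : L) = (⟨x, hx⟩ : L)⁻¹ := rfl
      have h2 : D ((⟨x, hx⟩ : L) * (⟨x, hx⟩ : L)⁻¹) = 0 := by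
        rw [mul_inv_cancel₀ hne]
        exact D.map_one_eq_zero
      rw [Derivation.leibniz] at h2
      have h4 : (⟨x, hx⟩ : L) • D ((⟨x, hx⟩ : L)⁻¹) ∈ W := by
        rw [eq_neg_of_add_eq_zero_left h2]
        exact W.neg_mem (W.smul_mem _ h1)
      rw [h3]
      exact (W.smul_mem_iff hne).1 h4

theorem mem_kerD {L : IntermediateField κ K} {M : Type} [AddCommGroup M] [Module L M] [Module κ M]
    [IsScalarTower κ L M] {D : Derivation κ L M} {W : Submodule L M} {x : K} :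
    x ∈ kerD L D W ↔ ∃ h : x ∈ L, D ⟨x, h⟩ ∈ W := Iff.rfl

/-- a field extension without differentials is algebraic -/
theorem alg_of_zero (k L : Type) [Field k] [Field L] [Algebra k L] [Algebra.EssFiniteType k L]
    (h : ∀ x : L, KaehlerDifferential.D k L x = 0) : Algebra.IsAlgebraic k L := by
  have h0 : ∀ a : Ω[L⁄k], a = 0 := by
    intro a
    have ha : a ∈ Submodule.span L (Set.range (KaehlerDifferential.D k L)) := by
      rw [KaehlerDifferential.span_range_derivation]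
      exact Submodule.mem_top
    have hle : Submodule.span L (Set.range (KaehlerDifferential.D k L)) ≤ ⊥ := by
      rw [Submodule.span_le]
      rintro _ ⟨y, rfl⟩
      exact h y
    exact (Submodule.mem_bot _).1 (hle ha)
  have hU : Algebra.FormallyUnramified k L := ⟨⟨fun a b => by rw [h0 a, h0 b]⟩⟩
  have hS := Algebra.FormallyUnramified.isSeparable k L
  exact ⟨fun x => (hS.isSeparable _ x).isIntegral.isAlgebraic⟩

end

section
variable {κ K : Type} [Field κ] [Field K] [Algebra κ K] {S : Surf κ K}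

/-- the differentials of the units over the constants do not all vanish -/
theorem step1 [IsAlgClosed κ] (hNEM : CPT.Stmt_NEM) (d : Dat S) (hP : ∃ e, e ∈ S.PP) :
    ¬ d.LL ≤ kerD d.LL (KaehlerDifferential.D κ d.LL) ⊥ := by
  intro h
  have hE : Algebra.EssFiniteType κ d.LL :=
    IntermediateField.essFiniteType_iff.2 (CPT.IND_.LL_FG d)
  have halg : Algebra.IsAlgebraic κ d.LL := alg_of_zero κ d.LL fun x => by
    obtain ⟨_, h1⟩ := mem_kerD.1 (h x.2)
    exact (Submodule.mem_bot _).1 h1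
  obtain ⟨e, he⟩ := hNEM κ K S d hP 0 1 (by decide)
  have hL := Lam_cr 0 1 2 3 (by decide)
  have hv : e.v (d.a (cr 0 1 2 3)) = d.w e := by
    rw [d.ord_D _ hL 0 1 e he, CPT.IND_.cr_val 0 1 2 3 (by decide), one_mul]
  obtain ⟨c, hc⟩ := (IsAlgClosed.algebraMap_bijective_of_isIntegral (k := κ)).2
    (⟨d.a (cr 0 1 2 3), d.a_mem_LL hL⟩ : d.LL)
  have hc1 : algebraMap κ K c = d.a (cr 0 1 2 3) := congrArg Subtype.val hc
  have hc0 : c ≠ 0 := by
    rintro rfl
    rw [map_zero] at hc1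
    exact d.a_ne _ hL hc1.symm
  have h2 := e.map_const c hc0
  rw [hc1, hv] at h2
  have := d.w_pos e
  omega

/-- the differential of the units of one pencil do not generate all differentials -/
theorem step2 (hHRZ : CPT.Stmt_HRZ) (hNEM : CPT.Stmt_NEM) [IsAlgClosed κ] (d : Dat S)
    (hP : ∃ e, e ∈ S.PP) (i : Fin 5) (u : K) (hu : u ∈ d.kf i) :
    ¬ d.LL ≤ kerD d.LL (KaehlerDifferential.D κ d.LL)
      (Submodule.span d.LL {KaehlerDifferential.D κ d.LL ⟨u, d.kf_le_LL i hu⟩}) := by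
  intro h
  have hE : Algebra.EssFiniteType κ d.LL :=
    IntermediateField.essFiniteType_iff.2 (CPT.IND_.LL_FG d)
  let _ : Algebra (d.kf i) d.LL := (IntermediateField.inclusion (d.kf_le_LL i)).toAlgebra
  have htow : IsScalarTower κ (d.kf i) d.LL := IsScalarTower.of_algebraMap_eq fun x => rfl
  have htow' : IsScalarTower (d.kf i) d.LL K := IsScalarTower.of_algebraMap_eq fun x => rfl
  have hE' : Algebra.EssFiniteType (d.kf i) d.LL := Algebra.EssFiniteType.of_comp κ (d.kf i) d.LL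
  let D' : Derivation κ d.LL Ω[d.LL⁄(d.kf i)] :=
    (KaehlerDifferential.D (d.kf i) d.LL).restrictScalars κ
  have hu0 : D' ⟨u, d.kf_le_LL i hu⟩ = 0 :=
    (KaehlerDifferential.D (d.kf i) d.LL).map_algebraMap ⟨u, hu⟩
  have halg : Algebra.IsAlgebraic (d.kf i) d.LL := alg_of_zero (d.kf i) d.LL fun x => by
    obtain ⟨_, h1⟩ := mem_kerD.1 (h x.2)
    obtain ⟨c, hc⟩ := Submodule.mem_span_singleton.1 h1
    have h2 := congrArg D'.liftKaehlerDifferential hc
    rw [map_smul, Derivation.liftKaehlerDifferential_comp_D,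
      Derivation.liftKaehlerDifferential_comp_D, hu0, smul_zero] at h2
    exact h2.symm
  obtain ⟨j, hij⟩ : ∃ j, i ≠ j := (by decide : ∀ i : Fin 5, ∃ j, i ≠ j) i
  obtain ⟨k, l, hD⟩ : ∃ k l, Dist i j k l :=
    (by decide : ∀ i j : Fin 5, i ≠ j → ∃ k l, CPT.Dist i j k l) i j hij
  obtain ⟨e, he⟩ := hNEM κ K S d hP i j hij
  have hL := Lam_cr i j k l hD
  apply hHRZ κ K S d i j e he
  refine ⟨d.a (cr i j k l), ?_, d.a_ne _ hL, ?_⟩
  · have h3 : IsAlgebraic (d.kf i) (⟨d.a (cr i j k l), d.a_mem_LL hL⟩ : d.LL) :=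
      halg.isAlgebraic _
    exact h3.algebraMap
  · rw [d.ord_D _ hL i j e he, CPT.IND_.cr_val i j k l hD, one_mul]
    exact (d.w_pos e).ne'

/-- a derivation with values in the field, from a linear functional -/
def DD (L : IntermediateField κ K) (φ : Ω[L⁄κ] →ₗ[L] L) (x : K) : K :=
  open scoped Classical in
  if h : x ∈ L then (φ (KaehlerDifferential.D κ L ⟨x, h⟩) : L) else 0

theorem DD_of (L : IntermediateField κ K) (φ : Ω[L⁄κ] →ₗ[L] L) {x : K} (h : x ∈ L) :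
    DD L φ x = (φ (KaehlerDifferential.D κ L ⟨x, h⟩) : L) := dif_pos h

theorem derOn_DD (L : IntermediateField κ K) (φ : Ω[L⁄κ] →ₗ[L] L) :
    DerOn L.toSubfield (DD L φ) := by
  constructor
  · intro f hf g hg
    have hf' : f ∈ L := hf
    have hg' : g ∈ L := hg
    rw [DD_of L φ hf', DD_of L φ hg', DD_of L φ (add_mem hf' hg')]
    have h1 : (⟨f + g, add_mem hf' hg'⟩ : L) = ⟨f, hf'⟩ + ⟨g, hg'⟩ := rfl
    rw [h1, map_add, map_add]
    rfl
  · intro f hf g hg
    have hf' : f ∈ L := hf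
    have hg' : g ∈ L := hg
    rw [DD_of L φ hf', DD_of L φ hg', DD_of L φ (mul_mem hf' hg')]
    have h1 : (⟨f * g, mul_mem hf' hg'⟩ : L) = ⟨f, hf'⟩ * ⟨g, hg'⟩ := rfl
    rw [h1, Derivation.leibniz, map_add, map_smul, map_smul]
    rfl

theorem exists_functional {L V : Type} [Field L] [AddCommGroup V] [Module L V] (v w : V)
    (h : v ∉ Submodule.span L {w}) : ∃ φ : V →ₗ[L] L, φ v = 1 ∧ φ w = 0 := by
  obtain ⟨f, hf, hf'⟩ := Submodule.exists_dual_map_eq_bot_of_notMem h inferInstance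
  have hw : f w = 0 := by
    have h1 : f w ∈ (Submodule.span L {w}).map f :=
      Submodule.mem_map_of_mem (Submodule.mem_span_singleton_self w)
    rw [hf'] at h1
    exact (Submodule.mem_bot _).1 h1
  refine ⟨(f v)⁻¹ • f, ?_, ?_⟩
  · rw [LinearMap.smul_apply, smul_eq_mul, inv_mul_cancel₀ hf]
  · rw [LinearMap.smul_apply, hw, smul_zero]

end

end IND_

open IND_ in
theorem ind_proof (hPBK : Stmt_PBK) (hGEX : Stmt_GEX) (hHRZ : CPT.Stmt_HRZ)
    (hNEM : CPT.Stmt_NEM) : Stmt_IND := by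
  intro p _ κ K _ _ _ _ _ S d hP
  have hp : p.Prime := Fact.out
  have : CharP K p := charP_of_injective_algebraMap (algebraMap κ K).injective p
  obtain ⟨i, j, k, l, m, hd, n1, n2, n3, n4, hu⟩ := CPT.IND_.exists_not d _ (step1 hNEM d hP)
  have huL : d.a (cr j k l m) ∈ d.LL := d.a_mem_LL (Lam_cr j k l m hd)
  have hui : d.a (cr j k l m) ∈ d.kf i := d.a_mem_kf (LamI_cr i j k l m hd n1 n2 n3 n4)
  obtain ⟨i', j', k', l', m', hd', m1, m2, m3, m4, hu'⟩ :=
    CPT.IND_.exists_not d _ (step2 hHRZ hNEM d hP i _ hui)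
  have hu'L : d.a (cr j' k' l' m') ∈ d.LL := d.a_mem_LL (Lam_cr j' k' l' m' hd')
  have hu'i : d.a (cr j' k' l' m') ∈ d.kf i' := d.a_mem_kf (LamI_cr i' j' k' l' m' hd' m1 m2 m3 m4)
  set u := d.a (cr j k l m) with hudef
  set u' := d.a (cr j' k' l' m') with hu'def
  set v : Ω[d.LL⁄κ] := KaehlerDifferential.D κ d.LL ⟨u, huL⟩ with hv
  set v' : Ω[d.LL⁄κ] := KaehlerDifferential.D κ d.LL ⟨u', hu'L⟩ with hv'
  have hv0 : v ≠ 0 := fun h => hu (mem_kerD.2 ⟨huL, (Submodule.mem_bot _).2 h⟩)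
  have hvv' : v' ∉ Submodule.span d.LL {v} := fun h => hu' (mem_kerD.2 ⟨hu'L, h⟩)
  have hv'v : v ∉ Submodule.span d.LL {v'} := by
    intro h
    obtain ⟨c, hc⟩ := Submodule.mem_span_singleton.1 h
    have hc0 : c ≠ 0 := by
      rintro rfl
      rw [zero_smul] at hc
      exact hv0 hc.symm
    apply hvv'
    rw [Submodule.mem_span_singleton]
    exact ⟨c⁻¹, by rw [← hc, smul_smul, inv_mul_cancel₀ hc0, one_smul]⟩
  obtain ⟨φ₁, h11, h12⟩ := exists_functional v v' hv'v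
  obtain ⟨φ₂, h22, h21⟩ := exists_functional v' v hvv'
  -- values
  have e11 : DD d.LL φ₁ u = 1 := by rw [DD_of _ _ huL, ← hv, h11]; rfl
  have e12 : DD d.LL φ₁ u' = 0 := by rw [DD_of _ _ hu'L, ← hv', h12]; rfl
  have e21 : DD d.LL φ₂ u = 0 := by rw [DD_of _ _ huL, ← hv, h21]; rfl
  have e22 : DD d.LL φ₂ u' = 1 := by rw [DD_of _ _ hu'L, ← hv', h22]; rfl
  -- `u` and `u'` are not powers
  have npow : ∀ (D : K → K), DerOn d.LL.toSubfield D → ∀ (q : Fin 5) (x : K), D x = 1 →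
      ¬ ∃ c ∈ d.kf q, c ^ p = x := by
    rintro D hD q x hx ⟨c, hc, rfl⟩
    rw [GEX_.der_p hD (d.kf_le_LL q hc)] at hx
    exact zero_ne_one hx
  have nu := npow _ (derOn_DD d.LL φ₁) i u e11
  have nu' := npow _ (derOn_DD d.LL φ₂) i' u' e22
  have une : ∀ x : K, (¬ ∃ c ∈ d.kf i, c ^ p = x) → x ≠ 0 := by
    rintro x hx rfl
    exact hx ⟨0, zero_mem _, zero_pow hp.ne_zero⟩
  have une' : ∀ x : K, (¬ ∃ c ∈ d.kf i', c ^ p = x) → x ≠ 0 := by
    rintro x hx rfl
    exact hx ⟨0, zero_mem _, zero_pow hp.ne_zero⟩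
  -- kernels
  have k2 : ∀ f ∈ d.kf i, DD d.LL φ₂ f = 0 := by
    intro f hf
    by_cases hf0 : f = 0
    · rw [hf0, GEX_.der_zero (derOn_DD d.LL φ₂)]
    obtain ⟨g, -, hg, -⟩ := hGEX p K (d.kf i).toSubfield u f hui hf hf0 nu
      (hPBK p κ K S d i u hui nu)
    have h1 := hg d.LL.toSubfield (d.kf_le_LL i) _ (derOn_DD d.LL φ₂)
    rw [e21, mul_zero] at h1
    exact (mul_eq_zero.1 h1).resolve_left (une u nu)
  have k1 : ∀ f ∈ d.kf i', DD d.LL φ₁ f = 0 := by
    intro f hf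
    by_cases hf0 : f = 0
    · rw [hf0, GEX_.der_zero (derOn_DD d.LL φ₁)]
    obtain ⟨g, -, hg, -⟩ := hGEX p K (d.kf i').toSubfield u' f hu'i hf hf0 nu'
      (hPBK p κ K S d i' u' hu'i nu')
    have h1 := hg d.LL.toSubfield (d.kf_le_LL i') _ (derOn_DD d.LL φ₁)
    rw [e12, mul_zero] at h1
    exact (mul_eq_zero.1 h1).resolve_left (une' u' nu')
  refine ⟨i, i', ?_, DD d.LL φ₁, DD d.LL φ₂, derOn_DD _ _, derOn_DD _ _, k1, k2, ?_, ?_⟩
  · rintro rfl
    rw [k2 u' hu'i] at e22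
    exact zero_ne_one e22
  · intro b hb hbn h0
    obtain ⟨g, -, hg, -⟩ := hGEX p K (d.kf i).toSubfield b u hb hui (une u nu) hbn
      (hPBK p κ K S d i b hb hbn)
    have h1 := hg d.LL.toSubfield (d.kf_le_LL i) _ (derOn_DD d.LL φ₁)
    rw [h0, mul_zero, e11, mul_one] at h1
    exact une b hbn h1
  · intro b hb hbn h0
    obtain ⟨g, -, hg, -⟩ := hGEX p K (d.kf i').toSubfield b u' hb hu'i (une' u' nu') hbn
      (hPBK p κ K S d i' b hb hbn)
    have h1 := hg d.LL.toSubfield (d.kf_le_LL i') _ (derOn_DD d.LL φ₂)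
    rw [h0, mul_zero, e22, mul_one] at h1
    exact une' b hbn h1

end Pool.Agent.CPU
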