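import Pool.Agent.CPU.Stmts
import Pool.Agent.CPT.PBK

set_option autoImplicit false

namespace Pool.Agent.CPU

open Pool.Agent Pool.Agent.CPT

theorem pbk_proof (hAZR : CPT.Stmt_AZR) (hPBS : Stmt_PBS) : Stmt_PBK := by
  intro p _ κ K _ _ _ _ _ S d i b hb hns f hf
  obtain ⟨j, k, l, m, hd, h1, h2, h3, h4⟩ := PBK_.others i
  rw [PBK_.kf_eq d i j k l m hd h1 h2 h3 h4] at hb hns hf ⊢
  exact hPBS p κ K _ _ (hAZR κ K S d i j k l m hd h1 h2 h3 h4) b hb hns f hf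

end Pool.Agent.CPU
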