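import Pool.Agent.CPU.Stmts

set_option autoImplicit false

/-!
# CPU: module PBS (function fields in one variable over a perfect field of characteristic `p`)
-/

namespace Pool.Agent.CPU

open Pool.Agent.CPT

namespace PBS_

set_option linter.unusedSectionVars false

/-- the field `L` as a module over itself through the Frobenius map -/
def Fr (_p : ℕ) (L : Type) : Type := L

instance instG (p : ℕ) (L : Type) [Field L] : AddCommGroup (Fr p L) :=
  inferInstanceAs (AddCommGroup L)

instance instM (p : ℕ) [Fact p.Prime] (L : Type) [Field L] [CharP L p] : Module L (Fr p L) :=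
  Module.compHom L (frobenius L p)

lemma smul_def' {p : ℕ} [Fact p.Prime] {L : Type} [Field L] [CharP L p] (c : L) (x : Fr p L) :
    c • x = (show Fr p L from c ^ p * (show L from x)) := rfl

lemma main (p : ℕ) [Fact p.Prime] (E L : Type) [Field E] [Field L] [Algebra E L] [CharP L p]
    [FiniteDimensional E L] (u : L) (hE : ∀ x : E, ∃ a : Fin p → E, algebraMap E L x =
      ∑ j, (algebraMap E L (a j)) ^ p * u ^ (j : ℕ))
    (b : L) (hb : ∀ c : Fin p → L, ∑ j, c j ^ p * b ^ (j : ℕ) = 0 → ∀ j, c j = 0) (f : L) :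
    ∃ c : Fin p → L, f = ∑ j, c j ^ p * b ^ (j : ℕ) := by
  classical
  let iM : Module E (Fr p L) := Module.compHom (Fr p L) (algebraMap E L)
  have hsE : ∀ (a : E) (x : Fr p L), a • x = (algebraMap E L a) • x := fun _ _ => rfl
  have : IsScalarTower E L (Fr p L) := ⟨fun a c x => by
    rw [hsE, Algebra.smul_def, mul_smul]⟩
  let e := Module.finBasis E L
  set n := Module.finrank E L with hn
  have hn0 : 0 < n := Module.finrank_pos
  -- a spanning family
  let w : Fin n × Fin p → Fr p L := fun q => (show Fr p L from u ^ (q.2 : ℕ) * e q.1)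
  have hw : Submodule.span E (Set.range w) = ⊤ := by
    rw [eq_top_iff]
    intro x _
    have hx : (show L from x) = ∑ i, (e.repr (show L from x) i) • e i := (e.sum_repr _).symm
    choose A hA using fun i => hE (e.repr (show L from x) i)
    have h1 : x = ∑ i, ∑ j, A i j • w (i, j) := by
      have h2 : ∀ i, ∑ j, A i j • w (i, j) =
          (show Fr p L from (e.repr (show L from x) i) • e i) := by
        intro i
        have h3 : (∑ j, ((algebraMap E L (A i j)) ^ p * (u ^ (j : ℕ) * e i)) : L) =
            (e.repr (show L from x) i) • e i := by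
          rw [Algebra.smul_def, hA i, Finset.sum_mul]
          exact Finset.sum_congr rfl fun j _ => by ring
        exact h3
      rw [Finset.sum_congr rfl fun i _ => h2 i]
      exact hx
    rw [h1]
    exact Submodule.sum_mem _ fun i _ => Submodule.sum_mem _ fun j _ =>
      Submodule.smul_mem _ _ (Submodule.subset_span ⟨_, rfl⟩)
  have : Module.Finite E (Fr p L) := Module.finite_def.2 ⟨Finset.univ.image w, by
    rw [Finset.coe_image, Finset.coe_univ, Set.image_univ, hw]⟩
  have : Module.Finite L (Fr p L) := Module.Finite.of_restrictScalars_finite E L (Fr p L)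
  have h2n : Module.finrank E (Fr p L) ≤ n * p := by
    have h := finrank_range_le_card (R := E) w
    rw [Set.finrank, hw, finrank_top] at h
    simpa using h
  have hmul := Module.finrank_mul_finrank E L (Fr p L)
  have h2 : Module.finrank L (Fr p L) ≤ p := by
    by_contra h
    push Not at h
    have : n * (p + 1) ≤ n * Module.finrank L (Fr p L) := Nat.mul_le_mul_left _ h
    rw [hmul] at this
    nlinarith
  -- the powers of `b` are independent
  let z : Fin p → Fr p L := fun j => (show Fr p L from b ^ (j : ℕ))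
  have hz : LinearIndependent L z := by
    rw [Fintype.linearIndependent_iff]
    intro g hg
    exact hb g hg
  have hcard : Fintype.card (Fin p) = Module.finrank L (Fr p L) := by
    have := hz.fintype_card_le_finrank
    simp only [Fintype.card_fin] at this ⊢
    omega
  have : Nonempty (Fin p) := ⟨⟨0, (Fact.out : p.Prime).pos⟩⟩
  have hsp := hz.span_eq_top_of_card_eq_finrank' hcard
  have hf : (show Fr p L from f) ∈ Submodule.span L (Set.range z) := by
    rw [hsp]
    trivial
  rw [Submodule.mem_span_range_iff_exists_fun] at hf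
  obtain ⟨c, hc⟩ := hf
  exact ⟨c, hc.symm⟩

section
variable {K : Type} [Field K] (p : ℕ) (E : Subfield K) (u : K)

/-- the sums of `c ^ p u ^ j`, `j < p`, `c ∈ E` -/
def V : Set K := {x | ∃ a : Fin p → K, (∀ j, a j ∈ E) ∧ x = ∑ j, a j ^ p * u ^ (j : ℕ)}

variable {p E u} [Fact p.Prime] [CharP K p]

lemma V_zero : (0 : K) ∈ V p E u :=
  ⟨fun _ => 0, fun _ => E.zero_mem, by
    simp [zero_pow (Fact.out : p.Prime).ne_zero]⟩

lemma V_add {x y : K} (hx : x ∈ V p E u) (hy : y ∈ V p E u) : x + y ∈ V p E u := by
  obtain ⟨a, ha, rfl⟩ := hx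
  obtain ⟨b, hb, rfl⟩ := hy
  refine ⟨fun j => a j + b j, fun j => E.add_mem (ha j) (hb j), ?_⟩
  rw [← Finset.sum_add_distrib]
  refine Finset.sum_congr rfl fun j _ => ?_
  rw [add_pow_char, add_mul]

lemma V_mono (hu : u ∈ E) {c : K} (hc : c ∈ E) (n : ℕ) : c ^ p * u ^ n ∈ V p E u := by
  classical
  have hp := (Fact.out : p.Prime).pos
  refine ⟨fun j => if (j : ℕ) = n % p then c * u ^ (n / p) else 0, fun j => ?_, ?_⟩
  · dsimp only
    split_ifs
    · exact E.mul_mem hc (E.pow_mem hu _)
    · exact E.zero_mem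
  · rw [Finset.sum_eq_single ⟨n % p, Nat.mod_lt n hp⟩]
    · dsimp only
      rw [if_pos rfl, mul_pow, ← pow_mul, mul_assoc, ← pow_add]
      congr 2
      rw [mul_comm]
      exact (Nat.div_add_mod n p).symm
    · intro j _ hj
      dsimp only
      rw [if_neg, zero_pow (Fact.out : p.Prime).ne_zero, zero_mul]
      intro h
      exact hj (Fin.ext h)
    · intro h
      exact absurd (Finset.mem_univ _) h

lemma V_sum {ι : Type} (s : Finset ι) (g : ι → K) (h : ∀ i ∈ s, g i ∈ V p E u) :
    ∑ i ∈ s, g i ∈ V p E u := by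
  classical
  induction s using Finset.induction_on with
  | empty => rw [Finset.sum_empty]; exact V_zero
  | insert i s hi ih =>
    rw [Finset.sum_insert hi]
    exact V_add (h i (Finset.mem_insert_self i s)) (ih fun j hj => h j (Finset.mem_insert_of_mem hj))

lemma V_mul (hu : u ∈ E) {x y : K} (hx : x ∈ V p E u) (hy : y ∈ V p E u) : x * y ∈ V p E u := by
  obtain ⟨a, ha, rfl⟩ := hx
  obtain ⟨b, hb, rfl⟩ := hy
  rw [Finset.sum_mul_sum]
  refine V_sum _ _ fun i _ => V_sum _ _ fun j _ => ?_
  have h : a i ^ p * u ^ (i : ℕ) * (b j ^ p * u ^ (j : ℕ)) =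
      (a i * b j) ^ p * u ^ ((i : ℕ) + j) := by
    rw [mul_pow, pow_add]; ring
  rw [h]
  exact V_mono hu (E.mul_mem (ha i) (hb j)) _

lemma V_one (hu : u ∈ E) : (1 : K) ∈ V p E u := by
  have := V_mono (p := p) hu E.one_mem 0
  simpa using this

lemma V_pow (hu : u ∈ E) {x : K} (hx : x ∈ V p E u) (n : ℕ) : x ^ n ∈ V p E u := by
  induction n with
  | zero => rw [pow_zero]; exact V_one hu
  | succ n ih => rw [pow_succ]; exact V_mul hu ih hx

lemma V_inv (hu : u ∈ E) {x : K} (hxE : x ∈ E) (hx : x ∈ V p E u) : x⁻¹ ∈ V p E u := by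
  by_cases h0 : x = 0
  · rw [h0, inv_zero]; exact V_zero
  have hp := (Fact.out : p.Prime).pos
  have h1 : x⁻¹ = (x⁻¹) ^ p * u ^ 0 * x ^ (p - 1) := by
    obtain ⟨q, hq⟩ : ∃ q, p = q + 1 := ⟨p - 1, by omega⟩
    rw [hq, Nat.add_sub_cancel, pow_succ, pow_zero, mul_one, mul_comm (x⁻¹ ^ q), mul_assoc,
      ← mul_pow, inv_mul_cancel₀ h0, one_pow, mul_one]
  rw [h1]
  exact V_mul hu (V_mono hu (E.inv_mem hxE) 0) (V_pow hu hx _)

end

end PBS_

open PBS_ in
theorem pbs_proof (hPIN : Stmt_PIN) : Stmt_PBS := by
  intro p _ κ K _ _ _ _ _ u v halg b hb hbs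
  have : CharP K p := charP_of_injective_algebraMap (algebraMap κ K).injective p
  have hp := (Fact.out : p.Prime).pos
  set E := IntermediateField.adjoin κ {u} with hEd
  let L := IntermediateField.adjoin E {v}
  have hmem : ∀ x, x ∈ IntermediateField.adjoin κ {u, v} ↔ x ∈ L := by
    intro x
    have h1 := IntermediateField.adjoin_adjoin_left κ {u} ({v} : Set K)
    have h2 : ({u} ∪ {v} : Set K) = {u, v} := by
      exact Set.singleton_union
    rw [h2] at h1
    rw [← h1]
    exact IntermediateField.mem_restrictScalars (K := κ)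
  have : FiniteDimensional E L := IntermediateField.adjoin.finiteDimensional halg.isIntegral
  have : CharP L p := charP_of_injective_algebraMap (algebraMap κ L).injective p
  have huE : u ∈ E := IntermediateField.subset_adjoin κ _ rfl
  have huE' : u ∈ E.toSubfield := huE
  have hsq : ∀ x ∈ E, x ∈ V p E.toSubfield u := by
    intro x hx
    induction hx using IntermediateField.adjoin_induction with
    | mem x hx =>
      rw [Set.mem_singleton_iff] at hx
      have := V_mono (p := p) huE' E.toSubfield.one_mem 1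
      rw [hx]
      simpa using this
    | algebraMap c =>
      obtain ⟨d, hd⟩ := IsAlgClosed.exists_pow_nat_eq c hp
      have := V_mono (p := p) huE' (c := algebraMap κ K d) (E.algebraMap_mem d) 0
      rw [← map_pow, hd, pow_zero, mul_one] at this
      exact this
    | add x y _ _ h1 h2 => exact V_add h1 h2
    | inv x hx h1 => exact V_inv huE' hx h1
    | mul x y _ _ h1 h2 => exact V_mul huE' h1 h2
  have huL : u ∈ L := (hmem u).1 (IntermediateField.subset_adjoin κ _ (by simp))
  intro f hf
  have hf' : f ∈ IntermediateField.adjoin κ {u, v} := hf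
  obtain ⟨c, hc⟩ := main p E L ⟨u, huL⟩ (fun x => by
      obtain ⟨a, ha, h⟩ := hsq x x.2
      refine ⟨fun j => ⟨a j, ha j⟩, Subtype.ext ?_⟩
      rw [AddSubmonoidClass.coe_finset_sum]
      exact h) ⟨b, (hmem b).1 hb⟩ (fun c hc => by
      have h1 : ∑ j ∈ Finset.range p, (fun n => if h : n < p then ((c ⟨n, h⟩ : L) : K) else 0) j ^ p
          * b ^ j = 0 := by
        rw [Finset.sum_range]
        have h2 := congrArg Subtype.val hc
        rw [AddSubmonoidClass.coe_finset_sum] at h2
        refine Eq.trans (Finset.sum_congr rfl fun j _ => ?_) h2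
        simp only [Fin.is_lt, dite_true, Fin.eta]
        rfl
      have h3 := hPIN p K (IntermediateField.adjoin κ {u, v}).toSubfield b hb hbs _ (by
        intro j
        show (if h : j < p then ((c ⟨j, h⟩ : L) : K) else 0) ∈ _
        split_ifs with h
        · exact (hmem _).2 (c ⟨j, h⟩).2
        · exact zero_mem _) h1
      intro j
      have h4 := h3 j j.2
      simp only [Fin.is_lt, dite_true, Fin.eta] at h4
      exact Subtype.ext h4) ⟨f, (hmem f).1 hf'⟩
  refine ⟨fun n => if h : n < p then ((c ⟨n, h⟩ : L) : K) else 0, ?_, ?_⟩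
  · intro j
    show (if h : j < p then ((c ⟨j, h⟩ : L) : K) else 0) ∈ _
    split_ifs with h
    · exact (hmem _).2 (c ⟨j, h⟩).2
    · exact zero_mem _
  · have h2 := congrArg Subtype.val hc
    rw [AddSubmonoidClass.coe_finset_sum] at h2
    rw [Finset.sum_range]
    refine h2.trans (Finset.sum_congr rfl fun j _ => ?_)
    simp only [Fin.is_lt, dite_true, Fin.eta]
    rfl

end Pool.Agent.CPU
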