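import Pool.Agent.CPU.StmtsE
import Pool.Agent.CPT.PHC

set_option autoImplicit false

/-!
# CPU, module PHC: multiples of the elements of a chart in terms of the powers of `(w/z) ^ p`
-/

noncomputable section

namespace Pool.Agent.CPU

open Pool.Agent Pool.Agent.CPT Polynomial

namespace PHC_

theorem frob_eval {K F : Type} [Field K] [Field F] [Algebra K F] (p : ℕ) [Fact p.Prime]
    [CharP K p] [CharP F p] (w : F)
    (q : K[X]) : aeval (w ^ p) (q.map (frobenius K p)) = (aeval w q) ^ p := by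
  have h1 : (aeval w q) ^ p = frobenius F p (eval₂ (algebraMap K F) w q) := rfl
  rw [h1, hom_eval₂, aeval_def, eval₂_map]
  congr 1
  ext a
  simp [frobenius_def]

/-- the derivative of the minimal polynomial of a `p`-th power -/
theorem der_pow {K F : Type} [Field K] [Field F] [Algebra K F] (p : ℕ) [Fact p.Prime]
    [CharP K p] [CharP F p] [FiniteDimensional K F] {w : F}
    (hw : IntermediateField.adjoin K {w} = ⊤)
    (hw2 : IntermediateField.adjoin K {w ^ p} = ⊤) :
    aeval (w ^ p) (derivative (minpoly K (w ^ p))) =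
      (aeval w (derivative (minpoly K w))) ^ p := by
  have hint : IsIntegral K w := Algebra.IsIntegral.isIntegral w
  have h1 : (minpoly K w).map (frobenius K p) = minpoly K (w ^ p) := by
    refine CPT.PHC_.minpoly_eq hw2 ((minpoly.monic hint).map _) ?_ ?_
    · rw [frob_eval, minpoly.aeval, zero_pow (Fact.out : p.Prime).ne_zero]
    · rw [natDegree_map, CPT.PHC_.natDegree_minpoly hw]
  rw [← h1, derivative_map, frob_eval]

theorem core (hTRD : CPT.Stmt_TRD) (p : ℕ) [Fact p.Prime] {F : Type} [Field F] [CharP F p]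
    (A : Subring F) (K : Subfield F)
    (hAK : ∀ f ∈ A, f ∈ K) (hfr : ∀ f ∈ K, ∃ a ∈ A, ∃ b ∈ A, b ≠ 0 ∧ f = a / b)
    (hic : IsIntegrallyClosed A) (hfd : FiniteDimensional K F) (hsep : Algebra.IsSeparable K F)
    (w : F) (hw : IntermediateField.adjoin K {w} = ⊤) (ζ : F) (hζK : ζ ∈ K) (hζ : ζ ≠ 0)
    (hwi : IsIntegral A (w / ζ)) (r : F) (hr : IsIntegral A r) :
    ∃ b : ℕ → F, (∀ j, b j ∈ A) ∧
      (aeval w (derivative (minpoly K w)) / ζ ^ (Module.finrank K F - 1)) ^ p * r =
        ∑ j ∈ Finset.range (Module.finrank K F), b j * ((w / ζ) ^ j) ^ p := by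
  have hcK : CharP K p := K.subtype.charP Subtype.val_injective p
  have hcF : ExpChar F p := ExpChar.prime Fact.out
  have hcK' : ExpChar K p := ExpChar.prime Fact.out
  let ζ' : K := ⟨ζ, hζK⟩
  have hζ' : ζ' ≠ 0 := fun h => hζ (congrArg Subtype.val h)
  have h6 : algebraMap K F ζ' = ζ := rfl
  have h1 := CPT.PHC_.adjoin_div (K := K) hw hζ'
  rw [h6] at h1
  have h2 : IntermediateField.adjoin K {(w / ζ) ^ p} = ⊤ := by
    rw [← h1]
    exact (IntermediateField.adjoin_simple_eq_adjoin_pow_expChar_of_isSeparable' K F (w / ζ) p).symm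
  obtain ⟨b, hb, h3⟩ := hTRD F A K hAK hfr (fun f hf hi => by
    obtain ⟨a, ha, b, hb, hb0, h⟩ := hfr f hf
    exact CPT.PHC_.mem_of_int A ha hb hb0 h hi) hfd hsep ((w / ζ) ^ p) (hwi.pow p) h2 r hr
  refine ⟨b, hb, ?_⟩
  have h4 := CPT.PHC_.der_div (K := K) hw hζ'
  have h5 := der_pow (K := K) p h1 h2
  rw [h5] at h3
  rw [h6] at h4
  rw [← h4, h3]
  refine Finset.sum_congr rfl fun j _ => ?_
  rw [← pow_mul, ← pow_mul, mul_comm p j]

end PHC_

open PHC_

theorem phc_proof (hTRD : CPT.Stmt_TRD) (hBAS : Pool.Agent.SRF.Stmt_BAS)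
    (hSEC : Pool.Agent.SRF.Stmt_SEC) : Stmt_PHC := by
  intro p _ κ F _ _ _ _ _ x y hS c w hw hgen
  have hcF : CharP F p := charP_of_injective_algebraMap (algebraMap κ F).injective p
  let K : Subfield F := (KK κ x y).toSubfield
  have hfd : FiniteDimensional K F := hS.fin
  have hsep : Algebra.IsSeparable K F := hS.sep
  have hgen' : IntermediateField.adjoin K {w} = ⊤ := hgen
  refine ⟨aeval w (derivative (minpoly K w)), ?_, ?_⟩
  · have h1 : IsSeparable K w := Algebra.IsSeparable.isSeparable K w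
    exact h1.aeval_derivative_ne_zero (minpoly.aeval K w)
  · intro i r hr
    obtain ⟨⟨e⟩, hB1, hB2⟩ := hBAS κ F x y hS i
    have hic : IsIntegrallyClosed (SRF.base κ x y i).toSubring :=
      IsIntegrallyClosed.of_equiv (R := MvPolynomial (Fin 2) κ) e.toRingEquiv
    have hzi : SRF.z x y i ∈ K ∧ SRF.z x y i ≠ 0 := by
      have hx : x ∈ K := IntermediateField.subset_adjoin κ _ (Set.mem_insert _ _)
      have hy : y ∈ K := IntermediateField.subset_adjoin κ _ (Set.mem_insert_of_mem _ rfl)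
      have hx0 : x ≠ 0 := hS.indep.ne_zero 0
      have hy0 : y ≠ 0 := hS.indep.ne_zero 1
      fin_cases i
      · exact ⟨one_mem K, one_ne_zero⟩
      · exact ⟨hx, hx0⟩
      · exact ⟨hy, hy0⟩
    have hwi : w / SRF.z x y i ^ c ∈ SRF.chart κ x y i := (hSEC κ F x y hS c w).1 hw i
    obtain ⟨b, hb, h⟩ := core hTRD p (SRF.base κ x y i).toSubring K hB1 hB2 hic hfd hsep w hgen'
      (SRF.z x y i ^ c) (pow_mem hzi.1 c) (pow_ne_zero c hzi.2) hwi r hr
    refine ⟨b, hb, ?_⟩
    rw [pow_mul]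
    exact h

end Pool.Agent.CPU
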