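import Pool.Agent.CPU.Stmts

set_option autoImplicit false

namespace Pool.Agent.CPU

open Pool.Agent Pool.Agent.CPT Polynomial

theorem pin_proof : Stmt_PIN := by
  intro p _ K _ _ F b hb hnp c hc hsum
  classical
  have hp : p.Prime := Fact.out
  -- the field of p-th powers
  let M : Subfield K := F.map (frobenius K p)
  have hM : ∀ x ∈ F, x ^ p ∈ M := fun x hx => ⟨x, hx, rfl⟩
  let a : M := ⟨b ^ p, hM b hb⟩
  have hirr : Irreducible (X ^ p - C a : M[X]) := by
    refine X_pow_sub_C_irreducible_of_prime hp ?_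
    intro m hm
    have h1 : (m : K) ^ p = b ^ p := by
      have := congrArg (fun z : M => (z : K)) hm
      simpa [a] using this
    have h2 : (m : K) = b := frobenius_inj K p h1
    obtain ⟨y, hy, hy2⟩ := m.2
    exact hnp ⟨y, hy, by rw [← h2]; exact hy2⟩
  have hmon : (X ^ p - C a : M[X]).Monic := monic_X_pow_sub_C a hp.ne_zero
  have hroot : aeval b (X ^ p - C a : M[X]) = 0 := by
    have h0 : algebraMap M K a = b ^ p := rfl
    rw [map_sub, map_pow, aeval_X, aeval_C, h0, sub_self]
  have hmin : minpoly M b = X ^ p - C a :=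
    (minpoly.eq_of_irreducible_of_monic hirr hroot hmon).symm
  let P : M[X] := ∑ j ∈ Finset.range p, C (⟨c j ^ p, hM _ (hc j)⟩ : M) * X ^ j
  have hP0 : aeval b P = 0 := by
    rw [map_sum, ← hsum]
    refine Finset.sum_congr rfl fun j _ => ?_
    have h0 : algebraMap M K (⟨c j ^ p, hM _ (hc j)⟩ : M) = c j ^ p := rfl
    rw [map_mul, map_pow, aeval_X, aeval_C, h0]
  have hdeg : P.degree < (X ^ p - C a : M[X]).degree := by
    rw [degree_X_pow_sub_C hp.pos]
    refine lt_of_le_of_lt (degree_sum_le _ _) ?_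
    rw [Finset.sup_lt_iff (by simp)]
    intro j hj
    refine lt_of_le_of_lt (degree_C_mul_X_pow_le _ _) ?_
    exact_mod_cast Finset.mem_range.1 hj
  have hP : P = 0 := by
    refine eq_zero_of_dvd_of_degree_lt ?_ hdeg
    rw [← hmin]
    exact minpoly.dvd M b hP0
  intro j hj
  have hcoef : P.coeff j = (⟨c j ^ p, hM _ (hc j)⟩ : M) := by
    simp only [P, finsetSum_coeff, coeff_C_mul, coeff_X_pow]
    rw [Finset.sum_eq_single j]
    · simp
    · intro i _ hij
      simp [Ne.symm hij]
    · intro h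
      exact absurd (Finset.mem_range.2 hj) h
  rw [hP, coeff_zero] at hcoef
  have h3 : c j ^ p = 0 := (congrArg (fun z : M => (z : K)) hcoef).symm
  exact pow_eq_zero_iff hp.ne_zero |>.1 h3

end Pool.Agent.CPU
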