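import Pool.Agent.CPU.StmtsE
import Pool.Agent.CPT.PRJ

set_option autoImplicit false

/-!
# CPU: module PRJ (projections to the summands `F ^ p x ^ i y ^ j`)
-/

noncomputable section

namespace Pool.Agent.CPU

open Pool.Agent Pool.Agent.CPT

namespace PRJ_

section
variable {F : Type} [Field F]

/-- linear over the `p`-th powers -/
def PL (p : ℕ) (A : Module.End ℤ F) : Prop := ∀ f g : F, A (f ^ p * g) = f ^ p * A g

variable {p : ℕ}

lemma PL_one : PL p (1 : Module.End ℤ F) := fun _ _ => rfl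

lemma PL_sub {A B : Module.End ℤ F} (hA : PL p A) (hB : PL p B) : PL p (A - B) := by
  intro f g
  rw [LinearMap.sub_apply, LinearMap.sub_apply, hA, hB, mul_sub]

lemma PL_mul {A B : Module.End ℤ F} (hA : PL p A) (hB : PL p B) : PL p (A * B) := by
  intro f g
  rw [Module.End.mul_apply, Module.End.mul_apply, hB, hA]

lemma PL_pow {A : Module.End ℤ F} (hA : PL p A) (n : ℕ) : PL p (A ^ n) := by
  induction n with
  | zero => rw [pow_zero]; exact PL_one
  | succ n ih => rw [pow_succ]; exact PL_mul ih hA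

lemma PL_nat (n : ℕ) : PL p ((n : ℤ) • (1 : Module.End ℤ F)) := by
  intro f g
  simp only [LinearMap.smul_apply, Module.End.one_apply]
  rw [mul_smul_comm]

/-- the operator `1 - (T - i) ^ (p - 1)` -/
def Pr (p : ℕ) (T : Module.End ℤ F) (i : ℕ) : Module.End ℤ F :=
  1 - (T - (i : ℤ) • (1 : Module.End ℤ F)) ^ (p - 1)

lemma PL_Pr {T : Module.End ℤ F} (hT : PL p T) (i : ℕ) : PL p (Pr p T i) :=
  PL_sub PL_one (PL_pow (PL_sub hT (PL_nat i)) _)

lemma eig_pow {T : Module.End ℤ F} {v : F} {m : ℤ} (hv : T v = m • v) (i : ℕ) (k : ℕ) :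
    ((T - (i : ℤ) • (1 : Module.End ℤ F)) ^ k) v = (m - i) ^ k • v := by
  induction k with
  | zero => simp
  | succ k ih =>
    rw [pow_succ', Module.End.mul_apply, ih, LinearMap.sub_apply, map_smul, hv,
      LinearMap.smul_apply, Module.End.one_apply, smul_smul, smul_smul, ← sub_smul, pow_succ]
    congr 1
    ring

lemma fermat [Fact p.Prime] [CharP F p] (a : ℤ) :
    ((a ^ (p - 1) : ℤ) : F) = if (p : ℤ) ∣ a then 0 else 1 := by
  have hp := (Fact.out : p.Prime)
  split_ifs with h
  · rw [Int.cast_pow, (CharP.intCast_eq_zero_iff F p a).2 h, zero_pow]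
    have := hp.two_le
    omega
  · have h1 : ((a : ZMod p)) ≠ 0 := by
      intro h2
      exact h ((ZMod.intCast_zmod_eq_zero_iff_dvd a p).1 h2)
    have h2 := ZMod.pow_card_sub_one_eq_one h1
    have h3 := congrArg (ZMod.castHom (dvd_refl p) F) h2
    rw [map_pow, map_one, map_intCast] at h3
    rw [Int.cast_pow, h3]

lemma Pr_eig [Fact p.Prime] [CharP F p] {T : Module.End ℤ F} {v : F} {m : ℤ} (hv : T v = m • v)
    (i : ℕ) : Pr p T i v = if (p : ℤ) ∣ m - i then v else 0 := by
  unfold Pr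
  rw [LinearMap.sub_apply, Module.End.one_apply, eig_pow hv, zsmul_eq_mul, fermat]
  split_ifs with h
  · rw [zero_mul, sub_zero]
  · rw [one_mul, sub_self]

variable {κ : Type} [Field κ] [Algebra κ F]

/-- `z D` -/
def Th (z : F) (D : Derivation κ F F) : Module.End ℤ F where
  toFun f := z * D f
  map_add' f g := by rw [map_add, mul_add]
  map_smul' n f := by
    rw [map_zsmul, mul_smul_comm]
    rfl

lemma Th_apply (z : F) (D : Derivation κ F F) (f : F) : Th z D f = z * D f := rfl

lemma PL_Th [Fact p.Prime] [CharP F p] (z : F) (D : Derivation κ F F) : PL p (Th z D) := by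
  intro f g
  rw [Th_apply, Th_apply, Derivation.leibniz, Derivation.leibniz_pow]
  have : (p : F) = 0 := CharP.cast_eq_zero F p
  simp only [smul_eq_mul, nsmul_eq_mul, this]
  ring

lemma Th_mono {x y : F} (hx : x ≠ 0) (D : Derivation κ F F) (h1 : D x = 1)
    (h2 : D y = 0) (m n : ℤ) : Th x D (x ^ m * y ^ n) = m • (x ^ m * y ^ n) := by
  rw [Th_apply, Derivation.leibniz, Derivation.leibniz_zpow, Derivation.leibniz_zpow, h1, h2,
    zpow_sub_one₀ hx]
  simp only [smul_eq_mul, zsmul_eq_mul, mul_zero, mul_one, zero_add]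
  field_simp

end

end PRJ_

open PRJ_ in
theorem prj_proof (hSPN : Stmt_SPN) : Stmt_PRJ := by
  intro p _ κ F _ _ _ _ _ x y hS
  have : CharP F p := charP_of_injective_algebraMap (algebraMap κ F).injective p
  have hp := (Fact.out : p.Prime)
  obtain ⟨D0, hD0⟩ := CPT.PRJ_.exists_der κ F x y hS 0
  obtain ⟨D1, hD1⟩ := CPT.PRJ_.exists_der κ F x y hS 1
  have x0 : D0 x = 1 := by simpa using hD0 0
  have y0 : D0 y = 0 := by simpa using hD0 1
  have x1 : D1 x = 0 := by simpa using hD1 0
  have y1 : D1 y = 1 := by simpa using hD1 1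
  have hx : x ≠ 0 := by simpa using hS.indep.ne_zero 0
  have hy : y ≠ 0 := by simpa using hS.indep.ne_zero 1
  let φ : ℕ × ℕ → Module.End ℤ F := fun l => Pr p (Th x D0) l.1 * Pr p (Th y D1) l.2
  have hPL : ∀ l, PL p (φ l) := fun l => PL_mul (PL_Pr (PL_Th x D0) _) (PL_Pr (PL_Th y D1) _)
  have hmon : ∀ (l : ℕ × ℕ) (m n : ℤ), φ l (x ^ m * y ^ n) =
      if (p : ℤ) ∣ m - l.1 ∧ (p : ℤ) ∣ n - l.2 then x ^ m * y ^ n else 0 := by
    intro l m n
    have e0 := Th_mono hx D0 x0 y0 m n
    have e1 := Th_mono hy D1 y1 x1 n m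
    rw [mul_comm (y ^ n)] at e1
    show Pr p (Th x D0) l.1 (Pr p (Th y D1) l.2 (x ^ m * y ^ n)) = _
    rw [Pr_eig e1]
    by_cases h2 : (p : ℤ) ∣ n - l.2
    · rw [if_pos h2, Pr_eig e0]
      by_cases h1 : (p : ℤ) ∣ m - l.1
      · rw [if_pos h1, if_pos ⟨h1, h2⟩]
      · rw [if_neg h1, if_neg fun h => h1 h.1]
    · rw [if_neg h2, if_neg fun h => h2 h.2, map_zero]
  refine ⟨{l : ℕ × ℕ // l.1 < p ∧ l.2 < p ∧ l ≠ (0, 0)}, fun l => φ l.1, ?_, ?_, ?_, ?_, ?_⟩
  · intro l f g
    exact map_add _ _ _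
  · intro l f g
    exact hPL l.1 f g
  · intro l
    have h := hmon l.1 0 0
    rw [zpow_zero, zpow_zero, mul_one] at h
    show φ l.1 1 = 0
    rw [h, if_neg]
    rintro ⟨h1, h2⟩
    apply l.2.2.2
    have a1 := l.2.1
    have a2 := l.2.2.1
    rw [zero_sub, dvd_neg] at h1 h2
    have b1 := Nat.eq_zero_of_dvd_of_lt (Int.natCast_dvd_natCast.1 h1) a1
    have b2 := Nat.eq_zero_of_dvd_of_lt (Int.natCast_dvd_natCast.1 h2) a2
    exact Prod.ext b1 b2
  · intro f hf
    obtain ⟨c, hc⟩ := hSPN p κ F x y hS f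
    have key : ∀ l : ℕ × ℕ, l.1 < p → l.2 < p →
        φ l f = c l.1 l.2 ^ p * (x ^ l.1 * y ^ l.2) := by
      intro l hl1 hl2
      conv_lhs => rw [hc]
      rw [map_sum]
      have h1 : ∀ i ∈ Finset.range p, φ l (∑ j ∈ Finset.range p, c i j ^ p * (x ^ i * y ^ j)) =
          ∑ j ∈ Finset.range p, if i = l.1 ∧ j = l.2 then c i j ^ p * (x ^ i * y ^ j) else 0 := by
        intro i hi
        rw [map_sum]
        refine Finset.sum_congr rfl fun j hj => ?_
        rw [hPL l]
        have h2 := hmon l i j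
        rw [zpow_natCast, zpow_natCast] at h2
        rw [h2]
        rw [Finset.mem_range] at hi hj
        have h3 : ∀ a b : ℕ, a < p → b < p → ((p : ℤ) ∣ (a : ℤ) - b ↔ a = b) := by
          intro a b ha hb
          constructor
          · intro h
            have := Int.eq_zero_of_abs_lt_dvd h (by rw [abs_lt]; constructor <;> omega)
            omega
          · rintro rfl
            rw [sub_self]
            exact dvd_zero _
        have h4 := h3 i l.1 hi hl1
        have h5 := h3 j l.2 hj hl2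
        by_cases h6 : i = l.1 ∧ j = l.2
        · rw [if_pos h6, if_pos ⟨h4.2 h6.1, h5.2 h6.2⟩]
        · rw [if_neg h6, if_neg fun h => h6 ⟨h4.1 h.1, h5.1 h.2⟩, mul_zero]
      rw [Finset.sum_congr rfl h1]
      rw [Finset.sum_eq_single l.1]
      · rw [Finset.sum_eq_single l.2]
        · rw [if_pos ⟨rfl, rfl⟩]
        · intro j _ hj
          rw [if_neg fun h => hj h.2]
        · intro h
          exact absurd (Finset.mem_range.2 hl2) h
      · intro i _ hi
        exact Finset.sum_eq_zero fun j _ => if_neg fun h => hi h.1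
      · intro h
        exact absurd (Finset.mem_range.2 hl1) h
    refine ⟨c 0 0, ?_⟩
    conv_rhs => rw [hc]
    rw [Finset.sum_eq_single 0]
    · rw [Finset.sum_eq_single 0]
      · rw [pow_zero, pow_zero, mul_one, mul_one]
      · intro j hj hj0
        have h1 : φ (0, j) f = 0 := hf ⟨(0, j), hp.pos, Finset.mem_range.1 hj, by
          intro h; exact hj0 (congrArg Prod.snd h)⟩
        rw [key (0, j) hp.pos (Finset.mem_range.1 hj)] at h1
        exact h1
      · intro h
        exact absurd (Finset.mem_range.2 hp.pos) h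
    · intro i hi hi0
      refine Finset.sum_eq_zero fun j hj => ?_
      have h1 : φ (i, j) f = 0 := hf ⟨(i, j), Finset.mem_range.1 hi, Finset.mem_range.1 hj, by
        intro h; exact hi0 (congrArg Prod.fst h)⟩
      rw [key (i, j) (Finset.mem_range.1 hi) (Finset.mem_range.1 hj)] at h1
      exact h1
    · intro h
      exact absurd (Finset.mem_range.2 hp.pos) h
  · intro l m n
    show φ l.1 _ = _ ∨ φ l.1 _ = 0
    rw [hmon]
    split_ifs
    · exact Or.inl rfl
    · exact Or.inr rfl

end Pool.Agent.CPU
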