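import Pool.Agent.CPU.Stmts
import Pool.Agent.CPT.PRO

set_option autoImplicit false

/-!
# PRO: the divisors of `X` and `a` are proportional, for all primes
-/

namespace Pool.Agent.CPU

open Pool.Agent Pool.Agent.CPT

namespace PRO_

open Pool.Agent.CPT.PRO_ (E_symm cr_diff cr_sym1 cr_sym2 cr_neg cr_ij cr_kl va dist_perm swap_eq)

section
variable {κ K : Type} [Field κ] [IsAlgClosed κ] [Field K] [Algebra κ K] {S : Surf κ K}
  {d : Dat S} {X : (Fin 5 → Fin 5 → ℤ) → K}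

theorem claimB (hRAT : Stmt_RAT) (hPAR : Stmt_PAR) (hSUP : Stmt_SUP) (hX : Sol d X)
    (i j k l m : Fin 5) (h : Dist i j k l) (h1 : m ≠ i) (h2 : m ≠ j) (h3 : m ≠ k) (h4 : m ≠ l)
    (e5 : DV κ K) (he5 : e5 ∈ d.D i j ∨ e5 ∈ d.D k l)
    (e4 : DV κ K) (he4 : e4 ∈ d.D m j ∨ e4 ∈ d.D k l) :
    e5.v (X (cr i j k l)) * d.w e4 = e4.v (X (cr m j k l)) * d.w e5 := by
  obtain ⟨a1, a2, a3, a4, a5, a6⟩ := h
  have h : Dist i j k l := ⟨a1, a2, a3, a4, a5, a6⟩
  have h' : Dist m j k l := ⟨h2, h3, h4, a4, a5, a6⟩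
  have h'' : Dist i j k m := ⟨a1, a2, h1.symm, a4, h2.symm, h3.symm⟩
  obtain ⟨e, he, hi, hj⟩ := hPAR κ K S d m i k j l ⟨a2, a1, a3, a4.symm, a6, a5⟩ h1 h3 h2 h4
    e5 he5 e4 he4
  have hL : LamI m (cr i j k l) := LamI_cr m i j k l h h1 h2 h3 h4
  have hL' : LamI i (cr m j k l) := LamI_cr i m j k l h' h1.symm a1 a2 a3
  have r1 := hRAT κ K e e5 (d.kf m) hi (X (cr i j k l)) (d.a (cr i j k l))
    (d.KI_of_mem (hX.mem m _ hL)) (d.KI_of_mem (d.a_mem_kf hL)) (hX.ne _ hL.1) (d.a_ne _ hL.1)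
  have r2 := hRAT κ K e e4 (d.kf i) hj (X (cr m j k l)) (d.a (cr m j k l))
    (d.KI_of_mem (hX.mem i _ hL')) (d.KI_of_mem (d.a_mem_kf hL')) (hX.ne _ hL'.1) (d.a_ne _ hL'.1)
  rw [va i j k l h e (Or.inr he), va i j k l h e5 he5] at r1
  rw [va m j k l h' e (Or.inr he), va m j k l h' e4 he4] at r2
  have r3 : e.v (X (cr i j k l)) = e.v (X (cr m j k l)) := by
    rw [cr_diff i j k l m, hX.add _ _ hL'.1 (Lam_cr i j k m h''),
      e.v_mul (hX.ne _ hL'.1) (hX.ne _ (Lam_cr i j k m h''))]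
    have : e.v (X (cr i j k m)) = 0 := by
      by_contra h0
      rcases hSUP κ K S d X hX i j k m h'' e (d.D_sub k l he) h0 with h5 | h5 | h5 | h5 <;>
      · rcases d.label_unique he h5 with ⟨b1, b2⟩ | ⟨b1, b2⟩
        all_goals first
          | exact a2 b1.symm
          | exact a4 b1.symm
          | exact h3 b1.symm
          | exact h4 b2.symm
          | exact a5 b2.symm
          | exact a3 b2.symm
    rw [this, add_zero]
  have hw := d.w_pos e
  apply mul_right_cancel₀ hw.ne'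
  calc e5.v (X (cr i j k l)) * d.w e4 * d.w e = (e5.v (X (cr i j k l)) * d.w e) * d.w e4 := by ring
    _ = (e.v (X (cr i j k l)) * d.w e5) * d.w e4 := by rw [r1]
    _ = (e.v (X (cr m j k l)) * d.w e4) * d.w e5 := by rw [r3]; ring
    _ = (e4.v (X (cr m j k l)) * d.w e) * d.w e5 := by rw [r2]
    _ = _ := by ring

/-- the proportionality on the zeros -/
def P (d : Dat S) (X : (Fin 5 → Fin 5 → ℤ) → K) (r s : ℤ) (i j k l : Fin 5) : Prop :=
  ∀ e, (e ∈ d.D i j ∨ e ∈ d.D k l) → r * e.v (X (cr i j k l)) = s * d.w e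

omit [IsAlgClosed κ] in
theorem P_sym1 {r s : ℤ} {i j k l : Fin 5} (h : P d X r s i j k l) : P d X r s j i l k := by
  intro e he
  rw [← cr_sym1]
  apply h
  rw [d.D_symm i j, d.D_symm k l]
  exact he

omit [IsAlgClosed κ] in
theorem P_sym2 {r s : ℤ} {i j k l : Fin 5} (h : P d X r s i j k l) : P d X r s k l i j := by
  intro e he
  rw [← cr_sym2]
  exact h e he.symm

theorem P_step (hRAT : Stmt_RAT) (hPAR : Stmt_PAR) (hSUP : Stmt_SUP) (hX : Sol d X)
    (hne : ∀ i j, i ≠ j → ∃ e, e ∈ d.D i j) {r s : ℤ}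
    {i j k l m : Fin 5} (h : Dist i j k l) (h1 : m ≠ i) (h2 : m ≠ j) (h3 : m ≠ k) (h4 : m ≠ l)
    (hP : P d X r s i j k l) : P d X r s m j k l := by
  intro e4 he4
  obtain ⟨e5, he5⟩ := hne i j h.1
  have h5 := claimB hRAT hPAR hSUP hX i j k l m h h1 h2 h3 h4 e5 (Or.inl he5) e4 he4
  have h6 := hP e5 (Or.inl he5)
  apply mul_right_cancel₀ (d.w_pos e5).ne'
  calc r * e4.v (X (cr m j k l)) * d.w e5 = r * (e4.v (X (cr m j k l)) * d.w e5) := by ring
    _ = (r * e5.v (X (cr i j k l))) * d.w e4 := by rw [← h5]; ring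
    _ = _ := by rw [h6]; ring

/-- the same for a permutation -/
def T (d : Dat S) (X : (Fin 5 → Fin 5 → ℤ) → K) (r s : ℤ) (σ : Equiv.Perm (Fin 5)) : Prop :=
  P d X r s (σ 0) (σ 1) (σ 2) (σ 3)

theorem T_move (hRAT : Stmt_RAT) (hPAR : Stmt_PAR) (hSUP : Stmt_SUP) (hX : Sol d X)
    (hne : ∀ i j, i ≠ j → ∃ e, e ∈ d.D i j) {r s : ℤ} (σ : Equiv.Perm (Fin 5)) (a : Fin 5)
    (h : T d X r s σ) : T d X r s (σ * Equiv.swap a 4) := by
  have ne : ∀ x y : Fin 5, x ≠ y → σ x ≠ σ y := fun x y h => σ.injective.ne h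
  have step := fun i j k l m (h : Dist i j k l) h1 h2 h3 h4 =>
    P_step hRAT hPAR hSUP hX hne (r := r) (s := s) (i := i) (j := j) (k := k) (l := l) (m := m)
      h h1 h2 h3 h4
  unfold T at h ⊢
  simp only [Equiv.Perm.mul_apply]
  fin_cases a
  · have e0 : Equiv.swap (0 : Fin 5) 4 0 = 4 := by decide
    have e1 : Equiv.swap (0 : Fin 5) 4 1 = 1 := by decide
    have e2 : Equiv.swap (0 : Fin 5) 4 2 = 2 := by decide
    have e3 : Equiv.swap (0 : Fin 5) 4 3 = 3 := by decide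
    simp only [Fin.zero_eta, e0, e1, e2, e3]
    exact step _ _ _ _ _ (dist_perm σ 0 1 2 3 (by decide)) (ne _ _ (by decide))
      (ne _ _ (by decide)) (ne _ _ (by decide)) (ne _ _ (by decide)) h
  · have e0 : Equiv.swap (1 : Fin 5) 4 0 = 0 := by decide
    have e1 : Equiv.swap (1 : Fin 5) 4 1 = 4 := by decide
    have e2 : Equiv.swap (1 : Fin 5) 4 2 = 2 := by decide
    have e3 : Equiv.swap (1 : Fin 5) 4 3 = 3 := by decide
    simp only [Fin.mk_one, e0, e1, e2, e3]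
    exact P_sym1 (step _ _ _ _ _ (dist_perm σ 1 0 3 2 (by decide)) (ne _ _ (by decide))
      (ne _ _ (by decide)) (ne _ _ (by decide)) (ne _ _ (by decide)) (P_sym1 h))
  · have e0 : Equiv.swap (2 : Fin 5) 4 0 = 0 := by decide
    have e1 : Equiv.swap (2 : Fin 5) 4 1 = 1 := by decide
    have e2 : Equiv.swap (2 : Fin 5) 4 2 = 4 := by decide
    have e3 : Equiv.swap (2 : Fin 5) 4 3 = 3 := by decide
    simp only [Fin.reduceFinMk, e0, e1, e2, e3]
    exact P_sym2 (step _ _ _ _ _ (dist_perm σ 2 3 0 1 (by decide)) (ne _ _ (by decide))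
      (ne _ _ (by decide)) (ne _ _ (by decide)) (ne _ _ (by decide)) (P_sym2 h))
  · have e0 : Equiv.swap (3 : Fin 5) 4 0 = 0 := by decide
    have e1 : Equiv.swap (3 : Fin 5) 4 1 = 1 := by decide
    have e2 : Equiv.swap (3 : Fin 5) 4 2 = 2 := by decide
    have e3 : Equiv.swap (3 : Fin 5) 4 3 = 4 := by decide
    simp only [Fin.reduceFinMk, e0, e1, e2, e3]
    exact P_sym1 (P_sym2 (step _ _ _ _ _ (dist_perm σ 3 2 1 0 (by decide)) (ne _ _ (by decide))
      (ne _ _ (by decide)) (ne _ _ (by decide)) (ne _ _ (by decide)) (P_sym1 (P_sym2 h))))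
  · have e0 : Equiv.swap (4 : Fin 5) 4 0 = 0 := by decide
    have e1 : Equiv.swap (4 : Fin 5) 4 1 = 1 := by decide
    have e2 : Equiv.swap (4 : Fin 5) 4 2 = 2 := by decide
    have e3 : Equiv.swap (4 : Fin 5) 4 3 = 3 := by decide
    simp only [Fin.reduceFinMk, e0, e1, e2, e3]
    exact h

theorem T_all (hRAT : Stmt_RAT) (hPAR : Stmt_PAR) (hSUP : Stmt_SUP) (hX : Sol d X)
    (hne : ∀ i j, i ≠ j → ∃ e, e ∈ d.D i j) {r s : ℤ} (h : T d X r s 1)
    (σ : Equiv.Perm (Fin 5)) : T d X r s σ := by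
  have mv := fun σ a => T_move hRAT hPAR hSUP hX hne (r := r) (s := s) σ a
  induction σ using Equiv.Perm.swap_induction_on' with
  | one => exact h
  | mul_swap f x y hxy hf =>
    by_cases hx : x = 4
    · rw [hx, Equiv.swap_comm]
      exact mv _ _ hf
    · by_cases hy : y = 4
      · rw [hy]
        exact mv _ _ hf
      · rw [swap_eq x y hxy hx hy, ← mul_assoc, ← mul_assoc]
        exact mv _ _ (mv _ _ (mv _ _ hf))

theorem P_all (hRAT : Stmt_RAT) (hPAR : Stmt_PAR) (hSUP : Stmt_SUP) (hX : Sol d X)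
    (hne : ∀ i j, i ≠ j → ∃ e, e ∈ d.D i j) {r s : ℤ} (h : P d X r s 0 1 2 3)
    (i j k l : Fin 5) (hd : Dist i j k l) : P d X r s i j k l := by
  have hm : ∃ m : Fin 5, m ≠ i ∧ m ≠ j ∧ m ≠ k ∧ m ≠ l := by
    revert i j k l
    decide
  obtain ⟨m, h1, h2, h3, h4⟩ := hm
  obtain ⟨σ, s0, s1, s2, s3, -⟩ := exists_perm m i j k l hd h1 h2 h3 h4
  have := T_all hRAT hPAR hSUP hX hne (r := r) (s := s) h σ
  unfold T at this
  rw [s0, s1, s2, s3] at this
  exact this

theorem final (hRAT : Stmt_RAT) (hPAR : Stmt_PAR) (hSUP : Stmt_SUP) (hX : Sol d X)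
    (hne : ∀ i j, i ≠ j → ∃ e, e ∈ d.D i j) {r s : ℤ} (h : P d X r s 0 1 2 3)
    (i j k l : Fin 5) (hd : Dist i j k l) (e : DV κ K) (he : e ∈ S.PP) :
    r * e.v (X (cr i j k l)) = s * e.v (d.a (cr i j k l)) := by
  have hL := Lam_cr i j k l hd
  have hP := P_all hRAT hPAR hSUP hX hne h
  by_cases h1 : e ∈ d.D i j ∨ e ∈ d.D k l
  · rw [hP i j k l hd e h1, va i j k l hd e h1]
  by_cases h2 : e ∈ d.D i k ∨ e ∈ d.D j l
  · have hd' : Dist i k j l := by
      obtain ⟨a1, a2, a3, a4, a5, a6⟩ := hd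
      exact ⟨a2, a1, a3, a4.symm, a6, a5⟩
    have h3 := hP i k j l hd' e h2
    have h4 := va i k j l hd' e h2
    rw [cr_neg, d.a_neg hL, e.v_inv (d.a_ne _ hL)] at h4
    rw [cr_neg, hX.toOut.isMul.neg hL, e.v_inv (hX.ne _ hL), ← h4] at h3
    linarith
  · rw [not_or] at h1 h2
    have h3 : e.v (X (cr i j k l)) = 0 := by
      by_contra h0
      rcases hSUP κ K S d X hX i j k l hd e he h0 with h5 | h5 | h5 | h5
      · exact h1.1 h5
      · exact h1.2 h5
      · exact h2.1 h5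
      · exact h2.2 h5
    have h4 : e.v (d.a (cr i j k l)) = 0 := by
      by_cases h5 : ∀ a b, e ∉ d.D a b
      · exact d.ord_0 _ hL e he h5
      · push Not at h5
        obtain ⟨a, b, hab⟩ := h5
        rw [d.ord_D _ hL a b e hab]
        have z : ∀ x y, e ∉ d.D x y → E x y a b = 0 := by
          intro x y hxy
          unfold E
          rw [if_neg]
          rintro (⟨rfl, rfl⟩ | ⟨rfl, rfl⟩)
          · exact hxy hab
          · rw [d.D_symm] at hab
            exact hxy hab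
        have : cr i j k l a b = 0 := by
          change E i j a b + E k l a b - E i k a b - E j l a b = 0
          rw [z _ _ h1.1, z _ _ h1.2, z _ _ h2.1, z _ _ h2.2]
          rfl
        rw [this, zero_mul]
    rw [h3, h4, mul_zero, mul_zero]

end

end PRO_

open Pool.Agent.CPU.PRO_ in
theorem pro_proof (hGLB : CPT.Stmt_GLB) (hNEM : CPT.Stmt_NEM) (hRAT : CPT.Stmt_RAT)
    (hPAR : CPT.Stmt_PAR) (hSUP : Stmt_SUP) : Stmt_PRO := by
  intro κ K _ _ _ _ S d X hS hX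
  have hne := hNEM κ K S d hS
  obtain ⟨e0, he0⟩ := hne 0 1 (by decide)
  have hd : Dist (0 : Fin 5) 1 2 3 := by decide
  have hd4 : Dist (4 : Fin 5) 1 2 3 := by decide
  set r := d.w e0 with hr
  set s := e0.v (X (cr 0 1 2 3)) with hs
  have hr0 : 0 < r := d.w_pos e0
  have hP4 : P d X r s 4 1 2 3 := by
    intro e4 he4
    have := claimB hRAT hPAR hSUP hX 0 1 2 3 4 hd (by decide) (by decide) (by decide) (by decide)
      e0 (Or.inl he0) e4 he4
    linarith
  have hP : P d X r s 0 1 2 3 :=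
    P_step hRAT hPAR hSUP hX hne hd4 (by decide) (by decide) (by decide) (by decide) hP4
  have hF := final hRAT hPAR hSUP hX hne hP
  have hL := Lam_cr 0 1 2 3 hd
  have hL1 := Lam_cr 0 3 2 1 (by decide)
  have hx := hX.ne _ hL
  have hx1 := hX.ne _ hL1
  have hs0 : 0 < s := by
    rcases lt_trichotomy s 0 with h | h | h
    · exfalso
      obtain ⟨σ, τ, hσ, hτ, h1⟩ := hX.plu 0 1 2 3 hd
      have vs : ∀ (u f : K), Sg u → f ≠ 0 → u * f ≠ 0 ∧ e0.v (u * f) = e0.v f := by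
        intro u f hu hf
        rcases hu with rfl | rfl
        · rw [one_mul]
          exact ⟨hf, rfl⟩
        · rw [neg_one_mul]
          exact ⟨neg_ne_zero.2 hf, e0.v_neg _ hf⟩
      obtain ⟨k1, k2⟩ := vs σ _ hσ hx
      obtain ⟨k3, k4⟩ := vs τ _ hτ hx1
      have h2 : τ * X (cr 0 3 2 1) = -(σ * X (cr 0 1 2 3)) + 1 := by
        rw [← h1]
        ring
      have h3 := e0.v_add_of_lt (neg_ne_zero.2 k1) one_ne_zero (by
        rw [e0.v_neg _ k1, k2, e0.v_one]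
        exact h)
      rw [← h2, e0.v_neg _ k1, k2, k4] at h3
      have h4 : e0.v (X (cr 0 3 2 1)) ≠ 0 := by
        rw [h3.2]
        exact h.ne
      rcases hSUP κ K S d X hX 0 3 2 1 (by decide) e0 (d.D_sub _ _ he0) h4 with h5 | h5 | h5 | h5 <;>
      · have h6 := d.label_unique he0 h5
        revert h6
        decide
    · exfalso
      obtain ⟨c, hc⟩ := hGLB κ K S (X (cr 0 1 2 3)) (fun e he => by
        right
        have h1 := hF 0 1 2 3 hd e he
        rw [h, zero_mul] at h1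
        rcases mul_eq_zero.1 h1 with h2 | h2
        · exact absurd h2 hr0.ne'
        · rw [h2])
      exact hX.ncon 0 1 2 3 hd c hc
    · exact h
  refine ⟨r.toNat, s.toNat, by omega, by omega, fun i j k l h e he => ?_⟩
  rw [Int.toNat_of_nonneg hr0.le, Int.toNat_of_nonneg hs0.le]
  exact hF i j k l h e he

end Pool.Agent.CPU
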