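import Pool.Agent.CPU.StmtsE

/-!
# CPU, module ROT: extracting `p`-th roots
-/

set_option autoImplicit false

noncomputable section

namespace Pool.Agent.CPU

open Pool.Agent Pool.Agent.CPT

namespace ROT_

theorem pow_inj {K : Type} [Field K] (p : ℕ) [Fact p.Prime] [CharP K p] {a b : K}
    (h : a ^ p = b ^ p) : a = b :=
  frobenius_inj K p (by simpa [frobenius_def] using h)

theorem sg_pow {K : Type} [Field K] (p : ℕ) [Fact p.Prime] [CharP K p] {s : K} (hs : Sg s) :
    s ^ p = s := by
  rcases hs with rfl | rfl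
  · exact one_pow p
  · haveI : ExpChar K p := ExpChar.prime Fact.out
    have h := sub_pow_expChar (R := K) (p := p) 0 1
    rw [zero_sub, zero_pow (Fact.out : p.Prime).ne_zero, one_pow, zero_sub] at h
    exact h

theorem exists_dist (i j : Fin 5) (h : i ≠ j) : ∃ k l, Dist i j k l := by
  revert i j
  decide

theorem cr_entry (i j k l : Fin 5) (h : Dist i j k l) : cr i j k l i j = 1 := by
  revert i j k l
  decide

variable {κ K : Type} [Field κ] [IsAlgClosed κ] [Field K] [Algebra κ K] {S : Surf κ K}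

theorem v_pow (e : DV κ K) {f : K} (hf : f ≠ 0) (p : ℕ) : e.v (f ^ p) = p * e.v f := by
  have h1 : e.v (1 : K) = 0 := by
    have h := e.map_mul 1 1 one_ne_zero one_ne_zero
    rw [mul_one] at h
    omega
  induction p with
  | zero => simp [h1]
  | succ p ih =>
    rw [pow_succ, e.map_mul _ _ (pow_ne_zero _ hf) hf, ih]
    push_cast
    ring

theorem step (p : ℕ) [Fact p.Prime] [CharP κ p] (d : Dat S) (i j k l : Fin 5)
    (hd : Dist i j k l) (e : DV κ K) (he : e ∈ d.D i j) :
    ∀ (m : ℕ) (X : (Fin 5 → Fin 5 → ℤ) → K), Out X →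
      (∀ i j k l, Dist i j k l → ∀ c : κ, X (cr i j k l) ≠ algebraMap κ K c) →
      (∃ r s : ℕ, 0 < r ∧ 0 < s ∧ ∀ n, Lam n → ∀ e ∈ S.PP,
        (r : ℤ) * e.v (X n) = (s : ℤ) * e.v (d.a n)) →
      (e.v (X (cr i j k l))).natAbs ≤ m →
      ∃ X' : (Fin 5 → Fin 5 → ℤ) → K, Out X' ∧
        (∀ i j k l, Dist i j k l → ∀ c : κ, X' (cr i j k l) ≠ algebraMap κ K c) ∧
        (∃ r s : ℕ, 0 < r ∧ 0 < s ∧ ∀ n, Lam n → ∀ e ∈ S.PP,
          (r : ℤ) * e.v (X' n) = (s : ℤ) * e.v (d.a n)) ∧
        ∃ i j k l, Dist i j k l ∧ ¬ ∃ f : K, f ^ p = X' (cr i j k l) := by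
  classical
  haveI : CharP K p := charP_of_injective_algebraMap (algebraMap κ K).injective p
  haveI : ExpChar K p := ExpChar.prime Fact.out
  have hp0 : p ≠ 0 := (Fact.out : p.Prime).ne_zero
  have hp2 : 2 ≤ p := (Fact.out : p.Prime).two_le
  have hn0 : Lam (cr i j k l) := Lam_cr i j k l hd
  intro m
  induction m with
  | zero =>
    intro X hX hnc hr hm
    exfalso
    obtain ⟨r, s, hr0, hs0, hrs⟩ := hr
    have h1 := hrs _ hn0 e (d.D_sub i j he)
    have h2 : e.v (X (cr i j k l)) = 0 := by omega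
    rw [h2, d.ord_D _ hn0 i j e he, cr_entry i j k l hd] at h1
    have h3 := d.w_pos e
    have h4 : (0 : ℤ) < s := by exact_mod_cast hs0
    have h5 : (0 : ℤ) < s * (1 * d.w e) := by positivity
    rw [← h1] at h5
    omega
  | succ m ih =>
    intro X hX hnc hr hm
    by_cases hall : ∃ i j k l, Dist i j k l ∧ ¬ ∃ f : K, f ^ p = X (cr i j k l)
    · exact ⟨X, hX, hnc, hr, hall⟩
    · push Not at hall
      -- all values are p-th powers
      have hsq : ∀ n, Lam n → ∃ f : K, f ^ p = X n := by
        intro n hn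
        have hpow : ∀ (f : K) (c : ℤ), (f ^ c) ^ p = (f ^ p) ^ c := by
          intro f c
          rw [← zpow_natCast, ← zpow_mul, mul_comm, zpow_mul, zpow_natCast]
        obtain ⟨f1, h1⟩ := hall 0 3 1 2 (by decide)
        obtain ⟨f2, h2⟩ := hall 0 2 1 3 (by decide)
        obtain ⟨f3, h3⟩ := hall 0 4 1 2 (by decide)
        obtain ⟨f4, h4⟩ := hall 0 2 1 4 (by decide)
        obtain ⟨f5, h5⟩ := hall 0 2 4 3 (by decide)
        refine ⟨f1 ^ n 0 3 * f2 ^ n 1 3 * f3 ^ (n 0 4 + n 3 4) * f4 ^ n 1 4 * f5 ^ n 3 4, ?_⟩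
        rw [hX.isMul.basis hn, ← h1, ← h2, ← h3, ← h4, ← h5]
        rw [mul_pow, mul_pow, mul_pow, mul_pow, hpow, hpow, hpow, hpow, hpow]
      let X' : (Fin 5 → Fin 5 → ℤ) → K := fun n =>
        if h : ∃ f : K, f ^ p = X n then h.choose else 0
      have hX' : ∀ n, Lam n → X' n ^ p = X n := by
        intro n hn
        have h := hsq n hn
        have h1 : X' n = h.choose := dif_pos h
        rw [h1]
        exact h.choose_spec
      have hne : ∀ n, Lam n → X' n ≠ 0 := by
        intro n hn h0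
        have h1 := hX' n hn
        rw [h0, zero_pow hp0] at h1
        exact hX.ne n hn h1.symm
      have hout : Out X' := by
        refine ⟨hne, ?_, ?_⟩
        · intro a b ha hb
          apply pow_inj p
          rw [mul_pow, hX' _ (Lam_add ha hb), hX' a ha, hX' b hb]
          exact hX.add a b ha hb
        · intro i j k l hd'
          obtain ⟨s, t, hs, ht, hst⟩ := hX.plu i j k l hd'
          refine ⟨s, t, hs, ht, ?_⟩
          apply pow_inj p
          rw [add_pow_expChar, mul_pow, mul_pow, hX' _ (Lam_cr i j k l hd'),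
            hX' _ (Lam_cr i l k j (dist_rot hd')), sg_pow p hs, sg_pow p ht, one_pow]
          exact hst
      have hv : ∀ n, Lam n → ∀ e : DV κ K, e.v (X n) = p * e.v (X' n) := by
        intro n hn e
        rw [← hX' n hn, v_pow e (hne n hn)]
      refine ih X' hout ?_ ?_ ?_
      · intro i j k l hd' c hc
        apply hnc i j k l hd' (c ^ p)
        rw [← hX' _ (Lam_cr i j k l hd'), hc, map_pow]
      · obtain ⟨r, s, hr0, hs0, hrs⟩ := hr
        refine ⟨p * r, s, Nat.mul_pos (Nat.pos_of_ne_zero hp0) hr0, hs0, fun n hn e' he' => ?_⟩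
        rw [← hrs n hn e' he', hv n hn e']
        push_cast
        ring
      · -- the value is divided by p
        obtain ⟨r, s, hr0, hs0, hrs⟩ := hr
        have h1 := hrs _ hn0 e (d.D_sub i j he)
        rw [d.ord_D _ hn0 i j e he, cr_entry i j k l hd] at h1
        have h3 := d.w_pos e
        have h4 : (0 : ℤ) < s := by exact_mod_cast hs0
        have h5 : (0 : ℤ) < s * (1 * d.w e) := by positivity
        rw [← h1] at h5
        have h6 : e.v (X (cr i j k l)) ≠ 0 := by
          intro h0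
          rw [h0, mul_zero] at h5
          exact lt_irrefl _ h5
        have h7 := hv _ hn0 e
        rw [h7, Int.natAbs_mul, Int.natAbs_natCast] at hm
        have h8 : e.v (X' (cr i j k l)) ≠ 0 := by
          intro h0
          rw [h0, mul_zero] at h7
          exact h6 h7
        have h9 : 0 < (e.v (X' (cr i j k l))).natAbs := Int.natAbs_pos.mpr h8
        nlinarith

end ROT_

open ROT_ in
theorem rot_proof : Stmt_ROT := by
  intro p _ κ K _ _ _ _ _ S d hex X hX hnc hr
  obtain ⟨i, j, e, he⟩ := hex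
  have hij : i ≠ j := by
    rintro rfl
    rw [d.D_diag i] at he
    exact he
  obtain ⟨k, l, hd⟩ := exists_dist i j hij
  exact step p d i j k l hd e he _ X hX hnc hr le_rfl

end Pool.Agent.CPU
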