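import Pool.Agent.CPU.Stmts
import Pool.Agent.CPT.SLA
import Pool.Agent.CPU.GEX

set_option autoImplicit false

/-!
# CPU, module SLA: the algebraic solution when the independent pencils are `4` and `3`
-/

noncomputable section

namespace Pool.Agent.CPU

open Pool.Agent.CPT Pool.Agent.CPT.SLA_

namespace SLA_

section dl
variable {K : Type} [Field K] {L : Subfield K} {D : K → K}

theorem dl_mul (hD : DerOn L D) {f g : K} (hf : f ∈ L) (hg : g ∈ L) (f0 : f ≠ 0) (g0 : g ≠ 0) :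
    D (f * g) / (f * g) = D f / f + D g / g := by
  rw [hD.mul f hf g hg]
  field_simp
  ring

theorem dl_div (hD : DerOn L D) {f g : K} (hf : f ∈ L) (hg : g ∈ L) (f0 : f ≠ 0) (g0 : g ≠ 0) :
    D (f / g) / (f / g) = D f / f - D g / g := by
  have h := dl_mul hD (L.div_mem hf hg) hg (div_ne_zero f0 g0) g0
  rw [div_mul_cancel₀ _ g0] at h
  rw [h, add_sub_cancel_right]

theorem dl_pow (hD : DerOn L D) {f : K} (hf : f ∈ L) (f0 : f ≠ 0) (t : ℕ) :
    D (f ^ t) / f ^ t = t * (D f / f) := by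
  rw [GEX_.der_pow hD hf]
  cases t with
  | zero => simp
  | succ t =>
    simp only [Nat.add_sub_cancel]
    field_simp
    ring

end dl

section sg
variable {K : Type} [Field K]

theorem sg_mul {s t : K} (hs : Sg s) (ht : Sg t) : Sg (s * t) := by
  rcases hs with rfl | rfl <;> rcases ht with rfl | rfl <;> simp [Sg]

theorem sg_sq {s : K} (hs : Sg s) : s * s = 1 := by
  rcases hs with rfl | rfl <;> simp

theorem XX_E (x y : K) (a b : Fin 5) (hab : a ≠ b) :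
    ∃ s : K, Sg s ∧ s * XX x y (E a b) = uu x y a * vv b - uu x y b * vv a := by
  fin_cases a <;> fin_cases b <;>
    first
    | exact absurd rfl hab
    | (refine ⟨1, Or.inl rfl, ?_⟩
       simp [XX, E, uu, vv]
       done)
    | (refine ⟨-1, Or.inr rfl, ?_⟩
       simp [XX, E, uu, vv])

theorem XX_plu {x y : K} (hx : x ≠ 0) (hy : y ≠ 0) (hx1 : 1 - x ≠ 0) (hy1 : 1 - y ≠ 0)
    (hxy : x - y ≠ 0) (i j k l : Fin 5) (h : Dist i j k l) :
    ∃ s t : K, Sg s ∧ Sg t ∧ s * XX x y (cr i j k l) + t * XX x y (cr i l k j) = 1 := by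
  obtain ⟨h1, h3, h4, h5, h6, h7⟩ := h
  obtain ⟨s1, g1, e1⟩ := XX_E x y i j h1
  obtain ⟨s2, g2, e2⟩ := XX_E x y k l h7
  obtain ⟨s3, g3, e3⟩ := XX_E x y i l h4
  obtain ⟨s4, g4, e4⟩ := XX_E x y k j h5.symm
  obtain ⟨s5, g5, e5⟩ := XX_E x y i k h3
  obtain ⟨s6, g6, e6⟩ := XX_E x y j l h6
  have N1 := XX_ne hx hy hx1 hy1 hxy (E i k)
  have N2 := XX_ne hx hy hx1 hy1 hxy (E j l)
  have f1 : XX x y (cr i j k l) = XX x y (E i j) * XX x y (E k l) /
      (XX x y (E i k) * XX x y (E j l)) := by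
    unfold cr
    rw [XX_sub hx hy hx1 hy1 hxy, XX_sub hx hy hx1 hy1 hxy, XX_add hx hy hx1 hy1 hxy, div_div]
  have f2 : XX x y (cr i l k j) = XX x y (E i l) * XX x y (E k j) /
      (XX x y (E i k) * XX x y (E j l)) := by
    have e3 : E l j = E j l := E_symm l j
    unfold cr
    rw [XX_sub hx hy hx1 hy1 hxy, XX_sub hx hy hx1 hy1 hxy, XX_add hx hy hx1 hy1 hxy, div_div, e3]
  have P : (s1 * XX x y (E i j)) * (s2 * XX x y (E k l)) -
      (s3 * XX x y (E i l)) * (s4 * XX x y (E k j)) =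
      (s5 * XX x y (E i k)) * (s6 * XX x y (E j l)) := by
    rw [e1, e2, e3, e4, e5, e6]
    ring
  refine ⟨s1 * s2 * (s5 * s6), -(s3 * s4) * (s5 * s6), sg_mul (sg_mul g1 g2) (sg_mul g5 g6), ?_, ?_⟩
  · have hm : Sg (-(s3 * s4)) := by
      rcases sg_mul g3 g4 with h | h <;> rw [h] <;> simp [Sg]
    exact sg_mul hm (sg_mul g5 g6)
  · rw [f1, f2]
    have q := sg_sq (sg_mul g5 g6)
    field_simp
    linear_combination (s5 * s6) * P + (XX x y (E i k) * XX x y (E j l)) * q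

end sg

section pencil
variable {κ K : Type} [Field κ] [Field K] [Algebra κ K] {S : Surf κ K} (d : Dat S)

/-- the logarithmic derivative of one pencil -/
theorem pencil {p : ℕ} [Fact p.Prime] [IsAlgClosed κ] [CharP κ p] [CharP K p]
    (hPBK : Stmt_PBK) (hGEX : Stmt_GEX) (hNS : NS p d) (i j k l m : Fin 5) (hd : Dist j k l m)
    (h1 : i ≠ j) (h2 : i ≠ k) (h3 : i ≠ l) (h4 : i ≠ m) :
    ∃ g ∈ d.kf i, (∀ D : K → K, DerOn d.LL.toSubfield D →
      D (d.a (cr j m l k)) / d.a (cr j m l k) =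
        g * (D (d.a (cr j k l m)) / d.a (cr j k l m))) ∧ g ≠ 0 ∧ g ≠ 1 ∧
      (∀ z ∈ d.kf i, g = z ^ p → ∃ t : ℕ, g = (t : K) ∧
        ∃ c ∈ d.kf i, d.a (cr j m l k) = c ^ p * d.a (cr j k l m) ^ t) := by
  have c1 := Lam_cr j k l m hd
  have c2 := Lam_cr j m l k (dist_rot hd)
  have I1 := LamI_cr i j k l m hd h1 h2 h3 h4
  have I2 := LamI_cr i j m l k (dist_rot hd) h1 h4 h3 h2
  have hd3 : Dist j k m l := ⟨hd.1, hd.2.2.1, hd.2.1, hd.2.2.2.2.1, hd.2.2.2.1, hd.2.2.2.2.2.symm⟩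
  have n1 := hNS i j k l m hd h1 h2 h3 h4
  have n2 := hNS i j m l k (dist_rot hd) h1 h4 h3 h2
  have n3 := hNS i j k m l hd3 h1 h2 h4 h3
  have e3 : cr j k m l = cr j k l m - cr j m l k := by
    unfold cr
    rw [E_symm m l, E_symm m k, E_symm k l]
    abel
  have q : d.a (cr j k m l) = d.a (cr j k l m) / d.a (cr j m l k) := by
    rw [e3, d.a_sub c1 c2]
  have b0 := d.a_ne _ c1
  have b0' := d.a_ne _ c2
  obtain ⟨g, hg, hgD, hg2, hg3⟩ := hGEX p K (d.kf i).toSubfield (d.a (cr j k l m))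
    (d.a (cr j m l k)) (d.a_mem_kf I1) (d.a_mem_kf I2) b0' n1
    (hPBK p κ K S d i _ (d.a_mem_kf I1) n1)
  refine ⟨g, hg, ?_, ?_, ?_, ?_⟩
  · intro D hD
    have h := hgD d.LL.toSubfield (d.kf_le_LL i) D hD
    rw [mul_div_assoc', div_eq_div_iff b0' b0]
    linear_combination h
  · intro h0
    obtain ⟨c, hc, e⟩ := hg2 0 (by rw [h0, Nat.cast_zero])
    exact n2 ⟨c, hc, by rw [e, pow_zero, mul_one]⟩
  · intro h0
    obtain ⟨c, hc, e⟩ := hg2 1 (by rw [h0, Nat.cast_one])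
    rw [pow_one] at e
    refine n3 ⟨c⁻¹, inv_mem hc, ?_⟩
    have hc0 : c ^ p ≠ 0 := by
      intro h5
      rw [h5, zero_mul] at e
      exact b0' e
    rw [q, e, inv_pow]
    field_simp
  · intro z hz e
    obtain ⟨t, ht⟩ := hg3 z hz e
    exact ⟨t, ht, hg2 t ht⟩

/-- the logarithmic derivative in the case of a relation -/
theorem rel_dl {p : ℕ} [CharP K p] {i : Fin 5} {b b' c : K} {t : ℕ} (hb : b ∈ d.kf i)
    (hb0 : b ≠ 0) (hb0' : b' ≠ 0) (hc : c ∈ d.kf i) (e : b' = c ^ p * b ^ t) {D : K → K}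
    (hD : DerOn d.LL.toSubfield D) : D b' / b' = t * (D b / b) := by
  have hcL : c ∈ d.LL.toSubfield := d.kf_le_LL i hc
  have hbL : b ∈ d.LL.toSubfield := d.kf_le_LL i hb
  have hc0 : c ^ p ≠ 0 := by
    intro h5
    rw [h5, zero_mul] at e
    exact hb0' e
  rw [e, dl_mul hD (d.LL.toSubfield.pow_mem hcL p) (d.LL.toSubfield.pow_mem hbL t) hc0
    (pow_ne_zero t hb0), GEX_.der_p hD hcL, zero_div, zero_add, dl_pow hD hbL hb0]

/-- membership from two generators -/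
theorem mem_gen {X : (Fin 5 → Fin 5 → ℤ) → K} (hX : IsMul X) (F : IntermediateField κ K)
    (i j k l m : Fin 5) (hd : Dist j k l m)
    (h1 : i ≠ j) (h2 : i ≠ k) (h3 : i ≠ l) (h4 : i ≠ m)
    (e1 : X (cr j k l m) ∈ F) (e2 : X (cr j m l k) ∈ F) (n : Fin 5 → Fin 5 → ℤ) (hn : LamI i n) :
    X n ∈ F := by
  rw [hX.basisI i j k l m hd h1 h2 h3 h4 hn]
  exact mul_mem (zpow_mem e1 _) (zpow_mem e2 _)

end pencil

end SLA_

open SLA_

theorem sla_proof (hPBK : Stmt_PBK) (hGEX : Stmt_GEX) (hTRA : Stmt_TRA) (hWEB : Stmt_WEB) :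
    Stmt_SLA := by
  intro p _ κ K _ _ _ _ _ S d hP hNS hind
  have : CharP K p := charP_of_injective_algebraMap (algebraMap κ K).injective p
  obtain ⟨D₁, D₂, hD₁, hD₂, k1, k2, nb4, nb3⟩ := hind
  -- the functions of the five pencils
  obtain ⟨g, hg, eg, g0, g1, rg⟩ :=
    pencil d hPBK hGEX hNS 4 0 3 1 2 (by decide) (by decide) (by decide) (by decide) (by decide)
  obtain ⟨g', hg', eg', g0', g1', rg'⟩ :=
    pencil d hPBK hGEX hNS 3 0 4 1 2 (by decide) (by decide) (by decide) (by decide) (by decide)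
  obtain ⟨h, hh, eh, h0, h1, rh⟩ :=
    pencil d hPBK hGEX hNS 1 0 3 4 2 (by decide) (by decide) (by decide) (by decide) (by decide)
  obtain ⟨k, hk, ek, k0, k10, rk⟩ :=
    pencil d hPBK hGEX hNS 0 1 3 4 2 (by decide) (by decide) (by decide) (by decide) (by decide)
  obtain ⟨l, hl, el, l0, l1, rl⟩ :=
    pencil d hPBK hGEX hNS 2 0 3 4 1 (by decide) (by decide) (by decide) (by decide) (by decide)
  -- the functions `a`
  have L1 : Lam (cr 0 3 1 2) := Lam_cr _ _ _ _ (by decide)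
  have L2 : Lam (cr 0 2 1 3) := Lam_cr _ _ _ _ (by decide)
  have L3 : Lam (cr 0 4 1 2) := Lam_cr _ _ _ _ (by decide)
  have L4 : Lam (cr 0 2 1 4) := Lam_cr _ _ _ _ (by decide)
  have L5 : Lam (cr 0 2 4 3) := Lam_cr _ _ _ _ (by decide)
  have I1 : d.a (cr 0 3 1 2) ∈ d.kf 4 := d.a_mem_kf (LamI_cr 4 0 3 1 2 (by decide) (by decide)
    (by decide) (by decide) (by decide))
  have I2 : d.a (cr 0 2 1 3) ∈ d.kf 4 := d.a_mem_kf (LamI_cr 4 0 2 1 3 (by decide) (by decide)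
    (by decide) (by decide) (by decide))
  have I3 : d.a (cr 0 4 1 2) ∈ d.kf 3 := d.a_mem_kf (LamI_cr 3 0 4 1 2 (by decide) (by decide)
    (by decide) (by decide) (by decide))
  have I4 : d.a (cr 0 2 1 4) ∈ d.kf 3 := d.a_mem_kf (LamI_cr 3 0 2 1 4 (by decide) (by decide)
    (by decide) (by decide) (by decide))
  have n1 := hNS 4 0 3 1 2 (by decide) (by decide) (by decide) (by decide) (by decide)
  have n2 := hNS 4 0 2 1 3 (by decide) (by decide) (by decide) (by decide) (by decide)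
  have n3 := hNS 3 0 4 1 2 (by decide) (by decide) (by decide) (by decide) (by decide)
  have A0 := nb4 _ I1 n1
  have A0' := nb4 _ I2 n2
  have B0 := nb3 _ I3 n3
  have z13 := k1 _ I3
  have z13' := k1 _ I4
  have z24 := k2 _ I1
  have z24' := k2 _ I2
  have eqW : d.a (cr 0 3 4 2) = d.a (cr 0 3 1 2) / d.a (cr 0 4 1 2) := by
    rw [show cr 0 3 4 2 = cr 0 3 1 2 - cr 0 4 1 2 by decide, d.a_sub L1 L3]
  have eqZ : d.a (cr 1 3 4 2) = d.a (cr 0 2 1 3) / d.a (cr 0 2 1 4) := by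
    rw [show cr 1 3 4 2 = cr 0 2 1 3 - cr 0 2 1 4 by decide, d.a_sub L2 L4]
  have eqZ1 : d.a (cr 1 2 4 3) = d.a (cr 0 2 4 3) * d.a (cr 0 4 1 2) / d.a (cr 0 2 1 4) := by
    rw [show cr 1 2 4 3 = cr 0 2 4 3 + cr 0 4 1 2 - cr 0 2 1 4 by decide,
      d.a_sub (Lam_add L5 L3) L4, d.a_add _ _ L5 L3]
  have eqT : d.a (cr 0 3 4 1) = d.a (cr 0 3 1 2) * d.a (cr 0 2 1 4) /
      (d.a (cr 0 4 1 2) * d.a (cr 0 2 1 3)) := by
    rw [show cr 0 3 4 1 = (cr 0 3 1 2 + cr 0 2 1 4) - (cr 0 4 1 2 + cr 0 2 1 3) by decide,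
      d.a_sub (Lam_add L1 L4) (Lam_add L3 L2), d.a_add _ _ L1 L4, d.a_add _ _ L3 L2]
  have eqT1 : d.a (cr 0 1 4 3) = d.a (cr 0 2 4 3) / d.a (cr 0 2 1 3) := by
    rw [show cr 0 1 4 3 = cr 0 2 4 3 - cr 0 2 1 3 by decide, d.a_sub L5 L2]
  have hbm : ∀ n, Lam n → d.a n ∈ d.LL.toSubfield := fun n hn => d.a_mem_LL hn
  have M1 := hbm _ L1
  have M2 := hbm _ L2
  have M3 := hbm _ L3
  have M4 := hbm _ L4
  have M5 := hbm _ L5
  have N1 : d.a (cr 0 3 1 2) ≠ 0 := d.a_ne _ L1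
  have N2 : d.a (cr 0 2 1 3) ≠ 0 := d.a_ne _ L2
  have N3 : d.a (cr 0 4 1 2) ≠ 0 := d.a_ne _ L3
  have N4 : d.a (cr 0 2 1 4) ≠ 0 := d.a_ne _ L4
  have N5 : d.a (cr 0 2 4 3) ≠ 0 := d.a_ne _ L5
  -- logarithmic derivatives
  have dW : ∀ D : K → K, DerOn d.LL.toSubfield D → D (d.a (cr 0 3 4 2)) / d.a (cr 0 3 4 2) =
      D (d.a (cr 0 3 1 2)) / d.a (cr 0 3 1 2) - D (d.a (cr 0 4 1 2)) / d.a (cr 0 4 1 2) := by
    intro D hD
    rw [eqW, dl_div hD M1 M3 N1 N3]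
  have dZ : ∀ D : K → K, DerOn d.LL.toSubfield D → D (d.a (cr 1 3 4 2)) / d.a (cr 1 3 4 2) =
      D (d.a (cr 0 2 1 3)) / d.a (cr 0 2 1 3) - D (d.a (cr 0 2 1 4)) / d.a (cr 0 2 1 4) := by
    intro D hD
    rw [eqZ, dl_div hD M2 M4 N2 N4]
  have dZ1 : ∀ D : K → K, DerOn d.LL.toSubfield D → D (d.a (cr 1 2 4 3)) / d.a (cr 1 2 4 3) =
      D (d.a (cr 0 2 4 3)) / d.a (cr 0 2 4 3) + D (d.a (cr 0 4 1 2)) / d.a (cr 0 4 1 2) -
        D (d.a (cr 0 2 1 4)) / d.a (cr 0 2 1 4) := by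
    intro D hD
    rw [eqZ1, dl_div hD (Subfield.mul_mem _ M5 M3) M4 (mul_ne_zero N5 N3) N4,
      dl_mul hD M5 M3 N5 N3]
  have dT : ∀ D : K → K, DerOn d.LL.toSubfield D → D (d.a (cr 0 3 4 1)) / d.a (cr 0 3 4 1) =
      D (d.a (cr 0 3 1 2)) / d.a (cr 0 3 1 2) + D (d.a (cr 0 2 1 4)) / d.a (cr 0 2 1 4) -
        (D (d.a (cr 0 4 1 2)) / d.a (cr 0 4 1 2) + D (d.a (cr 0 2 1 3)) / d.a (cr 0 2 1 3)) := by
    intro D hD
    rw [eqT, dl_div hD (Subfield.mul_mem _ M1 M4) (Subfield.mul_mem _ M3 M2)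
      (mul_ne_zero N1 N4) (mul_ne_zero N3 N2), dl_mul hD M1 M4 N1 N4, dl_mul hD M3 M2 N3 N2]
  have dT1 : ∀ D : K → K, DerOn d.LL.toSubfield D → D (d.a (cr 0 1 4 3)) / d.a (cr 0 1 4 3) =
      D (d.a (cr 0 2 4 3)) / d.a (cr 0 2 4 3) - D (d.a (cr 0 2 1 3)) / d.a (cr 0 2 1 3) := by
    intro D hD
    rw [eqT1, dl_div hD M5 M2 N5 N2]
  obtain ⟨A, hA⟩ : ∃ A, A = D₁ (d.a (cr 0 3 1 2)) / d.a (cr 0 3 1 2) := ⟨_, rfl⟩
  obtain ⟨B, hB⟩ : ∃ B, B = D₂ (d.a (cr 0 4 1 2)) / d.a (cr 0 4 1 2) := ⟨_, rfl⟩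
  obtain ⟨C1, hC1⟩ : ∃ C1, C1 = D₁ (d.a (cr 0 2 4 3)) / d.a (cr 0 2 4 3) := ⟨_, rfl⟩
  obtain ⟨C2, hC2⟩ : ∃ C2, C2 = D₂ (d.a (cr 0 2 4 3)) / d.a (cr 0 2 4 3) := ⟨_, rfl⟩
  have An : A ≠ 0 := by rw [hA]; exact div_ne_zero A0 N1
  have Bn : B ≠ 0 := by rw [hB]; exact div_ne_zero B0 N3
  have G1 := eg D₁ hD₁
  have G2 := eg' D₂ hD₂
  have H1 := eh D₁ hD₁
  have H2 := eh D₂ hD₂
  have J1 := ek D₁ hD₁
  have J2 := ek D₂ hD₂
  have U1 := el D₁ hD₁
  have U2 := el D₂ hD₂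
  rw [← hA] at G1
  rw [← hB] at G2
  rw [dW D₁ hD₁, z13, zero_div, sub_zero, ← hA, ← hC1] at H1
  rw [dW D₂ hD₂, z24, zero_div, zero_sub, ← hB, ← hC2] at H2
  rw [dZ1 D₁ hD₁, dZ D₁ hD₁, z13, z13', G1, zero_div, zero_div, ← hC1] at J1
  rw [dZ1 D₂ hD₂, dZ D₂ hD₂, z24', G2, zero_div, ← hC2, ← hB] at J2
  rw [dT1 D₁ hD₁, dT D₁ hD₁, z13, z13', G1, zero_div, zero_div, ← hA, ← hC1] at U1
  rw [dT1 D₂ hD₂, dT D₂ hD₂, z24, z24', G2, zero_div, zero_div, ← hC2, ← hB] at U2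
  have E1 : h = k * g := by
    apply mul_right_cancel₀ An
    linear_combination J1 - H1
  have E2 : 1 - h = g' * (1 - k) := by
    apply mul_right_cancel₀ Bn
    linear_combination J2 - H2
  have E3 : h = l * (1 - g') := by
    apply mul_right_cancel₀ Bn
    linear_combination H2 - U2
  have E4 : h - g = l * (1 - g) := by
    apply mul_right_cancel₀ An
    linear_combination U1 - H1
  obtain ⟨x, hx⟩ : ∃ x, x = g / (g - 1) := ⟨_, rfl⟩
  obtain ⟨y, hy⟩ : ∃ y, y = g' / (g' - 1) := ⟨_, rfl⟩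
  obtain ⟨xy, h11, k11, l11, eW, eZ, eT⟩ := hWEB K g g' h k l g0 g1 g0' g1' E1 E2 E3 E4 x y hx hy
  have gs : ∀ z : K, z ≠ 1 → z - 1 ≠ 0 := fun z hz => sub_ne_zero.2 hz
  have ginv : ∀ z : K, z ≠ 1 → 1 - z / (z - 1) = -(z - 1)⁻¹ := by
    intro z hz
    have := gs z hz
    field_simp
    ring
  have x0 : x ≠ 0 := by rw [hx]; exact div_ne_zero g0 (gs g g1)
  have y0 : y ≠ 0 := by rw [hy]; exact div_ne_zero g0' (gs g' g1')
  have x10 : 1 - x ≠ 0 := by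
    rw [hx, ginv g g1]; exact neg_ne_zero.2 (inv_ne_zero (gs g g1))
  have y10 : 1 - y ≠ 0 := by
    rw [hy, ginv g' g1']; exact neg_ne_zero.2 (inv_ne_zero (gs g' g1'))
  have xy0 : x - y ≠ 0 := sub_ne_zero.2 xy
  -- no ratio is a natural number
  have T3 : ∀ t : ℕ, (∀ i' j' k' l' m' : Fin 5, Dist j' k' l' m' → i' ≠ j' → i' ≠ k' → i' ≠ l' →
      i' ≠ m' → ∃ c ∈ d.kf i', d.a (cr j' m' l' k') = c ^ p * d.a (cr j' k' l' m') ^ t) →
      False := by
    intro t r4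
    obtain ⟨c4, hc4, q4⟩ := r4 4 0 3 1 2 (by decide) (by decide) (by decide) (by decide)
      (by decide)
    obtain ⟨c1, hc1, q1⟩ := r4 1 0 3 4 2 (by decide) (by decide) (by decide) (by decide)
      (by decide)
    obtain ⟨c0, hc0, q0⟩ := r4 0 1 3 4 2 (by decide) (by decide) (by decide) (by decide)
      (by decide)
    have I5 : d.a (cr 0 3 4 2) ∈ d.kf 1 := d.a_mem_kf (LamI_cr 1 0 3 4 2 (by decide) (by decide)
      (by decide) (by decide) (by decide))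
    have I6 : d.a (cr 1 3 4 2) ∈ d.kf 0 := d.a_mem_kf (LamI_cr 0 1 3 4 2 (by decide) (by decide)
      (by decide) (by decide) (by decide))
    have w4 := rel_dl d I1 N1 N2 hc4 q4 hD₁
    have w1 := rel_dl d I5 (d.a_ne _ (Lam_cr _ _ _ _ (by decide))) N5 hc1 q1 hD₁
    have w0 := rel_dl d I6 (d.a_ne _ (Lam_cr _ _ _ _ (by decide)))
      (d.a_ne _ (Lam_cr _ _ _ _ (by decide))) hc0 q0 hD₁
    rw [← hA, G1] at w4
    rw [dW D₁ hD₁, z13, zero_div, sub_zero, ← hA, ← hC1] at w1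
    rw [dZ1 D₁ hD₁, dZ D₁ hD₁, z13, z13', G1, zero_div, zero_div, ← hC1] at w0
    have gt : g = t := mul_right_cancel₀ An w4
    have ht : h = t := by
      apply mul_right_cancel₀ An
      rw [← H1, w1]
    have kt : k = t := by
      apply mul_right_cancel₀ (mul_ne_zero g0 An)
      linear_combination w0 - J1
    rw [ht, kt, gt] at E1
    rw [gt] at g0 g1
    apply g1
    apply mul_right_cancel₀ g0
    rw [one_mul]
    exact E1.symm
  -- the solution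
  have hX : IsMul (XX x y) :=
    ⟨fun n _ => XX_ne x0 y0 x10 y10 xy0 n, fun m n _ _ => XX_add x0 y0 x10 y10 xy0 m n⟩
  have hp : p.Prime := Fact.out
  have nop : ∀ (i j k l m : Fin 5), Dist j k l m → i ≠ j → i ≠ k → i ≠ l → i ≠ m → ∀ r ∈ d.kf i,
      (∀ z ∈ d.kf i, r = z ^ p → ∃ t : ℕ, r = (t : K) ∧
        ∃ c ∈ d.kf i, d.a (cr j m l k) = c ^ p * d.a (cr j k l m) ^ t) →
      ∀ z ∈ d.kf i, r ≠ z ^ p := by
    intro i j k l m hd m1 m2 m3 m4 r _ hr z hz e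
    obtain ⟨t, -, ht⟩ := hr z hz e
    exact T3 t (hTRA p κ K S d hP t i j k l m hd m1 m2 m3 m4 ht)
  have key : ∀ i : Fin 5, ∃ j k l m, Dist j k l m ∧ i ≠ j ∧ i ≠ k ∧ i ≠ l ∧ i ≠ m ∧
      ∃ r ∈ d.kf i, r ≠ 1 ∧ (∀ z ∈ d.kf i, r ≠ z ^ p) ∧ XX x y (cr j k l m) = r / (r - 1) ∧
        ∃ s : K, Sg s ∧ XX x y (cr j m l k) = s * (1 - r / (r - 1)) := by
    intro i
    fin_cases i
    · refine ⟨1, 3, 4, 2, by decide, by decide, by decide, by decide, by decide, k, hk, k11,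
        nop 0 1 3 4 2 (by decide) (by decide) (by decide) (by decide) (by decide) k hk rk,
        ?_, 1, Or.inl rfl, ?_⟩
      · rw [eZ]
        simp [XX, cr, E, div_eq_mul_inv]
      · rw [eZ]
        simp [XX, cr, E]
        field_simp
        ring
    · refine ⟨0, 3, 4, 2, by decide, by decide, by decide, by decide, by decide, h, hh, h11,
        nop 1 0 3 4 2 (by decide) (by decide) (by decide) (by decide) (by decide) h hh rh,
        ?_, -1, Or.inr rfl, ?_⟩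
      · rw [eW]
        simp [XX, cr, E, div_eq_mul_inv]
      · rw [eW]
        simp [XX, cr, E]
        field_simp
    · refine ⟨0, 3, 4, 1, by decide, by decide, by decide, by decide, by decide, l, hl, l11,
        nop 2 0 3 4 1 (by decide) (by decide) (by decide) (by decide) (by decide) l hl rl,
        ?_, -1, Or.inr rfl, ?_⟩
      · rw [eT]
        simp [XX, cr, E]
        field_simp
      · rw [eT]
        simp [XX, cr, E]
        field_simp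
        ring
    · refine ⟨0, 4, 1, 2, by decide, by decide, by decide, by decide, by decide, g', hg', g1',
        nop 3 0 4 1 2 (by decide) (by decide) (by decide) (by decide) (by decide) g' hg' rg',
        ?_, 1, Or.inl rfl, ?_⟩
      · rw [← hy]
        simp [XX, cr, E]
      · rw [← hy]
        simp [XX, cr, E]
    · refine ⟨0, 3, 1, 2, by decide, by decide, by decide, by decide, by decide, g, hg, g1,
        nop 4 0 3 1 2 (by decide) (by decide) (by decide) (by decide) (by decide) g hg rg,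
        ?_, 1, Or.inl rfl, ?_⟩
      · rw [← hx]
        simp [XX, cr, E]
      · rw [← hx]
        simp [XX, cr, E]
  have sgm : ∀ (F : IntermediateField κ K) (s : K), Sg s → s ∈ F := by
    rintro F s (rfl | rfl)
    · exact one_mem F
    · exact neg_mem (one_mem F)
  refine ⟨XX x y, ⟨⟨hX.ne, hX.add, fun i j k l h => XX_plu x0 y0 x10 y10 xy0 i j k l h⟩,
    ?_, ?_⟩⟩
  · intro i n hn
    obtain ⟨j, k', l', m, hd, m1, m2, m3, m4, r, hr, -, -, e1, s, hs, e2⟩ := key i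
    have hr1 : r / (r - 1) ∈ d.kf i := div_mem hr (sub_mem hr (one_mem _))
    refine mem_gen hX (d.kf i) i j k' l' m hd m1 m2 m3 m4 ?_ ?_ n hn
    · rw [e1]; exact hr1
    · rw [e2]; exact mul_mem (sgm _ s hs) (sub_mem (one_mem _) hr1)
  · intro i j k' l' hd c e
    obtain ⟨m, m1, m2, m3, m4⟩ : ∃ m : Fin 5, m ≠ i ∧ m ≠ j ∧ m ≠ k' ∧ m ≠ l' := by
      revert hd
      clear e
      revert i j k' l'
      decide
    obtain ⟨s, t, hs, ht, est⟩ := XX_plu x0 y0 x10 y10 xy0 i j k' l' hd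
    have b1 : XX x y (cr i j k' l') ∈ (⊥ : IntermediateField κ K) := by
      rw [e]; exact IntermediateField.algebraMap_mem _ c
    have b2 : XX x y (cr i l' k' j) ∈ (⊥ : IntermediateField κ K) := by
      have e2 : XX x y (cr i l' k' j) = t * (1 - s * XX x y (cr i j k' l')) := by
        have q := sg_sq ht
        linear_combination (-XX x y (cr i l' k' j)) * q + t * est
      rw [e2]
      exact mul_mem (sgm _ t ht) (sub_mem (one_mem _) (mul_mem (sgm _ s hs) b1))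
    obtain ⟨j'', k'', l'', m'', hd'', q1, q2, q3, q4, r, hr, hr1, hrz, er, -⟩ := key m
    have b3 := mem_gen hX ⊥ m i j k' l' hd m1 m2 m3 m4 b1 b2 _
      (LamI_cr m j'' k'' l'' m'' hd'' q1 q2 q3 q4)
    rw [er] at b3
    obtain ⟨w, hw⟩ := IntermediateField.mem_bot.1 b3
    obtain ⟨z, hz⟩ := IsAlgClosed.exists_pow_nat_eq (w / (w - 1)) (n := p) hp.pos
    apply hrz (algebraMap κ K z) ((d.kf m).algebraMap_mem z)
    have := gs r hr1
    rw [← map_pow, hz, map_div₀, map_sub, map_one, hw]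
    field_simp
    ring

end Pool.Agent.CPU
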