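import Pool.Agent.CPU.Stmts
import Pool.Agent.CPT.SLP

set_option autoImplicit false

/-!
# CPU, module SLP: the algebraic solution in general (relabelling)
-/

namespace Pool.Agent.CPU

open Pool.Agent Pool.Agent.CPT

open CPT.SLP_ in
/-- SLP. -/
theorem slp_proof (hIND : Stmt_IND) (hSLA : Stmt_SLA) : Stmt_SLP := by
  intro p _ κ K _ _ _ _ _ S d hne hNS
  obtain ⟨i, j, hij, hind⟩ := hIND p κ K S d hne
  obtain ⟨a, b, c, hd, h1, h2, h3⟩ := exists_rest i j hij
  obtain ⟨σ, -, -, -, s3, s4⟩ := exists_perm i a b c j hd h1 h2 h3 hij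
  have hNS' : NS p (d.perm σ) := by
    intro i' j' k' l' m' hD n1 n2 n3 n4
    rw [Dat.perm_kf, Dat.perm_a, rel_cr_inv]
    exact hNS (σ i') (σ j') (σ k') (σ l') (σ m') (dist_map σ hD)
      (fun h => n1 (σ.injective h)) (fun h => n2 (σ.injective h))
      (fun h => n3 (σ.injective h)) (fun h => n4 (σ.injective h))
  have hind' : Indep p (d.perm σ) 4 3 := by
    unfold Indep
    rw [Dat.perm_kf, Dat.perm_kf, Dat.perm_LL, s3, s4]
    exact hind
  obtain ⟨X', hX'⟩ := hSLA p κ K S (d.perm σ) hne hNS' hind'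
  refine ⟨fun n => X' (rel σ n), ⟨⟨?_, ?_, ?_⟩, ?_, ?_⟩⟩
  · intro n hn
    exact hX'.ne _ (Lam_rel σ hn)
  · intro m n hm hn
    change X' (rel σ (m + n)) = X' (rel σ m) * X' (rel σ n)
    rw [rel_add]
    exact hX'.add _ _ (Lam_rel σ hm) (Lam_rel σ hn)
  · intro i j k l hD
    change ∃ s t : K, Sg s ∧ Sg t ∧
      s * X' (rel σ (cr i j k l)) + t * X' (rel σ (cr i l k j)) = 1
    rw [rel_cr_fwd, rel_cr_fwd]
    exact hX'.plu _ _ _ _ (dist_map σ⁻¹ hD)
  · intro i n hn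
    change X' (rel σ n) ∈ d.kf i
    have h := hX'.mem (σ⁻¹ i) (rel σ n) (LamI_rel σ (by simpa using hn))
    rw [Dat.perm_kf] at h
    simpa using h
  · intro i j k l hD c
    change X' (rel σ (cr i j k l)) ≠ algebraMap κ K c
    rw [rel_cr_fwd]
    exact hX'.ncon _ _ _ _ (dist_map σ⁻¹ hD) c

end Pool.Agent.CPU
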