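import Pool.Agent.CPU.StmtsE

set_option autoImplicit false

/-!
# CPU: module SPN (`F` is spanned by the monomials over the `p`-th powers)
-/

namespace Pool.Agent.CPU

open Pool.Agent

namespace SPN2_

variable {F : Type} [Field F] (p : ℕ) (x y : F)

/-- the span of the monomials over the `p`-th powers -/
def W : Set F := {f | ∃ c : ℕ → ℕ → F,
  f = ∑ i ∈ Finset.range p, ∑ j ∈ Finset.range p, c i j ^ p * (x ^ i * y ^ j)}

variable {p x y}

variable [Fact p.Prime]

lemma W_zero : (0 : F) ∈ W p x y := by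
  refine ⟨fun _ _ => 0, ?_⟩
  simp [zero_pow (Fact.out : p.Prime).ne_zero]

lemma W_add [CharP F p] {f g : F} (hf : f ∈ W p x y) (hg : g ∈ W p x y) : f + g ∈ W p x y := by
  obtain ⟨a, rfl⟩ := hf
  obtain ⟨b, rfl⟩ := hg
  refine ⟨fun i j => a i j + b i j, ?_⟩
  rw [← Finset.sum_add_distrib]
  refine Finset.sum_congr rfl fun i _ => ?_
  rw [← Finset.sum_add_distrib]
  refine Finset.sum_congr rfl fun j _ => ?_
  rw [add_pow_char, add_mul]

lemma W_mono (c : F) (m n : ℕ) : c ^ p * (x ^ m * y ^ n) ∈ W p x y := by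
  classical
  have hp := (Fact.out : p.Prime).pos
  refine ⟨fun i j => if i = m % p ∧ j = n % p then c * x ^ (m / p) * y ^ (n / p) else 0, ?_⟩
  rw [Finset.sum_eq_single (m % p), Finset.sum_eq_single (n % p)]
  · dsimp only
    rw [if_pos ⟨rfl, rfl⟩, mul_pow, mul_pow, ← pow_mul, ← pow_mul]
    have h1 : x ^ m = x ^ (m / p * p) * x ^ (m % p) := by
      rw [← pow_add, Nat.div_add_mod']
    have h2 : y ^ n = y ^ (n / p * p) * y ^ (n % p) := by
      rw [← pow_add, Nat.div_add_mod']
    rw [h1, h2]
    ring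
  · intro j _ hj
    dsimp only
    rw [if_neg (fun h => hj h.2), zero_pow (Fact.out : p.Prime).ne_zero, zero_mul]
  · intro h
    exact absurd (Finset.mem_range.2 (Nat.mod_lt n hp)) h
  · intro i _ hi
    refine Finset.sum_eq_zero fun j _ => ?_
    dsimp only
    rw [if_neg (fun h => hi h.1), zero_pow (Fact.out : p.Prime).ne_zero, zero_mul]
  · intro h
    exact absurd (Finset.mem_range.2 (Nat.mod_lt m hp)) h

lemma W_sum [CharP F p] {ι : Type} (s : Finset ι) (g : ι → F) (h : ∀ i ∈ s, g i ∈ W p x y) :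
    ∑ i ∈ s, g i ∈ W p x y := by
  classical
  induction s using Finset.induction_on with
  | empty => rw [Finset.sum_empty]; exact W_zero
  | insert i s hi ih =>
    rw [Finset.sum_insert hi]
    exact W_add (h i (Finset.mem_insert_self i s)) (ih fun j hj => h j (Finset.mem_insert_of_mem hj))

lemma W_mul [CharP F p] {f g : F} (hf : f ∈ W p x y) (hg : g ∈ W p x y) : f * g ∈ W p x y := by
  obtain ⟨a, rfl⟩ := hf
  obtain ⟨b, rfl⟩ := hg
  rw [Finset.sum_mul_sum]
  refine W_sum _ _ fun i _ => W_sum _ _ fun k _ => ?_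
  rw [Finset.sum_mul_sum]
  refine W_sum _ _ fun j _ => W_sum _ _ fun l _ => ?_
  have h : a i j ^ p * (x ^ i * y ^ j) * (b k l ^ p * (x ^ k * y ^ l)) =
      (a i j * b k l) ^ p * (x ^ (i + k) * y ^ (j + l)) := by
    rw [mul_pow, pow_add, pow_add]; ring
  rw [h]
  exact W_mono _ _ _

lemma W_powp (c : F) : c ^ p ∈ W p x y := by
  have := W_mono (p := p) (x := x) (y := y) c 0 0
  simpa using this

lemma W_one : (1 : F) ∈ W p x y := by
  have := W_powp (p := p) (x := x) (y := y) 1
  simpa using this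

lemma W_x : x ∈ W p x y := by
  have := W_mono (p := p) (x := x) (y := y) 1 1 0
  simpa using this

lemma W_y : y ∈ W p x y := by
  have := W_mono (p := p) (x := x) (y := y) 1 0 1
  simpa using this

lemma W_pow [CharP F p] {f : F} (hf : f ∈ W p x y) (n : ℕ) : f ^ n ∈ W p x y := by
  induction n with
  | zero => rw [pow_zero]; exact W_one
  | succ n ih => rw [pow_succ]; exact W_mul ih hf

lemma W_inv [CharP F p] {f : F} (hf : f ∈ W p x y) : f⁻¹ ∈ W p x y := by
  by_cases h0 : f = 0
  · rw [h0, inv_zero]; exact W_zero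
  have hp := (Fact.out : p.Prime).pos
  have h1 : f⁻¹ = (f⁻¹) ^ p * f ^ (p - 1) := by
    obtain ⟨q, hq⟩ : ∃ q, p = q + 1 := ⟨p - 1, by omega⟩
    rw [hq, Nat.add_sub_cancel, pow_succ, mul_comm (f⁻¹ ^ q), mul_assoc,
      ← mul_pow, inv_mul_cancel₀ h0, one_pow, mul_one]
  rw [h1]
  exact W_mul (W_powp _) (W_pow hf _)

lemma W_neg [CharP F p] {f : F} (hf : f ∈ W p x y) : -f ∈ W p x y := by
  have h : (-1 : F) ∈ W p x y := by
    have : (-1 : F) = (-1) ^ p := by
      have h := neg_one_pow_expChar F p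
      exact h.symm
    rw [this]
    exact W_powp _
  have := W_mul h hf
  rwa [neg_one_mul] at this

variable (p x y)

/-- the subfield `W` -/
def WW [CharP F p] : Subfield F where
  carrier := W p x y
  mul_mem' := W_mul
  one_mem' := W_one
  add_mem' := W_add
  zero_mem' := W_zero
  neg_mem' := W_neg
  inv_mem' := fun _ => W_inv

variable {p x y}

theorem all_mem {κ : Type} [Field κ] [IsAlgClosed κ] [CharP κ p] [CharP F p] [Algebra κ F]
    (h : SRF.IsSurf κ x y) (f : F) : f ∈ WW p x y := by
  have hp : p.Prime := Fact.out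
  have hc : ∀ c : κ, algebraMap κ F c ∈ WW p x y := by
    intro c
    obtain ⟨r, hr⟩ := IsAlgClosed.exists_pow_nat_eq c (n := p) hp.pos
    rw [← hr, map_pow]
    exact W_powp _
  have h1 : IntermediateField.adjoin κ {x, y} ≤ (WW p x y).toIntermediateField hc := by
    rw [IntermediateField.adjoin_le_iff]
    rintro t (rfl | rfl)
    · exact W_x
    · exact W_y
  let K' := IntermediateField.adjoin κ {x, y}
  have : Algebra.IsSeparable K' F := h.sep
  have : CharP K' p := charP_of_injective_algebraMap (algebraMap κ K').injective p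
  have : ExpChar K' p := ExpChar.prime hp
  have h2 := IntermediateField.adjoin_eq_adjoin_pow_expChar_of_isSeparable' K' F Set.univ p
  have h3 : IntermediateField.adjoin K' ((· ^ p) '' (Set.univ : Set F)) ≤
      (WW p x y).toIntermediateField (K := K') (fun c => h1 c.2) := by
    rw [IntermediateField.adjoin_le_iff]
    rintro _ ⟨t, -, rfl⟩
    exact W_powp _
  rw [← h2] at h3
  exact h3 (IntermediateField.subset_adjoin _ _ (Set.mem_univ f))

end SPN2_

theorem spn_proof : Stmt_SPN := by
  intro p _ κ F _ _ _ _ _ x y h f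
  have : CharP F p := charP_of_injective_algebraMap (algebraMap κ F).injective p
  exact SPN2_.all_mem h f

end Pool.Agent.CPU
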