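import Pool.Agent.CPU.Stmts
import Pool.Agent.CPT.SUP

set_option autoImplicit false

/-!
# CPU, module SUP: the support of `X` of a cross ratio (all primes)
-/

namespace Pool.Agent.CPU

open Pool.Agent Pool.Agent.CPT

open Pool.Agent.CPT.SUP_ in
/-- SUP. -/
theorem sup_proof (hNFR : CPT.Stmt_NFR) : Stmt_SUP := by
  intro κ K _ _ _ _ S d X hX i j k l hd e he hv
  have hN := hNFR κ K S d
  obtain ⟨m, mi, mj, mk, ml⟩ := exists_fifth i j k l hd
  obtain ⟨ij, ik, il, jk, jl, kl⟩ := hd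
  have ver : ∀ (a : Fin 5) (n : Fin 5 → Fin 5 → ℤ), LamI a n → e.v (X n) ≠ 0 → d.Ver a e :=
    fun a n hn h => ⟨X n, d.KI_of_mem (hX.mem a n hn), hX.ne n hn.1, h⟩
  have vm : d.Ver m e := ver m _ (LamI_cr m i j k l ⟨ij, ik, il, jk, jl, kl⟩ mi mj mk ml) hv
  have L1 : LamI j (cr i m k l) :=
    LamI_cr j i m k l ⟨mi.symm, ik, il, mk, ml, kl⟩ ij.symm mj.symm jk jl
  have L2 : LamI k (cr i j m l) :=
    LamI_cr k i j m l ⟨ij, mi.symm, il, mj.symm, jl, ml⟩ ik.symm jk.symm mk.symm kl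
  have L3 : LamI i (cr m j k l) :=
    LamI_cr i m j k l ⟨mj, mk, ml, jk, jl, kl⟩ mi.symm ij ik il
  have L4 : LamI l (cr i j k m) :=
    LamI_cr l i j k m ⟨ij, ik, mi.symm, jk, mj.symm, mk.symm⟩ il.symm jl.symm kl.symm ml.symm
  have c1 : d.Ver j e ∨ d.Ver k e := by
    have h1 := hv
    rw [rel1 i j k l m, hX.add _ _ L1.1 L2.1, e.v_mul (hX.ne _ L1.1) (hX.ne _ L2.1)] at h1
    by_cases h2 : e.v (X (cr i m k l)) = 0
    · right
      apply ver k _ L2
      intro h3
      rw [h2, h3] at h1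
      exact h1 rfl
    · left
      exact ver j _ L1 h2
  have c2 : d.Ver i e ∨ d.Ver l e := by
    have h1 := hv
    rw [rel2 i j k l m, hX.add _ _ L3.1 L4.1, e.v_mul (hX.ne _ L3.1) (hX.ne _ L4.1)] at h1
    by_cases h2 : e.v (X (cr m j k l)) = 0
    · right
      apply ver l _ L4
      intro h3
      rw [h2, h3] at h1
      exact h1 rfl
    · left
      exact ver i _ L3 h2
  rcases c1 with v1 | v1 <;> rcases c2 with v2 | v2
  · -- j, i : D k l
    right; left
    exact three d hN mj mi mk ml ij.symm jk jl ik il kl he vm v1 v2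
  · -- j, l : D i k
    right; right; left
    exact three d hN mj ml mi mk jl ij.symm jk il.symm kl.symm ik he vm v1 v2
  · -- k, i : D j l
    right; right; right
    exact three d hN mk mi mj ml ik.symm jk.symm kl ij il jl he vm v1 v2
  · -- k, l : D i j
    left
    exact three d hN mk ml mi mj kl ik.symm jk.symm il.symm jl.symm ij he vm v1 v2

end Pool.Agent.CPU
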