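import Pool.Agent.CPU.Stmts
import Pool.Agent.CPT.Lam

/-!
Module TRA of squad CPU: a relation modulo p-th powers passes to all pencils.
-/

set_option autoImplicit false

namespace Pool.Agent.CPU

open Pool.Agent Pool.Agent.CPT

namespace TRA_

/-- the exponent vector of the relation -/
def nn (t : ℕ) (σ : Equiv.Perm (Fin 5)) : Fin 5 → Fin 5 → ℤ :=
  cr (σ 0) (σ 3) (σ 2) (σ 1) - (t : ℤ) • cr (σ 0) (σ 1) (σ 2) (σ 3)

theorem dist_perm (σ : Equiv.Perm (Fin 5)) : Dist (σ 0) (σ 1) (σ 2) (σ 3) := by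
  have h : ∀ a b : Fin 5, a ≠ b → σ a ≠ σ b := fun a b hab hh => hab (σ.injective hh)
  exact ⟨h _ _ (by decide), h _ _ (by decide), h _ _ (by decide),
    h _ _ (by decide), h _ _ (by decide), h _ _ (by decide)⟩

theorem lamI_perm (σ : Equiv.Perm (Fin 5)) : LamI (σ 4) (cr (σ 0) (σ 1) (σ 2) (σ 3)) := by
  have h : ∀ a b : Fin 5, a ≠ b → σ a ≠ σ b := fun a b hab hh => hab (σ.injective hh)
  exact LamI_cr _ _ _ _ _ (dist_perm σ) (h _ _ (by decide))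
    (h _ _ (by decide)) (h _ _ (by decide)) (h _ _ (by decide))

theorem lamI_perm' (σ : Equiv.Perm (Fin 5)) : LamI (σ 4) (cr (σ 0) (σ 3) (σ 2) (σ 1)) := by
  have h : ∀ a b : Fin 5, a ≠ b → σ a ≠ σ b := fun a b hab hh => hab (σ.injective hh)
  exact LamI_cr _ _ _ _ _ (dist_rot (dist_perm σ)) (h _ _ (by decide))
    (h _ _ (by decide)) (h _ _ (by decide)) (h _ _ (by decide))

theorem lamI_smul {i : Fin 5} {n : Fin 5 → Fin 5 → ℤ} (c : ℤ) (hn : LamI i n) :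
    LamI i (c • n) :=
  ⟨Lam_smul c hn.1, fun j => by rw [Pi.smul_apply, Pi.smul_apply, hn.2 j, smul_zero]⟩

theorem lamI_nn (t : ℕ) (σ : Equiv.Perm (Fin 5)) : LamI (σ 4) (nn t σ) :=
  LamI_sub (lamI_perm' σ) (lamI_smul _ (lamI_perm σ))

section
variable {κ K : Type} [Field κ] [Field K] [Algebra κ K] {S : Surf κ K}

/-- the relation for a permutation -/
def Q (p : ℕ) (d : Dat S) (t : ℕ) (σ : Equiv.Perm (Fin 5)) : Prop :=
  ∃ c ∈ d.kf (σ 4), c ^ (p ^ 1) = d.a (nn t σ)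

theorem a_nn (d : Dat S) (t : ℕ) (σ : Equiv.Perm (Fin 5)) : d.a (nn t σ) =
    d.a (cr (σ 0) (σ 3) (σ 2) (σ 1)) / d.a (cr (σ 0) (σ 1) (σ 2) (σ 3)) ^ t := by
  unfold nn
  rw [d.a_sub (lamI_perm' σ).1 (Lam_smul _ (lamI_perm σ).1), d.isMul.nsmul (lamI_perm σ).1]

theorem Q_iff (p : ℕ) (d : Dat S) (t : ℕ) (σ : Equiv.Perm (Fin 5)) : Q p d t σ ↔
    ∃ c ∈ d.kf (σ 4), d.a (cr (σ 0) (σ 3) (σ 2) (σ 1)) =
      c ^ p * d.a (cr (σ 0) (σ 1) (σ 2) (σ 3)) ^ t := by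
  unfold Q
  rw [a_nn]
  have h0 : d.a (cr (σ 0) (σ 1) (σ 2) (σ 3)) ^ t ≠ 0 := pow_ne_zero _ (d.a_ne _ (lamI_perm σ).1)
  constructor
  · rintro ⟨c, hc, h⟩
    refine ⟨c, hc, ?_⟩
    rw [pow_one, eq_div_iff h0] at h
    exact h.symm
  · rintro ⟨c, hc, h⟩
    refine ⟨c, hc, ?_⟩
    rw [pow_one, eq_div_iff h0]
    exact h.symm

end

section
variable {κ K : Type} [Field κ] [IsAlgClosed κ] [Field K] [Algebra κ K] {S : Surf κ K}

theorem Q_swap4 (hDIV : Stmt_DIV) (p : ℕ) [Fact p.Prime] [CharP κ p] (d : Dat S)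
    (hne : ∀ i j, i ≠ j → ∃ e, e ∈ d.D i j) (t : ℕ)
    (σ : Equiv.Perm (Fin 5)) (r : Fin 5) (h : Q p d t σ) : Q p d t (σ * Equiv.swap 4 r) := by
  by_cases hr : r = 4
  · rw [hr, Equiv.swap_self]
    exact h
  · have h1 : σ 4 ≠ σ r := fun h' => hr (σ.injective h').symm
    have h2 := hDIV p κ K S d (σ 4) (σ r) (hne _ _ h1) 1 _ (lamI_nn t σ) h
    have h3 : ∀ x, Equiv.swap (σ 4) (σ r) (σ x) = (σ * Equiv.swap 4 r) x := by
      intro x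
      rw [Equiv.mul_swap_eq_swap_mul]
      rfl
    have h5 : rel (Equiv.swap (σ 4) (σ r)) (nn t σ) = nn t (σ * Equiv.swap 4 r) := by
      have h6 : ∀ m n : Fin 5 → Fin 5 → ℤ, rel (Equiv.swap (σ 4) (σ r)) (m - n) =
        rel (Equiv.swap (σ 4) (σ r)) m - rel (Equiv.swap (σ 4) (σ r)) n := fun _ _ => rfl
      unfold nn
      rw [h6, rel_smul, rel_swap_cr, rel_swap_cr, h3, h3, h3, h3]
    have h4 : σ r = (σ * Equiv.swap 4 r) 4 := by
      rw [Equiv.Perm.mul_apply, Equiv.swap_apply_left]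
    rw [h5, h4] at h2
    exact h2

theorem Q_swap (hDIV : Stmt_DIV) (p : ℕ) [Fact p.Prime] [CharP κ p] (d : Dat S)
    (hne : ∀ i j, i ≠ j → ∃ e, e ∈ d.D i j) (t : ℕ)
    (σ : Equiv.Perm (Fin 5)) (x y : Fin 5) (hxy : x ≠ y) (h : Q p d t σ) :
    Q p d t (σ * Equiv.swap x y) := by
  have h1 : ∀ x y : Fin 5, x ≠ y → x = 4 ∨ y = 4 ∨
      Equiv.swap x y = Equiv.swap 4 x * Equiv.swap 4 y * Equiv.swap 4 x := by decide
  rcases h1 x y hxy with h2 | h2 | h2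
  · rw [h2]
    exact Q_swap4 hDIV p d hne t _ _ h
  · rw [h2, Equiv.swap_comm]
    exact Q_swap4 hDIV p d hne t _ _ h
  · rw [h2, ← mul_assoc, ← mul_assoc]
    exact Q_swap4 hDIV p d hne t _ _ (Q_swap4 hDIV p d hne t _ _ (Q_swap4 hDIV p d hne t _ _ h))

theorem Q_all (hDIV : Stmt_DIV) (p : ℕ) [Fact p.Prime] [CharP κ p] (d : Dat S)
    (hne : ∀ i j, i ≠ j → ∃ e, e ∈ d.D i j) (t : ℕ)
    (σ : Equiv.Perm (Fin 5)) (h : Q p d t σ) (τ : Equiv.Perm (Fin 5)) : Q p d t τ := by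
  have h1 : ∀ ρ : Equiv.Perm (Fin 5), Q p d t (σ * ρ) := by
    intro ρ
    induction ρ using Equiv.Perm.swap_induction_on' with
    | one => rwa [mul_one]
    | mul_swap f x y hxy ih =>
      rw [← mul_assoc]
      exact Q_swap hDIV p d hne t _ x y hxy ih
  have h2 := h1 (σ⁻¹ * τ)
  rwa [mul_inv_cancel_left] at h2

end

end TRA_

open TRA_ in
theorem tra_proof (hNEM : CPT.Stmt_NEM) (hDIV : Stmt_DIV) : Stmt_TRA := by
  intro p _ κ K _ _ _ _ _ S d hPP t i j k l m hd h1 h2 h3 h4 hc i' j' k' l' m' hd' g1 g2 g3 g4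
  have hne := hNEM κ K S d hPP
  obtain ⟨σ, s0, s1, s2, s3, s4⟩ := exists_perm i j k l m hd h1 h2 h3 h4
  obtain ⟨τ, t0, t1, t2, t3, t4⟩ := exists_perm i' j' k' l' m' hd' g1 g2 g3 g4
  have hs : Q p d t σ := by
    rw [Q_iff, s0, s1, s2, s3, s4]
    exact hc
  have ht := Q_all hDIV p d hne t σ hs τ
  rw [Q_iff, t0, t1, t2, t3, t4] at ht
  exact ht

end Pool.Agent.CPU
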