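import Pool.Agent.CPU.Stmts

set_option autoImplicit false

namespace Pool.Agent.CPU

open Pool.Agent Pool.Agent.CPT

theorem web_proof : Stmt_WEB := by
  intro K _ g g' h k l hg0 hg1 hg0' hg1' e1 e2 e3 e4 x y hx hy
  have hne : g ≠ g' := by
    rintro rfl
    apply hg0
    have : h - g = h := by rw [e4, ← e3]
    linear_combination -this
  have hd : g - g' ≠ 0 := sub_ne_zero.mpr hne
  have ha : g - 1 ≠ 0 := sub_ne_zero.mpr hg1
  have hb : g' - 1 ≠ 0 := sub_ne_zero.mpr hg1'
  have ha' : 1 - g ≠ 0 := sub_ne_zero.mpr (Ne.symm hg1)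
  have hb' : 1 - g' ≠ 0 := sub_ne_zero.mpr (Ne.symm hg1')
  have k1 : k * (g - g') = 1 - g' := by rw [e1] at e2; linear_combination -e2
  have k2 : (k - 1) * (g - g') = 1 - g := by linear_combination k1
  have h1 : h * (g - g') = g * (1 - g') := by rw [e1]; linear_combination g * k1
  have h2 : (h - 1) * (g - g') = g' * (1 - g) := by linear_combination h1
  have l1 : l * (g - g') = g := by
    have : (1 - g') * (l * (g - g')) = (1 - g') * g := by
      linear_combination h1 - (g - g') * e3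
    exact mul_left_cancel₀ hb' this
  have l2 : (l - 1) * (g - g') = g' := by linear_combination l1
  have hk1 : k - 1 ≠ 0 := fun h0 => ha' (by rw [← k2, h0, zero_mul])
  have hh1 : h - 1 ≠ 0 := fun h0 => mul_ne_zero hg0' ha' (by rw [← h2, h0, zero_mul])
  have hl1 : l - 1 ≠ 0 := fun h0 => hg0' (by rw [← l2, h0, zero_mul])
  have hy0 : y ≠ 0 := by rw [hy]; exact div_ne_zero hg0' hb
  have hx1 : 1 - x = -1 / (g - 1) := by rw [hx]; field_simp; ring
  have hy1 : 1 - y = -1 / (g' - 1) := by rw [hy]; field_simp; ring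
  refine ⟨?_, sub_ne_zero.mp hh1, sub_ne_zero.mp hk1, sub_ne_zero.mp hl1, ?_, ?_, ?_⟩
  · intro hxy
    rw [hx, hy, div_eq_div_iff ha hb] at hxy
    apply hne
    linear_combination -hxy
  · rw [hx, hy, div_div_div_eq, div_eq_div_iff hh1 (mul_ne_zero ha hg0')]
    apply mul_right_cancel₀ hd
    linear_combination ((g - 1) * g') * h1 - (g * (g' - 1)) * h2
  · rw [hx1, hy1, div_div_div_eq, div_eq_div_iff hk1 (mul_ne_zero ha (by norm_num))]
    apply mul_right_cancel₀ hd
    linear_combination ((g - 1) * (-1)) * k1 - ((-1) * (g' - 1)) * k2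
  · rw [hx1, hy1, hx, hy]
    have e : g / (g - 1) * (-1 / (g' - 1)) / (g' / (g' - 1) * (-1 / (g - 1))) = g / g' := by
      field_simp
    rw [e, div_eq_div_iff hl1 hg0']
    apply mul_right_cancel₀ hd
    linear_combination g' * l1 - g * l2

end Pool.Agent.CPU
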