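import Pool.Agent.CPT.MainF
import Pool.Agent.CPU.PIN
import Pool.Agent.CPU.PBS
import Pool.Agent.CPU.PBK
import Pool.Agent.CPU.GEX
import Pool.Agent.CPU.WEB
import Pool.Agent.CPU.DIV
import Pool.Agent.CPU.NRM
import Pool.Agent.CPU.TRA
import Pool.Agent.CPU.IND
import Pool.Agent.CPU.SLA
import Pool.Agent.CPU.SLP
import Pool.Agent.CPU.SUP
import Pool.Agent.CPU.PRO
import Pool.Agent.CPU.FIN
import Pool.Agent.CPU.ROT
import Pool.Agent.CPU.SPN2
import Pool.Agent.CPU.PRJ
import Pool.Agent.CPU.PHC
import Pool.Agent.CPU.PHI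
import Pool.Agent.CPU.BND
import Pool.Agent.CPU.END1
import Pool.Agent.CPU.CPL
import Pool.Agent.CPU.CPF
import Pool.Agent.CPU.CPP

set_option autoImplicit false

/-!
# END-1 for all primes, proved
-/

namespace Pool.Agent.CPU

open Pool.Agent

theorem pbs : Stmt_PBS := pbs_proof pin_proof
theorem pbk : Stmt_PBK := pbk_proof CPT.azr pbs
theorem gex : Stmt_GEX := gex_proof pin_proof
theorem dvi : Stmt_DIV := div_proof CPT.hrz CPT.swp
theorem nrm : Stmt_NRM := nrm_proof CPT.nem dvi
theorem tra : Stmt_TRA := tra_proof CPT.nem dvi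
theorem ind : Stmt_IND := ind_proof pbk gex CPT.hrz CPT.nem
theorem sla : Stmt_SLA := sla_proof pbk gex tra web_proof
theorem slp : Stmt_SLP := slp_proof ind sla
theorem sup : Stmt_SUP := sup_proof CPT.nfr
theorem pro : Stmt_PRO := pro_proof CPT.glb_proof CPT.nem CPT.rat_proof CPT.par sup
theorem fin : Stmt_FIN := fin_proof nrm slp pro
theorem prj : Stmt_PRJ := prj_proof spn_proof
theorem phc : Stmt_PHC := phc_proof CPT.trd_proof SRF.BAS_proof CPT.Srf.sec
theorem phi : Stmt_PHI := phi_proof prj phc CPT.Srf.loc CPT.Srf.hch CPT.Srf.sec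
theorem bnd : Stmt_BND := bnd_proof phi CPT.bez

/-- the closed point theorem with bounds, for all primes -/
theorem end1 : Stmt_END1 := end1_proof CPT.sfs CPT.amd rot_proof bnd CPT.nem CPT.glb_proof fin
theorem cpl : Stmt_CPL := cpl_proof CPT.pts end1

/-- the four functions at a closed point, for all primes -/
theorem cpf : Stmt_CPF := cpf_proof cpl

/-- the closed point theorem from torsion, with the zeros, for all primes -/
theorem cpp : Stmt_CPP := cpp_proof CPT.pts end1

end Pool.Agent.CPU
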