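import Pool.Agent.CPU.StmtsE
import Pool.Agent.CPT.PHI

set_option autoImplicit false

/-!
# PHI: an `F ^ p`-linear map with bounded poles which does not kill `X`
-/

noncomputable section

namespace Pool.Agent.CPU

open Pool.Agent Pool.Agent.CPT

namespace PHI_

section

variable {κ F : Type} [Field κ] [Field F] [Algebra κ F] {x y : F}

theorem phi_base [IsAlgClosed κ] (p : ℕ) (hp : 0 < p) (hx : x ≠ 0) (hy : y ≠ 0) (φ : F → F)
    (hadd : ∀ f g, φ (f + g) = φ f + φ g) (hsq : ∀ f g, φ (f ^ p * g) = f ^ p * φ g)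
    (hmon : ∀ m n : ℤ, φ (x ^ m * y ^ n) = x ^ m * y ^ n ∨ φ (x ^ m * y ^ n) = 0)
    (i : Fin 3) (g : F) (hg : g ∈ SRF.base κ x y i) : φ g ∈ SRF.base κ x y i := by
  have h0 : φ 0 = 0 := by
    have := hadd 0 0
    rw [add_zero] at this
    have h1 : φ 0 + φ 0 = φ 0 + 0 := by rw [add_zero]; exact this.symm
    exact add_left_cancel h1
  have hg' : g ∈ Submodule.span κ (Submonoid.closure
      (Set.range fun j => SRF.z x y j / SRF.z x y i) : Set F) := by
    rw [← Algebra.adjoin_eq_span]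
    exact hg
  induction hg' using Submodule.span_induction with
  | mem g hgm =>
    obtain ⟨m, n, h⟩ := CPT.PHI_.base_mon hx hy i g hgm
    rcases hmon m n with h1 | h1
    · rw [h, h1, ← h]
      exact hg
    · rw [h, h1]
      exact zero_mem _
  | zero => rw [h0]; exact zero_mem _
  | add a b ha hb iha ihb =>
    rw [hadd]
    refine add_mem (iha ?_) (ihb ?_)
    · have : a ∈ Subalgebra.toSubmodule (SRF.base κ x y i) := by
        unfold SRF.base
        rw [Algebra.adjoin_eq_span]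
        exact ha
      exact this
    · have : b ∈ Subalgebra.toSubmodule (SRF.base κ x y i) := by
        unfold SRF.base
        rw [Algebra.adjoin_eq_span]
        exact hb
      exact this
  | smul c a ha iha =>
    have hab : a ∈ SRF.base κ x y i := by
      have : a ∈ Subalgebra.toSubmodule (SRF.base κ x y i) := by
        unfold SRF.base
        rw [Algebra.adjoin_eq_span]
        exact ha
      exact this
    obtain ⟨s, hs⟩ := IsAlgClosed.exists_pow_nat_eq c hp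
    have h1 : φ (c • a) = c • φ a := by
      rw [← hs, Algebra.smul_def, Algebra.smul_def, map_pow, hsq]
    rw [h1]
    exact Subalgebra.smul_mem _ (iha hab) c

end

end PHI_

theorem phi_proof (hPRJ : Stmt_PRJ) (hPHC : Stmt_PHC)
    (hLOC : SRF.Stmt_LOC) (hHCH : SRF.Stmt_HCH) (hSEC : SRF.Stmt_SEC) : Stmt_PHI := by
  intro p _ κ F _ _ _ _ _ x y hS c w hw hgen X hX
  have hp : 0 < p := (Fact.out : p.Prime).pos
  obtain ⟨hx, hy⟩ := CPT.PHI_.ne0 hS
  obtain ⟨ι, Φ, hadd, hsq, hone, hker, hmon⟩ := hPRJ p κ F x y hS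
  obtain ⟨e, he, hPH⟩ := hPHC p κ F x y hS c w hw hgen
  have hl : ∃ l, Φ l X ≠ 0 := by
    by_contra hcon
    push Not at hcon
    exact hX (hker X hcon)
  obtain ⟨l, hlX⟩ := hl
  refine ⟨e ^ p, Φ l, pow_ne_zero p he, hadd l, hsq l, hone l, hlX, ?_⟩
  intro O f hf hφ
  obtain ⟨i, hi, -⟩ := O.2.2
  obtain ⟨a, ha, b, hb, hb0, hbO, hfab⟩ := hLOC κ F x y hS O i hi f hf
  obtain ⟨hH0, -, hHi⟩ := hHCH κ F x y hS O
  have hHz := (hHi i).mp hi
  have hz := CPT.PHI_.z_ne hx hy (i := i)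
  have hOrd := O.isOrd
  set r : F := a * b ^ (p - 1) with hr
  have hrc : r ∈ SRF.chart κ x y i := mul_mem ha (pow_mem hb _)
  obtain ⟨bb, hbb, hsum⟩ := hPH i r hrc
  have hwc : w / SRF.z x y i ^ c ∈ SRF.chart κ x y i := (hSEC κ F x y hS c w).mp hw i
  have h1 := congrArg (Φ l) hsum
  rw [hsq, CPT.PHI_.phi_sum (Φ l) (hadd l)] at h1
  have h2 : ∑ j ∈ Finset.range (Module.finrank (KK κ x y) F),
      Φ l (bb j * ((w / SRF.z x y i ^ c) ^ j) ^ p) ∈ O.1.toSubring := by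
    refine sum_mem ?_
    intro j _
    rw [mul_comm, hsq]
    refine mul_mem (hi (pow_mem (pow_mem hwc j) p)) (hi ?_)
    exact CPT.PHI_.base_le_chart i _
      (PHI_.phi_base p hp hx hy (Φ l) (hadd l) (hsq l) (hmon l) i _ (hbb j))
  rw [← h1] at h2
  have hff : f = b⁻¹ ^ p * r := by
    obtain ⟨m, hm⟩ : ∃ m, p = m + 1 := ⟨p - 1, by omega⟩
    rw [hfab, hr, hm, Nat.add_sub_cancel, pow_succ, inv_pow]
    field_simp
  have hφf : Φ l f = b⁻¹ ^ p * Φ l r := by
    rw [← hsq, ← hff]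
  have hφr : Φ l r ≠ 0 := by
    intro h0
    apply hφ
    rw [hφf, h0, mul_zero]
  set D := Module.finrank (KK κ x y) F with hD
  have hbi : b⁻¹ ≠ 0 := inv_ne_zero hb0
  have hq : e / SRF.z x y i ^ (c * (D - 1)) ≠ 0 := div_ne_zero he (pow_ne_zero _ hz)
  have h3 := (hOrd.mem _ (mul_ne_zero (pow_ne_zero p hq) hφr)).mp h2
  rw [hOrd.mul _ _ (pow_ne_zero p hq) hφr, hOrd.pow hq, div_eq_mul_inv,
    hOrd.mul _ _ he (inv_ne_zero (pow_ne_zero _ hz)), hOrd.inv (pow_ne_zero _ hz),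
    hOrd.pow hz] at h3
  have h4 : 0 ≤ SRF.ord O.1 b⁻¹ := (hOrd.mem _ hbi).mp hbO
  have h5 : SRF.ord O.1 (e ^ p * Φ l f) =
      p * SRF.ord O.1 e + (p * SRF.ord O.1 b⁻¹ + SRF.ord O.1 (Φ l r)) := by
    rw [hφf, hOrd.mul _ _ (pow_ne_zero p he) (mul_ne_zero (pow_ne_zero p hbi) hφr),
      hOrd.pow he, hOrd.mul _ _ (pow_ne_zero p hbi) hφr, hOrd.pow hbi]
  rw [h5]
  have h6 : ((c * (D - 1) : ℕ) : ℤ) * SRF.H κ x y O ≤ ((c * D : ℕ) : ℤ) * SRF.H κ x y O := by
    apply mul_le_mul_of_nonneg_right _ hH0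
    exact_mod_cast Nat.mul_le_mul_left c (Nat.sub_le D 1)
  have h7 : SRF.ord O.1 (SRF.z x y i) = - SRF.H κ x y O := by omega
  rw [h7] at h3
  have hp' : (0 : ℤ) ≤ (p : ℤ) := by positivity
  have h8 := mul_le_mul_of_nonneg_left h6 hp'
  have h9 := mul_nonneg hp' h4
  push_cast at h3 h8 ⊢
  nlinarith [h3, h8, h9]

end Pool.Agent.CPU
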