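import Pool.Agent.CPT.Stmts

set_option autoImplicit false

/-!
# END-1 of MP_db3ab1 for all primes: statements of the modules (squad CPU)

`Pool.Agent.CPT` treats the prime two. The data `Surf`, `Dat`, the lattice `Lam` and all
statements without characteristic (HRZ, SWP, NEM, NFR, AZR, PAR, RAT, GLB ...) are those of
`Pool.Agent.CPT`.
-/

namespace Pool.Agent.CPU

open Pool.Agent.CPT

/-- a sign -/
def Sg {K : Type} [Field K] (s : K) : Prop := s = 1 ∨ s = -1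

section
variable {κ K : Type} [Field κ] [Field K] [Algebra κ K] {S : Surf κ K}

/-- no cross ratio function is a `p`-th power in the field of its pencil -/
def NS (p : ℕ) (d : Dat S) : Prop :=
  ∀ i j k l m : Fin 5, Dist j k l m → i ≠ j → i ≠ k → i ≠ l → i ≠ m →
    ¬ ∃ c ∈ d.kf i, c ^ p = d.a (cr j k l m)

/-- the conclusion, up to signs -/
structure Out {K : Type} [Field K] (X : (Fin 5 → Fin 5 → ℤ) → K) : Prop where
  ne : ∀ n, Lam n → X n ≠ 0
  add : ∀ m n, Lam m → Lam n → X (m + n) = X m * X n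
  plu : ∀ i j k l, Dist i j k l → ∃ s t : K, Sg s ∧ Sg t ∧
    s * X (cr i j k l) + t * X (cr i l k j) = 1

theorem Out.isMul {X : (Fin 5 → Fin 5 → ℤ) → K} (h : Out X) : IsMul X := ⟨h.ne, h.add⟩

/-- an algebraic solution, before the divisors are known -/
structure Sol (d : Dat S) (X : (Fin 5 → Fin 5 → ℤ) → K) : Prop extends Out X where
  mem : ∀ i n, LamI i n → X n ∈ d.kf i
  ncon : ∀ i j k l, Dist i j k l → ∀ c : κ, X (cr i j k l) ≠ algebraMap κ K c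

end

/-- `D` is a derivation of the field `L`, with values in `K` -/
structure DerOn {K : Type} [Field K] (L : Subfield K) (D : K → K) : Prop where
  add : ∀ f ∈ L, ∀ g ∈ L, D (f + g) = D f + D g
  mul : ∀ f ∈ L, ∀ g ∈ L, D (f * g) = f * D g + g * D f

/-- every element of `F` is a polynomial in `b` of degree `< p` over the field of `p`-th powers -/
def PB {K : Type} [Field K] (p : ℕ) (F : Subfield K) (b : K) : Prop :=
  ∀ f ∈ F, ∃ c : ℕ → K, (∀ j, c j ∈ F) ∧ f = ∑ j ∈ Finset.range p, c j ^ p * b ^ j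

section
variable {κ K : Type} [Field κ] [Field K] [Algebra κ K] {S : Surf κ K}

/-- the pencils `i` and `j` are independent: there are derivations `D₁` with kernel the pencil `j`
and `D₂` with kernel the pencil `i` -/
def Indep (p : ℕ) (d : Dat S) (i j : Fin 5) : Prop :=
  ∃ D₁ D₂ : K → K, DerOn d.LL.toSubfield D₁ ∧ DerOn d.LL.toSubfield D₂ ∧
    (∀ f ∈ d.kf j, D₁ f = 0) ∧ (∀ f ∈ d.kf i, D₂ f = 0) ∧
    (∀ b ∈ d.kf i, (¬ ∃ c ∈ d.kf i, c ^ p = b) → D₁ b ≠ 0) ∧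
    ∀ b ∈ d.kf j, (¬ ∃ c ∈ d.kf j, c ^ p = b) → D₂ b ≠ 0

end

/-- PIN: `1, b, ..., b ^ (p - 1)` are independent over the `p`-th powers of `F`. -/
def Stmt_PIN : Prop := ∀ (p : ℕ) [Fact p.Prime] (K : Type) [Field K] [CharP K p] (F : Subfield K)
  (b : K), b ∈ F → (¬ ∃ c ∈ F, c ^ p = b) → ∀ c : ℕ → K, (∀ j, c j ∈ F) →
  ∑ j ∈ Finset.range p, c j ^ p * b ^ j = 0 → ∀ j < p, c j = 0

/-- PBS: function fields in one variable over an algebraically closed field. -/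
def Stmt_PBS : Prop := ∀ (p : ℕ) [Fact p.Prime] (κ K : Type) [Field κ] [IsAlgClosed κ] [CharP κ p]
  [Field K] [Algebra κ K] (u v : K), IsAlgebraic (IntermediateField.adjoin κ {u}) v →
  ∀ b ∈ IntermediateField.adjoin κ {u, v},
  (¬ ∃ c ∈ IntermediateField.adjoin κ {u, v}, c ^ p = b) →
  PB p (IntermediateField.adjoin κ {u, v}).toSubfield b

/-- PBK: the same for the field `kf i` of a pencil. -/
def Stmt_PBK : Prop := ∀ (p : ℕ) [Fact p.Prime] (κ K : Type) [Field κ] [IsAlgClosed κ] [CharP κ p]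
  [Field K] [Algebra κ K] (S : Surf κ K) (d : Dat S) (i : Fin 5), ∀ b ∈ d.kf i,
  (¬ ∃ c ∈ d.kf i, c ^ p = b) → PB p (d.kf i).toSubfield b

/-- GEX: the logarithmic derivative `g` of `b'` with respect to `b`, in a function field `F` in
one variable. If `g` is a natural number `t` then `b'` is `b ^ t` modulo `p`-th powers, if `g` is a
`p`-th power in `F` then it is a natural number. -/
def Stmt_GEX : Prop := ∀ (p : ℕ) [Fact p.Prime] (K : Type) [Field K] [CharP K p] (F : Subfield K)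
  (b b' : K), b ∈ F → b' ∈ F → b' ≠ 0 → (¬ ∃ c ∈ F, c ^ p = b) → PB p F b →
  ∃ g ∈ F, (∀ L : Subfield K, F ≤ L → ∀ D : K → K, DerOn L D → b * D b' = g * b' * D b) ∧
    (∀ t : ℕ, g = (t : K) → ∃ c ∈ F, b' = c ^ p * b ^ t) ∧
    ∀ z ∈ F, g = z ^ p → ∃ t : ℕ, g = (t : K)

/-- DIV: `p`-divisibility of the cross ratio functions passes from the pencil `i` to the
pencil `j`. -/
def Stmt_DIV : Prop := ∀ (p : ℕ) [Fact p.Prime] (κ K : Type) [Field κ] [IsAlgClosed κ] [CharP κ p]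
  [Field K] [Algebra κ K] (S : Surf κ K) (d : Dat S) (i j : Fin 5), (∃ e, e ∈ d.D i j) →
  ∀ (N : ℕ) (n : Fin 5 → Fin 5 → ℤ), LamI i n →
  (∃ c ∈ d.kf i, c ^ (p ^ N) = d.a n) →
  ∃ c ∈ d.kf j, c ^ (p ^ N) = d.a (rel (Equiv.swap i j) n)

/-- NRM: common extraction of `p`-th roots. -/
def Stmt_NRM : Prop := ∀ (p : ℕ) [Fact p.Prime] (κ K : Type) [Field κ] [IsAlgClosed κ] [CharP κ p]
  [Field K] [Algebra κ K] (S : Surf κ K) (d : Dat S), (∃ e, e ∈ S.PP) →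
  ∃ (d' : Dat S) (N : ℕ), NS p d' ∧ d'.D = d.D ∧ (∀ n, Lam n → d'.a n ^ (p ^ N) = d.a n)

/-- TRA: a relation modulo `p`-th powers between the two cross ratio functions of one pencil holds
for all pencils. -/
def Stmt_TRA : Prop := ∀ (p : ℕ) [Fact p.Prime] (κ K : Type) [Field κ] [IsAlgClosed κ] [CharP κ p]
  [Field K] [Algebra κ K] (S : Surf κ K) (d : Dat S), (∃ e, e ∈ S.PP) → ∀ (t : ℕ)
  (i j k l m : Fin 5), Dist j k l m → i ≠ j → i ≠ k → i ≠ l → i ≠ m →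
  (∃ c ∈ d.kf i, d.a (cr j m l k) = c ^ p * d.a (cr j k l m) ^ t) →
  ∀ i' j' k' l' m' : Fin 5, Dist j' k' l' m' → i' ≠ j' → i' ≠ k' → i' ≠ l' → i' ≠ m' →
  ∃ c ∈ d.kf i', d.a (cr j' m' l' k') = c ^ p * d.a (cr j' k' l' m') ^ t

/-- IND: two pencils are independent. -/
def Stmt_IND : Prop := ∀ (p : ℕ) [Fact p.Prime] (κ K : Type) [Field κ] [IsAlgClosed κ] [CharP κ p]
  [Field K] [Algebra κ K] (S : Surf κ K) (d : Dat S), (∃ e, e ∈ S.PP) →
  ∃ i j : Fin 5, i ≠ j ∧ Indep p d i j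

/-- WEB: the equations of the logarithmic derivatives of the five pencils. -/
def Stmt_WEB : Prop := ∀ (K : Type) [Field K] (g g' h k l : K), g ≠ 0 → g ≠ 1 → g' ≠ 0 → g' ≠ 1 →
  h = k * g → 1 - h = g' * (1 - k) → h = l * (1 - g') → h - g = l * (1 - g) →
  ∀ x y : K, x = g / (g - 1) → y = g' / (g' - 1) →
  x ≠ y ∧ h ≠ 1 ∧ k ≠ 1 ∧ l ≠ 1 ∧ h / (h - 1) = x / y ∧ k / (k - 1) = (1 - x) / (1 - y) ∧
    l / (l - 1) = x * (1 - y) / (y * (1 - x))

/-- SLA: the algebraic solution, when the independent pencils are `4` and `3`. -/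
def Stmt_SLA : Prop := ∀ (p : ℕ) [Fact p.Prime] (κ K : Type) [Field κ] [IsAlgClosed κ] [CharP κ p]
  [Field K] [Algebra κ K] (S : Surf κ K) (d : Dat S), (∃ e, e ∈ S.PP) → NS p d →
  Indep p d 4 3 → ∃ X, Sol d X

/-- SLP: the algebraic solution in general (relabelling). -/
def Stmt_SLP : Prop := ∀ (p : ℕ) [Fact p.Prime] (κ K : Type) [Field κ] [IsAlgClosed κ] [CharP κ p]
  [Field K] [Algebra κ K] (S : Surf κ K) (d : Dat S), (∃ e, e ∈ S.PP) → NS p d → ∃ X, Sol d X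

/-- SUP: zeros and poles of `X` of a cross ratio lie over the zeros and poles of the cross
ratio. -/
def Stmt_SUP : Prop := ∀ (κ K : Type) [Field κ] [IsAlgClosed κ] [Field K] [Algebra κ K]
  (S : Surf κ K) (d : Dat S) (X : (Fin 5 → Fin 5 → ℤ) → K), Sol d X →
  ∀ i j k l : Fin 5, Dist i j k l → ∀ e ∈ S.PP, e.v (X (cr i j k l)) ≠ 0 →
  e ∈ d.D i j ∨ e ∈ d.D k l ∨ e ∈ d.D i k ∨ e ∈ d.D j l

/-- PRO: for every cross ratio the divisors of `X` and `a` are proportional. -/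
def Stmt_PRO : Prop := ∀ (κ K : Type) [Field κ] [IsAlgClosed κ] [Field K] [Algebra κ K]
  (S : Surf κ K) (d : Dat S) (X : (Fin 5 → Fin 5 → ℤ) → K), (∃ e, e ∈ S.PP) → Sol d X →
  ∃ r s : ℕ, 0 < r ∧ 0 < s ∧ ∀ i j k l : Fin 5, Dist i j k l → ∀ e ∈ S.PP,
    (r : ℤ) * e.v (X (cr i j k l)) = (s : ℤ) * e.v (d.a (cr i j k l))

/-- FIN: the closed point theorem. -/
def Stmt_FIN : Prop := ∀ (p : ℕ) [Fact p.Prime] (κ K : Type) [Field κ] [IsAlgClosed κ] [CharP κ p]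
  [Field K] [Algebra κ K] (S : Surf κ K) (d : Dat S), (∃ e, e ∈ S.PP) →
  ∃ X : (Fin 5 → Fin 5 → ℤ) → K, Out X ∧
    (∀ i j k l, Dist i j k l → ∀ c : κ, X (cr i j k l) ≠ algebraMap κ K c) ∧
    ∃ r s : ℕ, 0 < r ∧ 0 < s ∧ ∀ n, Lam n → ∀ e ∈ S.PP, (r : ℤ) * e.v (X n) = (s : ℤ) * e.v (d.a n)

end Pool.Agent.CPU
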