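import Pool.Agent.CPT.StmtsE
import Pool.Agent.CPU.Stmts

set_option autoImplicit false

/-!
# END-1 for all primes: the bound
-/

noncomputable section

namespace Pool.Agent.CPU

open Pool.Agent Pool.Agent.CPT

/-- ROT: common extraction of `p`-th roots of `X`. -/
def Stmt_ROT : Prop := ∀ (p : ℕ) [Fact p.Prime] (κ K : Type) [Field κ] [IsAlgClosed κ] [CharP κ p]
  [Field K] [Algebra κ K] (S : Surf κ K) (d : Dat S), (∃ i j e, e ∈ d.D i j) →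
  ∀ X : (Fin 5 → Fin 5 → ℤ) → K, Out X →
  (∀ i j k l, Dist i j k l → ∀ c : κ, X (cr i j k l) ≠ algebraMap κ K c) →
  (∃ r s : ℕ, 0 < r ∧ 0 < s ∧ ∀ n, Lam n → ∀ e ∈ S.PP,
    (r : ℤ) * e.v (X n) = (s : ℤ) * e.v (d.a n)) →
  ∃ X' : (Fin 5 → Fin 5 → ℤ) → K, Out X' ∧
    (∀ i j k l, Dist i j k l → ∀ c : κ, X' (cr i j k l) ≠ algebraMap κ K c) ∧
    (∃ r s : ℕ, 0 < r ∧ 0 < s ∧ ∀ n, Lam n → ∀ e ∈ S.PP,
      (r : ℤ) * e.v (X' n) = (s : ℤ) * e.v (d.a n)) ∧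
    ∃ i j k l, Dist i j k l ∧ ¬ ∃ f : K, f ^ p = X' (cr i j k l)

/-- SPN: `F` is spanned by the monomials `x ^ i y ^ j`, `i, j < p`, over the `p`-th powers. -/
def Stmt_SPN : Prop := ∀ (p : ℕ) [Fact p.Prime] (κ F : Type) [Field κ] [IsAlgClosed κ] [CharP κ p]
  [Field F] [Algebra κ F] (x y : F), SRF.IsSurf κ x y → ∀ f : F, ∃ c : ℕ → ℕ → F,
  f = ∑ i ∈ Finset.range p, ∑ j ∈ Finset.range p, c i j ^ p * (x ^ i * y ^ j)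

/-- PRJ: projections of `F` to the summands `F ^ p x ^ i y ^ j`, `(i, j) ≠ (0, 0)`. -/
def Stmt_PRJ : Prop := ∀ (p : ℕ) [Fact p.Prime] (κ F : Type) [Field κ] [IsAlgClosed κ] [CharP κ p]
  [Field F] [Algebra κ F] (x y : F), SRF.IsSurf κ x y → ∃ (ι : Type) (φ : ι → F → F),
    (∀ l f g, φ l (f + g) = φ l f + φ l g) ∧ (∀ l f g, φ l (f ^ p * g) = f ^ p * φ l g) ∧
    (∀ l, φ l 1 = 0) ∧ (∀ f, (∀ l, φ l f = 0) → ∃ r, r ^ p = f) ∧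
    ∀ l (m n : ℤ), φ l (x ^ m * y ^ n) = x ^ m * y ^ n ∨ φ l (x ^ m * y ^ n) = 0

/-- PHC: multiples of the elements of a chart in terms of the powers of `(w/zᵢᶜ) ^ p`. -/
def Stmt_PHC : Prop := ∀ (p : ℕ) [Fact p.Prime] (κ F : Type) [Field κ] [IsAlgClosed κ] [CharP κ p]
  [Field F] [Algebra κ F] (x y : F), SRF.IsSurf κ x y → ∀ (c : ℕ) (w : F),
  w ∈ SRF.L κ x y (fun O => c * SRF.H κ x y O) →
  IntermediateField.adjoin (KK κ x y) {w} = ⊤ →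
  ∃ e : F, e ≠ 0 ∧ ∀ i, ∀ r ∈ SRF.chart κ x y i, ∃ b : ℕ → F, (∀ j, b j ∈ SRF.base κ x y i) ∧
    (e / SRF.z x y i ^ (c * (Module.finrank (KK κ x y) F - 1))) ^ p * r =
      ∑ j ∈ Finset.range (Module.finrank (KK κ x y) F), b j * ((w / SRF.z x y i ^ c) ^ j) ^ p

/-- PHI: for `X` which is not a `p`-th power there is an `F ^ p`-linear map `φ` with `φ 1 = 0`,
`φ X ≠ 0` and with poles bounded by `p c d H`, up to a fixed factor `Δ`. -/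
def Stmt_PHI : Prop := ∀ (p : ℕ) [Fact p.Prime] (κ F : Type) [Field κ] [IsAlgClosed κ] [CharP κ p]
  [Field F] [Algebra κ F] (x y : F), SRF.IsSurf κ x y → ∀ (c : ℕ) (w : F),
  w ∈ SRF.L κ x y (fun O => c * SRF.H κ x y O) →
  IntermediateField.adjoin (KK κ x y) {w} = ⊤ →
  ∀ X : F, (¬ ∃ r, r ^ p = X) → ∃ (Δ : F) (φ : F → F), Δ ≠ 0 ∧
    (∀ f g, φ (f + g) = φ f + φ g) ∧ (∀ f g, φ (f ^ p * g) = f ^ p * φ g) ∧ φ 1 = 0 ∧ φ X ≠ 0 ∧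
    ∀ O : SRF.PP κ x y, ∀ f ∈ O.1, φ f ≠ 0 →
      - (p * c * Module.finrank (KK κ x y) F * SRF.H κ x y O) ≤ SRF.ord O.1 (Δ * φ f)

/-- BND: the bound for the poles of `X`; the form `h` of degree `c₁` vanishes at the
zeros and poles of `X` and at the zeros of `1 - X`. -/
def Stmt_BND : Prop := ∀ (p : ℕ) [Fact p.Prime] (κ F : Type) [Field κ] [IsAlgClosed κ] [CharP κ p]
  [Field F] [Algebra κ F] (x y : F), SRF.IsSurf κ x y → ∀ (c c₁ : ℕ) (w h : F),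
  w ∈ SRF.L κ x y (fun O => c * SRF.H κ x y O) → IntermediateField.adjoin (KK κ x y) {w} = ⊤ →
  h ≠ 0 → h ∈ SRF.L κ x y (fun O => c₁ * SRF.H κ x y O) →
  ∀ X : F, (¬ ∃ r, r ^ p = X) →
  (∀ O : SRF.PP κ x y, SRF.ord O.1 X ≠ 0 ∨ SRF.ord O.1 (1 - X) ≠ 0 →
    1 ≤ SRF.ord O.1 h + c₁ * SRF.H κ x y O) →
  ∀ O : SRF.PP κ x y, - SRF.ord O.1 X ≤
    Module.finrank (KK κ x y) F ^ 2 * (p * c₁ + p * c * Module.finrank (KK κ x y) F)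

/-- END1: the closed point theorem with bounds. -/
def Stmt_END1 : Prop := ∀ (p : ℕ) [Fact p.Prime] (κ F : Type) [Field κ] [IsAlgClosed κ] [CharP κ p]
  [Field F] [Algebra κ F] (x y : F), SRF.IsSurf κ x y → ∀ (I : Inp κ F x y) (c c₁ B : ℕ) (w h : F),
  w ∈ SRF.L κ x y (fun O => c * SRF.H κ x y O) → IntermediateField.adjoin (KK κ x y) {w} = ⊤ →
  h ≠ 0 → h ∈ SRF.L κ x y (fun O => c₁ * SRF.H κ x y O) →
  (∀ i j, ∀ O ∈ I.D i j, 1 ≤ SRF.ord O.1 h + c₁ * SRF.H κ x y O) →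
  (∀ i j, ∀ O ∈ I.D i j, ∀ i' j', ∀ O' ∈ I.D i' j', I.m O ≤ B * I.m O') →
  ∃ X : (Fin 5 → Fin 5 → ℤ) → F, Out X ∧
    (∀ i j k l, Dist i j k l → ∀ c : κ, X (cr i j k l) ≠ algebraMap κ F c) ∧
    (∃ r s : ℕ, 0 < r ∧ 0 < s ∧ ∀ n, Lam n → ∀ O : SRF.PP κ x y,
      (r : ℤ) * SRF.ord O.1 (X n) = (s : ℤ) * SRF.ord O.1 (I.a n)) ∧
    ∀ i j k l, Dist i j k l → ∀ O : SRF.PP κ x y,
      (SRF.ord O.1 (X (cr i j k l)) < 0 → O ∈ I.D i k ∨ O ∈ I.D j l) ∧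
      - (B * (Module.finrank (KK κ x y) F ^ 2 *
        (p * c₁ + p * c * Module.finrank (KK κ x y) F)) : ℤ) ≤ SRF.ord O.1 (X (cr i j k l))

end Pool.Agent.CPU
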