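import Pool.Agent.CPT.StmtsF
import Pool.Agent.CPU.StmtsE

set_option autoImplicit false

/-!
# END-1 for all primes, from torsion
-/

noncomputable section

namespace Pool.Agent.CPU

open Pool.Agent Pool.Agent.CPT

/-- CPL: the closed point theorem from torsion, with a bound independent of the closed point. -/
def Stmt_CPL : Prop := ∀ (p : ℕ) [Fact p.Prime] (ι : Type) [Fintype ι] (lab : ι → Fin 5 × Fin 5)
  (r : ι → ℝ) (b d c c₁ : ℕ), (∀ i, (lab i).1 ≠ (lab i).2) → (∀ i, 0 < r i) → ∃ K : ℕ,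
  ∀ (κ F : Type) [Field κ] [IsAlgClosed κ] [CharP κ p] [Field F] [Algebra κ F] (x y : F),
  SRF.IsSurf κ x y → Module.finrank (KK κ x y) F ≤ d → ∀ w h : F,
  w ∈ SRF.L κ x y (fun O => c * SRF.H κ x y O) → IntermediateField.adjoin (KK κ x y) {w} = ⊤ →
  h ≠ 0 → h ∈ SRF.L κ x y (fun O => c₁ * SRF.H κ x y O) →
  ∀ (es : ι → SRF.PP κ x y → ℤ), CP x y lab r b es →
  (∀ i O, es i O ≠ 0 → 1 ≤ SRF.ord O.1 h + c₁ * SRF.H κ x y O) →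
  ∃ X : (Fin 5 → Fin 5 → ℤ) → F, Out X ∧
    (∀ i j k l, Dist i j k l → ∀ c : κ, X (cr i j k l) ≠ algebraMap κ F c) ∧
    ∀ i j k l, Dist i j k l → ∀ O : SRF.PP κ x y,
      (SRF.ord O.1 (X (cr i j k l)) < 0 →
        ∃ i', es i' O ≠ 0 ∧ (SameP (lab i') (i, k) ∨ SameP (lab i') (j, l))) ∧
      - (K : ℤ) ≤ SRF.ord O.1 (X (cr i j k l))

/-- CPF: the four functions of `DIS.Funs` at the closed point. -/
def Stmt_CPF : Prop := ∀ (p : ℕ) [Fact p.Prime] (ι : Type) [Fintype ι] (lab : ι → Fin 5 × Fin 5)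
  (r : ι → ℝ) (b d c c₁ : ℕ), (∀ i, (lab i).1 ≠ (lab i).2) → (∀ i, 0 < r i) → ∃ K : ℕ,
  ∀ (κ F : Type) [Field κ] [IsAlgClosed κ] [CharP κ p] [Field F] [Algebra κ F] (x y : F),
  SRF.IsSurf κ x y → Module.finrank (KK κ x y) F ≤ d → ∀ w h : F,
  w ∈ SRF.L κ x y (fun O => c * SRF.H κ x y O) → IntermediateField.adjoin (KK κ x y) {w} = ⊤ →
  h ≠ 0 → h ∈ SRF.L κ x y (fun O => c₁ * SRF.H κ x y O) →
  ∀ (es : ι → SRF.PP κ x y → ℤ), CP x y lab r b es →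
  (∀ i O, es i O ≠ 0 → 1 ≤ SRF.ord O.1 h + c₁ * SRF.H κ x y O) →
  ∃ f f' : F, (∀ c : κ, f ≠ algebraMap κ F c) ∧ f' ≠ 0 ∧ f' ≠ 1 ∧
    ∀ (fu : F) (P : Set (Fin 5 × Fin 5)),
      ((fu = f ∧ P = {(0, 2), (1, 3)}) ∨ (fu = f' ∧ P = {(0, 2), (1, 4)}) ∨
        (fu = f / f' ∧ P = {(1, 3), (2, 4)}) ∨ (fu = (1 - f) / (1 - f') ∧ P = {(1, 3), (0, 4)})) →
      ∀ O : SRF.PP κ x y, - (K : ℤ) ≤ SRF.ord O.1 fu ∧
        (SRF.ord O.1 fu < 0 → ∃ i', es i' O ≠ 0 ∧ ∃ q ∈ P, SameP (lab i') q)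

end Pool.Agent.CPU
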